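import Mathlib

/-!
# Determinants of Legendre symbols: the finite Fourier transform

`ps` is the standard additive character modulo the odd prime `p = 2 m + 1`, `chi` the quadratic
character, `t a = chi a * ps a`.
-/

set_option autoImplicit false

namespace Pool.Agent.H140.LD

open Finset Matrix

section

variable (p : ℕ) [hpf : Fact p.Prime]

/-- the quadratic character with complex values -/
noncomputable def chi : MulChar (ZMod p) ℂ :=
  (quadraticChar (ZMod p)).ringHomComp (Int.castRingHom ℂ)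

/-- the additive character -/
noncomputable def ps : AddChar (ZMod p) ℂ := ZMod.stdAddChar (N := p)

/-- the Gauss sum -/
noncomputable def G : ℂ := gaussSum (chi p) (ps p)

/-- the sign `χ(-1)` -/
noncomputable def sg : ℂ := chi p (-1)

/-- the nodes -/
noncomputable def tt (a : ZMod p) : ℂ := chi p a * ps p a

variable {p}

lemma chi_apply (a : ZMod p) : chi p a = ((quadraticChar (ZMod p) a : ℤ) : ℂ) := rfl

lemma chi_zero : chi p 0 = 0 := by rw [chi_apply]; simp

lemma chi_pm {a : ZMod p} (h : a ≠ 0) : chi p a = 1 ∨ chi p a = -1 := by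
  rw [chi_apply]
  rcases quadraticChar_dichotomy h with h1 | h1 <;> rw [h1] <;> simp

lemma chi_sq {a : ZMod p} (h : a ≠ 0) : chi p a * chi p a = 1 := by
  rcases chi_pm h with h1 | h1 <;> rw [h1] <;> norm_num

lemma chi_ne {a : ZMod p} (h : a ≠ 0) : chi p a ≠ 0 := by
  rcases chi_pm h with h1 | h1 <;> rw [h1] <;> norm_num

lemma chi_even {a : ZMod p} (h : a ≠ 0) {e : ℕ} (he : Even e) : chi p a ^ e = 1 := by
  obtain ⟨k, rfl⟩ := he
  rw [← two_mul, pow_mul, sq, chi_sq h, one_pow]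

lemma chi_odd {a : ZMod p} (h : a ≠ 0) {e : ℕ} (he : ¬ Even e) : chi p a ^ e = chi p a := by
  rw [Nat.not_even_iff_odd] at he
  obtain ⟨k, rfl⟩ := he
  rw [pow_succ, pow_mul, sq, chi_sq h, one_pow, one_mul]

lemma sg_sq : sg p * sg p = 1 := chi_sq (by simp)

lemma sg_pm : sg p = 1 ∨ sg p = -1 := chi_pm (by simp)

lemma sg_ne : sg p ≠ 0 := chi_ne (by simp)

lemma chi_neg (a : ZMod p) : chi p (-a) = sg p * chi p a := by
  rw [← neg_one_mul, map_mul]; rfl

lemma ps_prim : (ps p).IsPrimitive := by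
  unfold ps
  exact ZMod.isPrimitive_stdAddChar p

lemma ps_zero : ps p 0 = 1 := AddChar.map_zero_eq_one _

lemma ps_ne (a : ZMod p) : ps p a ≠ 0 := by
  intro h
  have h1 : ps p a * ps p (-a) = 1 := by
    rw [← AddChar.map_add_eq_mul, add_neg_cancel, ps_zero]
  rw [h, zero_mul] at h1
  exact zero_ne_one h1

lemma ps_inv (a : ZMod p) : ps p (-a) = (ps p a)⁻¹ := AddChar.map_neg_eq_inv _ _

lemma ps_pow (a : ZMod p) (n : ℕ) : ps p a ^ n = ps p ((n : ZMod p) * a) := by
  rw [← AddChar.map_nsmul_eq_pow, nsmul_eq_mul]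

lemma ps_conj (a : ZMod p) : (starRingEnd ℂ) (ps p a) = ps p (-a) := by
  rw [ps_inv]
  have h1 : ‖ps p a‖ = 1 := AddChar.norm_apply _ _
  rw [Complex.inv_def, Complex.normSq_eq_norm_sq, h1]
  simp

lemma ps_inj {a b : ZMod p} (h : ps p a = ps p b) : a = b := ZMod.injective_stdAddChar h

lemma p_ne : (p : ℂ) ≠ 0 := by exact_mod_cast hpf.out.ne_zero

lemma chi_ne_one (h2 : p ≠ 2) : chi p ≠ 1 := by
  have h := quadraticChar_ne_one (F := ZMod p) (by rwa [ZMod.ringChar_zmod_n])
  exact (MulChar.ringHomComp_ne_one_iff (RingHom.injective_int (Int.castRingHom ℂ))).mpr h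

lemma chi_quad : (chi p).IsQuadratic := (quadraticChar_isQuadratic (ZMod p)).comp _

lemma G_sq (h2 : p ≠ 2) : G p ^ 2 = sg p * p := by
  have h := gaussSum_sq (chi_ne_one h2) chi_quad ps_prim
  rw [ZMod.card] at h
  exact h

lemma G_ne (h2 : p ≠ 2) : G p ≠ 0 := by
  intro h
  have h1 := G_sq (p := p) h2
  rw [h] at h1
  have h3 : sg p * (p : ℂ) ≠ 0 := mul_ne_zero sg_ne p_ne
  exact h3 (by rw [← h1]; norm_num)

lemma sum_ps (a : ZMod p) : ∑ b : ZMod p, ps p (b * a) = if a = 0 then (p : ℂ) else 0 := by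
  have h := AddChar.sum_mulShift a ps_prim (ψ := ps p)
  rw [h, ZMod.card]
  simp

lemma sum_chi_ps (h2 : p ≠ 2) (a : ZMod p) : ∑ b : ZMod p, chi p b * ps p (b * a) =
    chi p a * G p := by
  by_cases ha : a = 0
  · subst ha
    simp only [mul_zero, ps_zero, mul_one, chi_zero, zero_mul]
    exact MulChar.sum_eq_zero_of_ne_one (chi_ne_one h2)
  · have h := gaussSum_mulShift (chi p) (ps p) (Units.mk0 a ha)
    rw [Units.val_mk0] at h
    have h3 : ∑ b : ZMod p, chi p b * ps p (b * a) = gaussSum (chi p) ((ps p).mulShift a) := by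
      unfold gaussSum
      refine sum_congr rfl fun b _ => ?_
      rw [AddChar.mulShift_apply, mul_comm a b]
    rw [h3]
    unfold G
    rw [← h, ← mul_assoc, chi_sq ha, one_mul]

end

section

variable {p : ℕ} [hpf : Fact p.Prime] {m : ℕ}

lemma ne_two (hm : p = 2 * m + 1) : p ≠ 2 := by omega

/-- the numbers `0, ..., 2 m` modulo `p` -/
noncomputable def eqv (hm : p = 2 * m + 1) : Fin (2 * m + 1) ≃ ZMod p :=
  Equiv.ofBijective (fun i => ((i : ℕ) : ZMod p)) (by
    rw [Fintype.bijective_iff_injective_and_card]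
    constructor
    · intro i j h
      have h1 := (ZMod.natCast_eq_natCast_iff' _ _ _).1 h
      rw [Nat.mod_eq_of_lt (by omega), Nat.mod_eq_of_lt (by omega)] at h1
      exact Fin.ext h1
    · rw [Fintype.card_fin, ZMod.card, hm])

lemma sum_fin (hm : p = 2 * m + 1) (f : ZMod p → ℂ) :
    ∑ i : Fin (2 * m + 1), f ((i : ℕ) : ZMod p) = ∑ a, f a :=
  (eqv hm).sum_comp f

lemma cast_eq_zero {k : ℕ} (hk : k < p) : ((k : ℕ) : ZMod p) = 0 ↔ k = 0 := by
  constructor
  · intro h
    rw [ZMod.natCast_eq_zero_iff] at h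
    exact Nat.eq_zero_of_dvd_of_lt h hk
  · rintro rfl; simp

lemma colE (hm : p = 2 * m + 1) (e : ℕ) (a : ZMod p) :
    ∑ i : Fin (2 * m + 1), ps p a ^ (i : ℕ) * (if ((i : ℕ) : ZMod p) = (e : ZMod p) then 1 else 0) =
      ps p a ^ e := by
  simp_rw [ps_pow]
  rw [sum_fin hm (fun b => ps p (b * a) * (if b = (e : ZMod p) then 1 else 0))]
  simp

lemma colD (hm : p = 2 * m + 1) (a : ZMod p) :
    ∑ i : Fin (2 * m + 1), ps p a ^ (i : ℕ) * (1 : ℂ) = if a = 0 then (p : ℂ) else 0 := by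
  simp_rw [ps_pow, mul_one]
  rw [sum_fin hm (fun b => ps p (b * a)), sum_ps]

/-- the constant `χ(-1) G / p` -/
noncomputable def kap (p : ℕ) [Fact p.Prime] : ℂ := sg p * G p / p

lemma colO (hm : p = 2 * m + 1) (e : ZMod p) (x : ℂ) (a : ZMod p) :
    ∑ i : Fin (2 * m + 1), ps p a ^ (i : ℕ) * (kap p * (chi p ((i : ℕ) - e) + x)) =
      chi p a * ps p (e * a) + if a = 0 then sg p * G p * x else 0 := by
  simp_rw [ps_pow]
  rw [sum_fin hm (fun b => ps p (b * a) * (kap p * (chi p (b - e) + x)))]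
  have h1 : ∀ b : ZMod p, ps p (b * a) * (kap p * (chi p (b - e) + x)) =
      kap p * (chi p (b - e) * ps p (b * a)) + kap p * x * ps p (b * a) := fun b => by ring
  simp_rw [h1]
  rw [sum_add_distrib, ← mul_sum, ← mul_sum, sum_ps]
  have h2 : ∑ b : ZMod p, chi p (b - e) * ps p (b * a) = ps p (e * a) * (chi p a * G p) := by
    rw [← sum_chi_ps (ne_two hm), ← Equiv.sum_comp (Equiv.addRight e), mul_sum]
    refine sum_congr rfl fun b _ => ?_
    simp only [Equiv.coe_addRight, add_sub_cancel_right]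
    rw [add_mul, AddChar.map_add_eq_mul]
    ring
  rw [h2]
  have hG := G_sq (p := p) (ne_two hm)
  have hp := p_ne (p := p)
  have h3 : kap p * G p = 1 := by
    unfold kap
    field_simp
    rw [hG, ← mul_assoc, sg_sq, one_mul]
  have h4 : kap p * p = sg p * G p := by
    unfold kap
    field_simp
  split_ifs with ha
  · linear_combination (ps p (e * a) * chi p a) * h3 + x * h4
  · linear_combination (ps p (e * a) * chi p a) * h3

/-- generalised Vandermonde matrix -/
def GV {n : ℕ} (v : Fin n → ℂ) (e : Fin n → ℕ) : Matrix (Fin n) (Fin n) ℂ :=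
  Matrix.of fun r j => v r ^ e j

/-- the matrix of values -/
noncomputable def XX (p m : ℕ) [Fact p.Prime] (ξ : ℂ) (e : Fin (2 * m + 1) → ℕ) :
    Matrix (Fin (2 * m + 1)) (Fin (2 * m + 1)) ℂ :=
  Matrix.of fun r j => if r = 0 then (1 + ξ) / 2 + (1 - ξ) / 2 * (-1) ^ e j
    else tt p ((r : ℕ) : ZMod p) ^ e j

/-- the matrix of Fourier coefficients -/
noncomputable def PhiM (p m : ℕ) [Fact p.Prime] (x : ℂ) (e : Fin (2 * m + 1) → ℕ) :
    Matrix (Fin (2 * m + 1)) (Fin (2 * m + 1)) ℂ :=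
  Matrix.of fun i j => if Even (e j) then
      (if ((i : ℕ) : ZMod p) = ((e j : ℕ) : ZMod p) then 1 else 0)
    else kap p * (chi p ((i : ℕ) - (e j : ℕ)) + x)

/-- the Fourier matrix -/
noncomputable def FF (p m : ℕ) [Fact p.Prime] : Matrix (Fin (2 * m + 1)) (Fin (2 * m + 1)) ℂ :=
  Matrix.vandermonde fun r => ps p ((r : ℕ) : ZMod p)

lemma fin_ne_zero (hm : p = 2 * m + 1) {r : Fin (2 * m + 1)} (h : r ≠ 0) :
    ((r : ℕ) : ZMod p) ≠ 0 := by
  intro h1
  rw [cast_eq_zero (by omega)] at h1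
  exact h (Fin.ext h1)

lemma fourier (hm : p = 2 * m + 1) (x : ℂ) (e : Fin (2 * m + 1) → ℕ) :
    FF p m * PhiM p m x e = XX p m (sg p * G p * x) e := by
  ext r j
  rw [Matrix.mul_apply]
  simp only [FF, Matrix.vandermonde_apply, PhiM, XX, Matrix.of_apply]
  by_cases he : Even (e j)
  · simp only [he, if_true]
    rw [colE hm]
    split_ifs with hr
    · subst hr
      rw [he.neg_one_pow]
      simp only [Fin.val_zero, Nat.cast_zero, ps_zero, one_pow]
      ring
    · rw [tt, mul_pow, chi_even (fin_ne_zero hm hr) he, one_mul]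
  · simp only [he, if_false]
    rw [colO hm]
    split_ifs with h0 hr hr
    · rw [h0, chi_zero, (Nat.not_even_iff_odd.1 he).neg_one_pow]
      ring
    · exact absurd h0 (fin_ne_zero hm hr)
    · subst hr
      simp at h0
    · rw [tt, mul_pow, chi_odd (fin_ne_zero hm hr) he, ps_pow, add_zero]

lemma FF_ne (hm : p = 2 * m + 1) : (FF p m).det ≠ 0 := by
  unfold FF
  rw [Matrix.det_vandermonde_ne_zero_iff]
  intro i j h
  have h1 := ps_inj h
  exact (eqv hm).injective h1

/-- the row `0` splits -/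
lemma det_XX (ξ : ℂ) (e : Fin (2 * m + 1) → ℕ) :
    (XX p m ξ e).det = (1 + ξ) / 2 * (GV (Fin.cons 1 fun r : Fin (2 * m) =>
      tt p (((r : ℕ) + 1 : ℕ) : ZMod p)) e).det +
      (1 - ξ) / 2 * (GV (Fin.cons (-1) fun r : Fin (2 * m) =>
      tt p (((r : ℕ) + 1 : ℕ) : ZMod p)) e).det := by
  set M1 := GV (Fin.cons 1 fun r : Fin (2 * m) => tt p (((r : ℕ) + 1 : ℕ) : ZMod p)) e with hM1
  set M2 := GV (Fin.cons (-1) fun r : Fin (2 * m) => tt p (((r : ℕ) + 1 : ℕ) : ZMod p)) e with hM2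
  have h1 : XX p m ξ e = M1.updateRow 0 ((((1 + ξ) / 2) • M1 0) + (((1 - ξ) / 2) • M2 0)) := by
    ext r j
    rcases Fin.eq_zero_or_eq_succ r with rfl | ⟨r, rfl⟩
    · simp [XX, hM1, hM2, GV]
    · simp [XX, hM1, GV]
  have h2 : M1.updateRow 0 (M2 0) = M2 := by
    ext r j
    rcases Fin.eq_zero_or_eq_succ r with rfl | ⟨r, rfl⟩
    · simp
    · simp [hM1, hM2, GV]
  rw [h1, Matrix.det_updateRow_add, Matrix.det_updateRow_smul, Matrix.det_updateRow_smul,
    Matrix.updateRow_eq_self, h2]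

/-- a matrix with unit columns -/
lemma det_units {n k : ℕ} (M : Matrix (Fin n) (Fin n) ℂ) (P : Fin n → Prop) [DecidablePred P]
    (h : ∀ i j, P j → M i j = if i = j then 1 else 0)
    (g : Fin k → Fin n) (hg : Function.Injective g) (hP : ∀ i, ¬ P i ↔ ∃ a, g a = i) :
    M.det = (Matrix.of fun i j : Fin k => M (g i) (g j)).det := by
  have h1 := Matrix.twoBlockTriangular_det M P (fun i hi j hj => by
    rw [h i j hj, if_neg]
    rintro rfl
    exact hi hj)
  have h2 : M.toSquareBlockProp P = 1 := by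
    ext i j
    rw [Matrix.toSquareBlockProp_def, Matrix.of_apply, h _ _ j.2, Matrix.one_apply]
    simp [Subtype.ext_iff]
  rw [h2, Matrix.det_one, one_mul] at h1
  rw [h1]
  let f : Fin k ≃ {i : Fin n // ¬ P i} := Equiv.ofBijective (fun a => ⟨g a, (hP _).2 ⟨a, rfl⟩⟩) (by
    constructor
    · intro a b hab
      exact hg (congrArg Subtype.val hab)
    · rintro ⟨i, hi⟩
      obtain ⟨a, ha⟩ := (hP i).1 hi
      exact ⟨a, Subtype.ext ha⟩)
  rw [← Matrix.det_submatrix_equiv_self f]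
  rfl

/-- Vandermonde matrix with an extra node -/
lemma det_cons {n : ℕ} (c : ℂ) (v : Fin n → ℂ) :
    (Matrix.vandermonde (Fin.cons c v : Fin (n + 1) → ℂ)).det =
      (∏ r, (v r - c)) * (Matrix.vandermonde v).det := by
  rw [Matrix.det_vandermonde, Matrix.det_vandermonde, Fin.prod_univ_succ]
  congr 1
  · rw [Fin.prod_Ioi_zero]
    simp
  · refine prod_congr rfl fun i _ => ?_
    rw [Fin.prod_Ioi_succ]
    simp

end

end Pool.Agent.H140.LD
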