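import Mathlib

/-!
# Rank two perturbations of a matrix by its own column and row
-/

set_option autoImplicit false

namespace Pool.Agent.H140.LD

open Finset Matrix

section

variable {n : ℕ}

/-- the rank one matrix `u vᵀ` -/
def RO (u v : Fin n → ℂ) : Matrix (Fin n) (Fin n) ℂ := Matrix.of fun i j => u i * v j

/-- `det (A + u vᵀ)` is affine in `v` -/
lemma det_rank_one (A : Matrix (Fin n) (Fin n) ℂ) (u : Fin n → ℂ) :
    ∃ L : (Fin n → ℂ) →ₗ[ℂ] ℂ, ∀ v, (A + RO u v).det = A.det + L v := by
  set M0 : Matrix (Fin n ⊕ Unit) (Fin n ⊕ Unit) ℂ :=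
    Matrix.fromBlocks A (-(Matrix.replicateCol Unit u)) 0 1 with hM0
  set L0 := (Matrix.detRowAlternating (n := Fin n ⊕ Unit) (R := ℂ)).toMultilinearMap.toLinearMap
    M0 (Sum.inr ()) with hL0
  set E : (Fin n → ℂ) →ₗ[ℂ] (Fin n ⊕ Unit → ℂ) :=
    { toFun := fun v => Sum.elim v (fun _ => 0)
      map_add' := by
        intro v w; ext i; rcases i with i | i <;> simp
      map_smul' := by
        intro a w; ext i; rcases i with i | i <;> simp } with hE
  refine ⟨L0.comp E, fun v => ?_⟩
  have h1 := Matrix.det_fromBlocks_one₂₂ A (-(Matrix.replicateCol Unit u))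
    (Matrix.replicateRow Unit v)
  have h2 : A - -(Matrix.replicateCol Unit u) * Matrix.replicateRow Unit v = A + RO u v := by
    ext i j
    simp [Matrix.mul_apply, RO]
  rw [h2] at h1
  rw [← h1]
  have h3 : Matrix.fromBlocks A (-(Matrix.replicateCol Unit u)) (Matrix.replicateRow Unit v) 1 =
      M0.updateRow (Sum.inr ()) (M0 (Sum.inr ()) + E v) := by
    ext i j
    rcases i with i | i
    · rcases j with j | j <;> simp [hM0]
    · rcases j with j | j <;> simp [hM0, hE]
  rw [h3, Matrix.det_updateRow_add, Matrix.updateRow_eq_self, hM0, Matrix.det_fromBlocks_zero₂₁,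
    Matrix.det_one, mul_one]
  rfl

/-- the general perturbation -/
theorem bord (A : Matrix (Fin n) (Fin n) ℂ) (i0 : Fin n) (d : Fin n → ℂ) (σ ζ : ℂ)
    (hσ : (A + RO 1 1).det = A.det + σ) (hζ : (A + RO 1 d).det = A.det + ζ) (x y z w : ℂ) :
    (Matrix.of fun i j => x + A i j + A i i0 * y + d j * z + A i i0 * d j * w).det =
      (1 + y + w * d i0) * A.det + (x + d i0 * (x * w - y * z)) * σ +
        (z + y * z - x * w) * ζ := by
  obtain ⟨L, hL⟩ := det_rank_one A 1
  have h1 : L 1 = σ := by
    have := hL 1
    rw [hσ] at this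
    exact (add_left_cancel this).symm
  have h2 : L d = ζ := by
    have := hL d
    rw [hζ] at this
    exact (add_left_cancel this).symm
  -- the generic case
  have key : ∀ y : ℂ, 1 + y + w * d i0 ≠ 0 →
      (Matrix.of fun i j => x + A i j + A i i0 * y + d j * z + A i i0 * d j * w).det =
      (1 + y + w * d i0) * A.det + (x + d i0 * (x * w - y * z)) * σ +
        (z + y * z - x * w) * ζ := by
    intro y hy
    set q0 := (x + z * d i0) / (1 + y + w * d i0) with hq0
    set q : Fin n → ℂ := (x - q0 * y) • (1 : Fin n → ℂ) + (z - q0 * w) • d with hq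
    have hq1 : q i0 = q0 := by
      have h3 : q0 * (1 + y + w * d i0) = x + z * d i0 := div_mul_cancel₀ _ hy
      simp only [hq, Pi.add_apply, Pi.smul_apply, Pi.one_apply, smul_eq_mul]
      linear_combination -h3
    set e0 : Fin n → ℂ := Pi.single i0 1 with he0
    set r : Fin n → ℂ := fun j => y + w * d j with hr
    have hM : (Matrix.of fun i j => x + A i j + A i i0 * y + d j * z + A i i0 * d j * w) =
        (A + RO 1 q) * (1 + RO e0 r) := by
      ext i j
      rw [Matrix.mul_add, Matrix.mul_one, Matrix.add_apply, Matrix.mul_apply]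
      have h4 : ∑ k, (A + RO 1 q) i k * (RO e0 r) k j = (A i i0 + q0) * r j := by
        rw [Finset.sum_eq_single i0]
        · simp [RO, he0, hq1]
        · intro k _ hk
          simp [RO, he0, hk]
        · intro h; exact absurd (Finset.mem_univ _) h
      rw [h4]
      simp only [Matrix.of_apply, Matrix.add_apply, RO, Pi.one_apply, hq, Pi.add_apply,
        Pi.smul_apply, smul_eq_mul, hr]
      ring
    have hdet : (1 + RO e0 r).det = 1 + y + w * d i0 := by
      have h5 := Matrix.det_one_add_replicateCol_mul_replicateRow (ι := Unit) e0 r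
      have h6 : Matrix.replicateCol Unit e0 * Matrix.replicateRow Unit r = RO e0 r := by
        ext i j
        simp [Matrix.mul_apply, RO]
      rw [h6] at h5
      rw [h5, he0]
      simp [hr]
      ring
    rw [hM, Matrix.det_mul, hdet, hL, hq, map_add, map_smul, map_smul, h1, h2, smul_eq_mul,
      smul_eq_mul]
    have h3 : q0 * (1 + y + w * d i0) = x + z * d i0 := div_mul_cancel₀ _ hy
    linear_combination (-(y * σ) - w * ζ) * h3
  -- continuity
  have hf : Continuous fun y : ℂ =>
      (Matrix.of fun i j => x + A i j + A i i0 * y + d j * z + A i i0 * d j * w).det := by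
    apply Continuous.matrix_det
    refine continuous_matrix fun i j => ?_
    simp only [Matrix.of_apply]
    fun_prop
  have hg : Continuous fun y : ℂ => (1 + y + w * d i0) * A.det +
      (x + d i0 * (x * w - y * z)) * σ + (z + y * z - x * w) * ζ := by fun_prop
  have h := Continuous.ext_on (dense_compl_singleton (-(1 + w * d i0))) hf hg (by
    intro y hy
    apply key
    intro h0
    apply hy
    rw [Set.mem_singleton_iff]
    linear_combination h0)
  exact congrFun h y

end

end Pool.Agent.H140.LD
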