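import Pool.Agent.H140.LD.Base

/-!
# Coefficients of products of linear factors and generalised Vandermonde determinants
-/

set_option autoImplicit false

namespace Pool.Agent.H140.LD

open Finset Matrix Polynomial

section general

variable {ι : Type*} [DecidableEq ι]

/-- the polynomial with the given roots -/
noncomputable def PR (s : Finset ι) (f : ι → ℂ) : ℂ[X] := ∏ i ∈ s, (X - C (f i))

lemma PR_monic (s : Finset ι) (f : ι → ℂ) : (PR s f).Monic := monic_prod_X_sub_C f s

lemma PR_natDegree (s : Finset ι) (f : ι → ℂ) : (PR s f).natDegree = s.card :=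
  natDegree_finsetProd_X_sub_C_eq_card s f

lemma PR_insert {s : Finset ι} {a : ι} (ha : a ∉ s) (f : ι → ℂ) :
    PR (insert a s) f = PR s f * (X - C (f a)) := by
  unfold PR
  rw [prod_insert ha, mul_comm]

lemma PR_coeff_card (s : Finset ι) (f : ι → ℂ) : (PR s f).coeff s.card = 1 := by
  rw [← PR_natDegree s f]
  exact PR_monic s f

lemma PR_coeff_zero (s : Finset ι) (f : ι → ℂ) : (PR s f).coeff 0 = ∏ i ∈ s, (-f i) := by
  rw [coeff_zero_eq_eval_zero, PR, eval_prod]
  simp

lemma PR_coeff_one (s : Finset ι) (f : ι → ℂ) (hf : ∀ i ∈ s, f i ≠ 0) :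
    (PR s f).coeff 1 = -(∏ i ∈ s, (-f i)) * ∑ i ∈ s, (f i)⁻¹ := by
  induction s using Finset.induction_on with
  | empty => simp [PR, coeff_one]
  | insert a s ha ih =>
    have h1 := ih (fun i hi => hf i (mem_insert_of_mem hi))
    have h0 : f a ≠ 0 := hf a (mem_insert_self _ _)
    rw [PR_insert ha, prod_insert ha, sum_insert ha, coeff_mul_X_sub_C, h1, PR_coeff_zero]
    field_simp
    ring

lemma PR_coeff_sub_one (s : Finset ι) (f : ι → ℂ) (n : ℕ) (hn : s.card = n + 1) :
    (PR s f).coeff n = -∑ i ∈ s, f i := by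
  have h := prod_X_sub_C_nextCoeff (s := s) f
  rw [nextCoeff_of_natDegree_pos (by
    have := PR_natDegree s f
    unfold PR at this
    omega)] at h
  have h2 := PR_natDegree s f
  unfold PR at h2
  rw [h2, hn] at h
  exact h

lemma PR_coeff_sub_two (s : Finset ι) (f : ι → ℂ) : ∀ (n : ℕ), s.card = n + 2 →
    (PR s f).coeff n = ((∑ i ∈ s, f i) ^ 2 - ∑ i ∈ s, f i ^ 2) / 2 := by
  induction s using Finset.induction_on with
  | empty => intro n hn; simp at hn
  | insert a s ha ih =>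
    intro n hn
    rw [card_insert_of_notMem ha] at hn
    have hn' : s.card = n + 1 := by omega
    rw [PR_insert ha, sum_insert ha, sum_insert ha]
    rcases n with _ | n
    · obtain ⟨b, rfl⟩ := card_eq_one.1 hn'
      rw [mul_coeff_zero, PR_coeff_zero]
      simp
      ring
    · rw [coeff_mul_X_sub_C, ih n hn', PR_coeff_sub_one s f (n + 1) hn']
      ring

end general

section

variable {n : ℕ}

lemma eval_of_coeff (R : ℂ[X]) (hdeg : ∀ k, n ≤ k → R.coeff k = 0) (x : ℂ) :
    R.eval x = ∑ i : Fin n, R.coeff i * x ^ (i : ℕ) := by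
  rw [Fin.sum_univ_eq_sum_range (fun i => R.coeff i * x ^ i) n]
  rcases Nat.eq_zero_or_pos n with rfl | hn
  · have : R = 0 := by
      ext k
      rw [hdeg k (Nat.zero_le _), coeff_zero]
    rw [this]; simp
  · apply eval_eq_sum_range'
    by_contra h
    have h1 := hdeg R.natDegree (by omega)
    rw [coeff_natDegree, leadingCoeff_eq_zero] at h1
    rw [h1, natDegree_zero] at h
    omega

/-- replacing a column of a Vandermonde matrix by the values of a polynomial -/
lemma det_repl (v : Fin n → ℂ) (j : Fin n) (E : ℕ) (R : ℂ[X]) (hdeg : ∀ k, n ≤ k → R.coeff k = 0)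
    (hR : ∀ r, R.eval (v r) = v r ^ E) :
    (GV v (Function.update (fun i => (i : ℕ)) j E)).det = R.coeff j * (Matrix.vandermonde v).det := by
  have h1 : GV v (Function.update (fun i => (i : ℕ)) j E) =
      (Matrix.vandermonde v).updateCol j (fun k => ∑ i : Fin n, (R.coeff i) •
        (Matrix.vandermonde v) k i) := by
    ext r i
    rw [Matrix.updateCol_apply]
    split_ifs with h
    · subst h
      rw [GV, Matrix.of_apply, Function.update_self, ← hR r, eval_of_coeff R hdeg]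
      rfl
    · rw [GV, Matrix.of_apply, Function.update_of_ne h, Matrix.vandermonde_apply]
  rw [h1, Matrix.det_updateCol_sum, smul_eq_mul]

/-- the polynomial `X ^ n - Q` -/
lemma det_repl_one (v : Fin n → ℂ) (j : Fin n) :
    (GV v (Function.update (fun i => (i : ℕ)) j n)).det =
      -(PR univ v).coeff j * (Matrix.vandermonde v).det := by
  have hc : (PR univ v).coeff n = 1 := by
    have := PR_coeff_card univ v
    rwa [card_univ, Fintype.card_fin] at this
  have hd : (PR univ v).natDegree = n := by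
    have := PR_natDegree univ v
    rwa [card_univ, Fintype.card_fin] at this
  rw [det_repl v j n (X ^ n - PR univ v)]
  · rw [coeff_sub, coeff_X_pow, if_neg (by have := j.2; omega), zero_sub]
  · intro k hk
    rw [coeff_sub, coeff_X_pow]
    split_ifs with h
    · rw [h, hc, sub_self]
    · rw [coeff_eq_zero_of_natDegree_lt (by omega), sub_zero]
  · intro r
    have : (PR univ v).eval (v r) = 0 := by
      rw [PR, eval_prod]
      exact prod_eq_zero (mem_univ r) (by simp)
    simp [this]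

/-- the polynomial `X ^ (n + 1) - X Q + q Q` -/
lemma det_repl_two (v : Fin n → ℂ) (hn : 1 ≤ n) (j : Fin n) :
    (GV v (Function.update (fun i => (i : ℕ)) j (n + 1))).det =
      (-(X * PR univ v).coeff j + (PR univ v).coeff (n - 1) * (PR univ v).coeff j) *
        (Matrix.vandermonde v).det := by
  have hc : (PR univ v).coeff n = 1 := by
    have := PR_coeff_card univ v
    rwa [card_univ, Fintype.card_fin] at this
  have hd : (PR univ v).natDegree = n := by
    have := PR_natDegree univ v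
    rwa [card_univ, Fintype.card_fin] at this
  rw [det_repl v j (n + 1) (X ^ (n + 1) - X * PR univ v + C ((PR univ v).coeff (n - 1)) * PR univ v)]
  · rw [coeff_add, coeff_sub, coeff_X_pow, if_neg (by have := j.2; omega), zero_sub, coeff_C_mul]
  · intro k hk
    obtain ⟨l, rfl⟩ : ∃ l, k = l + 1 := ⟨k - 1, by omega⟩
    rw [coeff_add, coeff_sub, coeff_X_pow, coeff_X_mul, coeff_C_mul]
    rcases lt_trichotomy l n with h | h | h
    · have h1 : l = n - 1 := by omega
      have h2 : l + 1 = n := by omega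
      rw [if_neg (by omega), h2, hc, h1]
      ring
    · rw [h, if_pos rfl, hc, coeff_eq_zero_of_natDegree_lt (n := n + 1) (by omega)]
      ring
    · rw [if_neg (by omega), coeff_eq_zero_of_natDegree_lt (n := l) (by omega),
        coeff_eq_zero_of_natDegree_lt (n := l + 1) (by omega)]
      ring
  · intro r
    have : (PR univ v).eval (v r) = 0 := by
      rw [PR, eval_prod]
      exact prod_eq_zero (mem_univ r) (by simp)
    simp [this]

end

section

variable {p : ℕ} [hpf : Fact p.Prime] {m : ℕ}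

/-- the nodes `t_1, ..., t_(2 m)` -/
noncomputable def tv (p m : ℕ) [Fact p.Prime] : Fin (2 * m) → ℂ :=
  fun r => tt p (((r : ℕ) + 1 : ℕ) : ZMod p)

lemma tt_zero : tt p 0 = 0 := by rw [tt, chi_zero, zero_mul]

lemma tt_ne {a : ZMod p} (h : a ≠ 0) : tt p a ≠ 0 := mul_ne_zero (chi_ne h) (ps_ne a)

lemma cast_succ_ne (hm : p = 2 * m + 1) (r : Fin (2 * m)) : (((r : ℕ) + 1 : ℕ) : ZMod p) ≠ 0 := by
  intro h
  rw [cast_eq_zero (by omega)] at h
  omega

lemma tv_ne (hm : p = 2 * m + 1) (r : Fin (2 * m)) : tv p m r ≠ 0 := tt_ne (cast_succ_ne hm r)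

/-- sums over the nonzero residues -/
lemma sum_tv (hm : p = 2 * m + 1) (f : ZMod p → ℂ) :
    ∑ r : Fin (2 * m), f (((r : ℕ) + 1 : ℕ) : ZMod p) = (∑ a, f a) - f 0 := by
  have h := sum_fin hm f
  rw [Fin.sum_univ_succ] at h
  simp only [Fin.val_zero, Nat.cast_zero, Fin.val_succ] at h
  rw [← h]
  ring

/-- products over the nonzero residues -/
lemma prod_tv (hm : p = 2 * m + 1) (f : ZMod p → ℂ) :
    ∏ r : Fin (2 * m), f (((r : ℕ) + 1 : ℕ) : ZMod p) = ∏ a ∈ univ.erase (0 : ZMod p), f a := by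
  refine prod_bij (fun r _ => (((r : ℕ) + 1 : ℕ) : ZMod p)) ?_ ?_ ?_ ?_
  · intro r _
    exact mem_erase.2 ⟨cast_succ_ne hm r, mem_univ _⟩
  · intro r _ r' _ h
    have h1 := (ZMod.natCast_eq_natCast_iff' _ _ _).1 h
    rw [Nat.mod_eq_of_lt (by omega), Nat.mod_eq_of_lt (by omega)] at h1
    exact Fin.ext (by omega)
  · intro a ha
    rw [mem_erase] at ha
    have h0 : a.val ≠ 0 := by
      intro h
      exact ha.1 ((ZMod.val_eq_zero a).1 h)
    have h1 := ZMod.val_lt a
    refine ⟨⟨a.val - 1, by omega⟩, mem_univ _, ?_⟩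
    simp only
    rw [Nat.sub_add_cancel (by omega)]
    exact ZMod.natCast_zmod_val a
  · intro r _
    rfl

lemma sum_tt (hm : p = 2 * m + 1) : ∑ r, tv p m r = G p := by
  unfold tv
  rw [sum_tv hm, tt_zero, sub_zero]
  rfl

lemma two_ne (hm : p = 2 * m + 1) : (2 : ZMod p) ≠ 0 := by
  intro h
  have h1 : ((2 : ℕ) : ZMod p) = 0 := by exact_mod_cast h
  rw [ZMod.natCast_eq_zero_iff] at h1
  have := (Nat.prime_dvd_prime_iff_eq hpf.out Nat.prime_two).1 h1
  omega

lemma sum_tt_sq (hm : p = 2 * m + 1) : ∑ r, tv p m r ^ 2 = -1 := by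
  have h : ∀ r, tv p m r ^ 2 = ps p ((((r : ℕ) + 1 : ℕ) : ZMod p) * 2) := by
    intro r
    rw [tv, tt, mul_pow, chi_even (cast_succ_ne hm r) even_two, one_mul, ps_pow, mul_comm]
    simp
  simp_rw [h]
  rw [sum_tv hm (fun a => ps p (a * 2)), sum_ps, if_neg (two_ne hm), zero_mul, ps_zero]
  ring

lemma sum_tt_inv (hm : p = 2 * m + 1) : ∑ r, (tv p m r)⁻¹ = sg p * G p := by
  have h : ∀ r, (tv p m r)⁻¹ = sg p * tt p (-(((r : ℕ) + 1 : ℕ) : ZMod p)) := by
    intro r
    rw [tv, tt, tt, mul_inv, ← ps_inv, chi_neg]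
    have h1 := chi_sq (cast_succ_ne hm r)
    have h2 : (chi p (((r : ℕ) + 1 : ℕ) : ZMod p))⁻¹ = chi p (((r : ℕ) + 1 : ℕ) : ZMod p) :=
      inv_eq_of_mul_eq_one_left h1
    rw [h2]
    linear_combination -(chi p ((((r : ℕ) + 1 : ℕ) : ZMod p)) *
      ps p (-(((r : ℕ) + 1 : ℕ) : ZMod p))) * sg_sq (p := p)
  simp_rw [h]
  rw [← mul_sum, sum_tv hm (fun a => tt p (-a)), neg_zero, tt_zero, sub_zero]
  congr 1
  have h3 := Equiv.sum_comp (Equiv.neg (ZMod p)) (tt p)
  simp only [Equiv.neg_apply] at h3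
  rw [h3]
  rfl

/-- the product of the nonzero residues -/
lemma prod_erase : ∏ a ∈ univ.erase (0 : ZMod p), a = -1 := by
  rw [← ZMod.prod_Ico_one_prime p]
  symm
  refine prod_bij (fun k _ => (k : ZMod p)) ?_ ?_ ?_ ?_
  · intro k hk
    rw [mem_Ico] at hk
    refine mem_erase.2 ⟨?_, mem_univ _⟩
    intro h0
    rw [cast_eq_zero (by have := hpf.out.pos; omega)] at h0
    omega
  · intro k hk l hl h1
    rw [mem_Ico] at hk hl
    have h2 := (ZMod.natCast_eq_natCast_iff' _ _ _).1 h1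
    have := hpf.out.pos
    rwa [Nat.mod_eq_of_lt (by omega), Nat.mod_eq_of_lt (by omega)] at h2
  · intro a ha
    rw [mem_erase] at ha
    have h0 : a.val ≠ 0 := fun h => ha.1 ((ZMod.val_eq_zero a).1 h)
    have h1 := ZMod.val_lt a
    exact ⟨a.val, mem_Ico.2 ⟨by omega, by omega⟩, ZMod.natCast_zmod_val a⟩
  · intro k _; rfl

lemma sum_erase (hm : p = 2 * m + 1) : ∑ a ∈ univ.erase (0 : ZMod p), a = 0 := by
  have h : ∑ a ∈ univ.erase (0 : ZMod p), a = ∑ a : ZMod p, a := by
    rw [← add_sum_erase univ (fun a : ZMod p => a) (mem_univ 0), zero_add]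
  rw [h]
  have h2 : ∑ a : ZMod p, a = -∑ a : ZMod p, a := by
    rw [← sum_neg_distrib]
    have h3 := Equiv.sum_comp (Equiv.neg (ZMod p)) (fun a => a)
    simp only [Equiv.neg_apply] at h3
    exact h3.symm
  have h3 : (2 : ZMod p) * ∑ a : ZMod p, a = 0 := by
    rw [two_mul]; nth_rewrite 1 [h2]; exact neg_add_cancel _
  exact (mul_eq_zero.1 h3).resolve_left (two_ne hm)

lemma prod_chi : ∏ a ∈ univ.erase (0 : ZMod p), chi p a = sg p := by
  rw [← map_prod, prod_erase]; rfl

lemma map_sum_ps {ι : Type*} [DecidableEq ι] (s : Finset ι) (f : ι → ZMod p) :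
    ps p (∑ i ∈ s, f i) = ∏ i ∈ s, ps p (f i) := by
  induction s using Finset.induction_on with
  | empty => simp
  | insert a s ha ih => rw [sum_insert ha, prod_insert ha, AddChar.map_add_eq_mul, ih]

lemma prod_ps (hm : p = 2 * m + 1) : ∏ a ∈ univ.erase (0 : ZMod p), ps p a = 1 := by
  rw [← map_sum_ps, sum_erase hm, ps_zero]

lemma prod_tt (hm : p = 2 * m + 1) : ∏ r, tv p m r = sg p := by
  unfold tv
  rw [prod_tv hm (tt p)]
  unfold tt
  rw [prod_mul_distrib, prod_chi, prod_ps hm, mul_one]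

lemma prim_root : IsPrimitiveRoot (ps p 1) p := by
  have h := ZMod.isPrimitive_stdAddChar p
  rw [IsPrimitiveRoot.iff_def]
  constructor
  · rw [ps_pow]; simp [ps_zero]
  · intro l hl
    rw [ps_pow, mul_one, ← ps_zero (p := p)] at hl
    exact (ZMod.natCast_eq_zero_iff _ _).1 (ps_inj hl)

lemma prod_one_sub : ∏ a ∈ univ.erase (0 : ZMod p), (1 - ps p a) = p := by
  obtain ⟨n, hn⟩ : ∃ n, p = n + 1 := ⟨p - 1, by have := hpf.out.pos; omega⟩
  have h1 : IsPrimitiveRoot (ps p 1) (n + 1) := by rw [← hn]; exact prim_root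
  have h2 := h1.prod_one_sub_pow_eq_order
  have h3 : (p : ℂ) = (n : ℂ) + 1 := by exact_mod_cast congrArg (fun k : ℕ => (k : ℂ)) hn
  rw [h3, ← h2]
  symm
  refine prod_bij (fun k _ => ((k + 1 : ℕ) : ZMod p)) ?_ ?_ ?_ ?_
  · intro k hk
    rw [mem_range] at hk
    refine mem_erase.2 ⟨?_, mem_univ _⟩
    intro h0
    rw [cast_eq_zero (by omega)] at h0
    omega
  · intro k hk l hl h4
    rw [mem_range] at hk hl
    have h2 := (ZMod.natCast_eq_natCast_iff' _ _ _).1 h4
    rw [Nat.mod_eq_of_lt (by omega), Nat.mod_eq_of_lt (by omega)] at h2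
    omega
  · intro a ha
    rw [mem_erase] at ha
    have h0 : a.val ≠ 0 := fun h => ha.1 ((ZMod.val_eq_zero a).1 h)
    have h1 := ZMod.val_lt a
    refine ⟨a.val - 1, mem_range.2 (by omega), ?_⟩
    rw [Nat.sub_add_cancel (by omega)]
    exact ZMod.natCast_zmod_val a
  · intro k _
    rw [ps_pow, mul_one]

/-- multiplication by a unit permutes the nonzero residues -/
lemma prod_mul_left {u : ZMod p} (hu : u ≠ 0) (f : ZMod p → ℂ) :
    ∏ a ∈ univ.erase (0 : ZMod p), f (u * a) = ∏ a ∈ univ.erase (0 : ZMod p), f a := by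
  refine prod_bij (fun a _ => u * a) ?_ ?_ ?_ ?_
  · intro a ha
    exact mem_erase.2 ⟨mul_ne_zero hu (mem_erase.1 ha).1, mem_univ _⟩
  · intro a _ b _ h
    exact mul_left_cancel₀ hu h
  · intro b hb
    exact ⟨u⁻¹ * b, mem_erase.2 ⟨mul_ne_zero (inv_ne_zero hu) (mem_erase.1 hb).1, mem_univ _⟩,
      by rw [mul_inv_cancel_left₀ hu]⟩
  · intro a _; rfl

/-- the values `∏ (t - c)` -/
noncomputable def Pc (p m : ℕ) [Fact p.Prime] (c : ℂ) : ℂ := ∏ r, (tv p m r - c)

lemma Pc_mul (hm : p = 2 * m + 1) : Pc p m 1 * Pc p m (-1) = p := by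
  unfold Pc tv
  rw [← prod_mul_distrib]
  have h : ∀ r : Fin (2 * m), (tt p (((r : ℕ) + 1 : ℕ) : ZMod p) - 1) *
      (tt p (((r : ℕ) + 1 : ℕ) : ZMod p) - -1) =
      -(1 - ps p (2 * (((r : ℕ) + 1 : ℕ) : ZMod p))) := by
    intro r
    have h1 : tt p (((r : ℕ) + 1 : ℕ) : ZMod p) ^ 2 = ps p (2 * (((r : ℕ) + 1 : ℕ) : ZMod p)) := by
      rw [tt, mul_pow, chi_even (cast_succ_ne hm r) even_two, one_mul, ps_pow]
      simp
    rw [← h1]; ring
  simp_rw [h]
  rw [prod_neg, card_univ, Fintype.card_fin, (even_two_mul m).neg_one_pow, one_mul,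
    prod_tv hm (fun a => 1 - ps p (2 * a)), prod_mul_left (two_ne hm) (fun a => 1 - ps p a),
    prod_one_sub]

lemma Pc_ne (hm : p = 2 * m + 1) : Pc p m 1 ≠ 0 ∧ Pc p m (-1) ≠ 0 := by
  have h := Pc_mul hm
  constructor
  · intro h1
    rw [h1, zero_mul] at h
    exact p_ne h.symm
  · intro h1
    rw [h1, mul_zero] at h
    exact p_ne h.symm

/-- the quotient of the two Vandermonde determinants -/
noncomputable def Q0 (p m : ℕ) [Fact p.Prime] : ℂ :=
  (Matrix.vandermonde (tv p m)).det /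
    (Matrix.vandermonde fun r : Fin (2 * m) => ps p (((r : ℕ) + 1 : ℕ) : ZMod p)).det

lemma det_FF (hm : p = 2 * m + 1) : (FF p m).det = p *
    (Matrix.vandermonde fun r : Fin (2 * m) => ps p (((r : ℕ) + 1 : ℕ) : ZMod p)).det := by
  have h : FF p m = Matrix.vandermonde (Fin.cons 1 fun r : Fin (2 * m) =>
      ps p (((r : ℕ) + 1 : ℕ) : ZMod p) : Fin (2 * m + 1) → ℂ) := by
    unfold FF
    congr 1
    ext r
    rcases Fin.eq_zero_or_eq_succ r with rfl | ⟨r, rfl⟩
    · simp [ps_zero]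
    · simp
  rw [h, det_cons]
  congr 1
  have h1 : ∀ r : Fin (2 * m), ps p (((r : ℕ) + 1 : ℕ) : ZMod p) - 1 =
      -(1 - ps p (((r : ℕ) + 1 : ℕ) : ZMod p)) := fun r => by ring
  simp_rw [h1]
  rw [prod_neg, card_univ, Fintype.card_fin, (even_two_mul m).neg_one_pow, one_mul,
    prod_tv hm (fun a => 1 - ps p a), prod_one_sub]

lemma det_V (hm : p = 2 * m + 1) : (Matrix.vandermonde (tv p m)).det * p =
    Q0 p m * (FF p m).det := by
  have h := FF_ne hm
  rw [det_FF hm] at h ⊢
  unfold Q0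
  have h2 := right_ne_zero_of_mul h
  field_simp

/-- the nodes with the extra node `c` -/
noncomputable def vc (p m : ℕ) [Fact p.Prime] (c : ℂ) : Fin (2 * m + 1) → ℂ := Fin.cons c (tv p m)

lemma det_vc (c : ℂ) : (Matrix.vandermonde (vc p m c)).det =
    Pc p m c * (Matrix.vandermonde (tv p m)).det := det_cons c _

lemma sum_vc (hm : p = 2 * m + 1) (c : ℂ) : ∑ i, vc p m c i = c + G p := by
  rw [Fin.sum_univ_succ]
  simp only [vc, Fin.cons_zero, Fin.cons_succ]
  rw [sum_tt hm]

lemma prod_vc (hm : p = 2 * m + 1) (c : ℂ) : ∏ i, (-vc p m c i) = -(c * sg p) := by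
  rw [prod_neg, card_univ, Fintype.card_fin, Fin.prod_univ_succ]
  simp only [vc, Fin.cons_zero, Fin.cons_succ]
  rw [prod_tt hm, pow_succ, (even_two_mul m).neg_one_pow]
  ring

lemma sum_vc_inv (hm : p = 2 * m + 1) {c : ℂ} (hc : c * c = 1) :
    ∑ i, (vc p m c i)⁻¹ = c + sg p * G p := by
  rw [Fin.sum_univ_succ]
  simp only [vc, Fin.cons_zero, Fin.cons_succ]
  rw [sum_tt_inv hm, inv_eq_of_mul_eq_one_left hc]

lemma vc_ne (hm : p = 2 * m + 1) {c : ℂ} (hc : c * c = 1) (i : Fin (2 * m + 1)) :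
    vc p m c i ≠ 0 := by
  rcases Fin.eq_zero_or_eq_succ i with rfl | ⟨i, rfl⟩
  · simp only [vc, Fin.cons_zero]
    rintro rfl
    simp at hc
  · simp only [vc, Fin.cons_succ]
    exact tv_ne hm i

lemma PRc_one (hm : p = 2 * m + 1) {c : ℂ} (hc : c * c = 1) :
    (PR univ (vc p m c)).coeff 1 = sg p + c * G p := by
  rw [PR_coeff_one _ _ (fun i _ => vc_ne hm hc i), prod_vc hm, sum_vc_inv hm hc]
  linear_combination sg p * hc + c * G p * sg_sq (p := p)

lemma PRc_zero (hm : p = 2 * m + 1) (c : ℂ) :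
    (PR univ (vc p m c)).coeff 0 = -(c * sg p) := by
  rw [PR_coeff_zero, prod_vc hm]

lemma PRc_top (hm : p = 2 * m + 1) (c : ℂ) :
    (PR univ (vc p m c)).coeff (2 * m) = -(c + G p) := by
  rw [PR_coeff_sub_one _ _ _ (by simp), sum_vc hm]

end

end Pool.Agent.H140.LD
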