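import Pool.Agent.H140.LD.Unit2

/-!
# Legendre symbols
-/

set_option autoImplicit false

namespace Pool.Agent.H140.LD

open Finset Matrix NumberField

section

variable {p : ℕ} [hpf : Fact p.Prime] {m : ℕ}

lemma leg_chi (a : ℤ) : ((legendreSym p a : ℤ) : ℂ) = chi p (a : ZMod p) := rfl

/-- the four parameter Toeplitz determinant -/
lemma four_T {n : ℕ} (hn : 1 ≤ n) (t τ : ℂ) (h : ∀ x, TJ p n x = t + τ * x) (x y z w : ℂ) :
    (Matrix.of fun j k : Fin n => x + ((legendreSym p (((j : ℕ) : ℤ) - ((k : ℕ) : ℤ)) : ℤ) : ℂ) +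
      ((legendreSym p ((j : ℕ) : ℤ) : ℤ) : ℂ) * y + ((legendreSym p ((k : ℕ) : ℤ) : ℤ) : ℂ) * z +
      ((legendreSym p (((j : ℕ) : ℤ) * ((k : ℕ) : ℤ)) : ℤ) : ℂ) * w).det =
      t * ((1 + y) * (1 + sg p * z) - sg p * (x * w)) + τ * x := by
  have h1 := bord_T (Matrix.of fun i j : Fin n =>
    chi p (((i : ℕ) : ZMod p) - ((j : ℕ) : ZMod p))) ⟨0, hn⟩ (sg p) t τ (by simp [chi_zero]) (by
      intro x
      rw [← h x]
      rfl) x y z w
  rw [← h1]
  congr 1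
  ext j k
  simp only [Matrix.of_apply, leg_chi]
  push_cast
  rw [sub_zero, zero_sub, chi_neg, map_mul]
  have h2 : sg p * (sg p * chi p ((k : ℕ) : ZMod p)) = chi p ((k : ℕ) : ZMod p) := by
    rw [← mul_assoc, sg_sq, one_mul]
  rw [h2]

end

end Pool.Agent.H140.LD
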