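import Pool.Agent.H140.LD.Conv

/-!
# Hankel determinants of the quadratic character
-/

set_option autoImplicit false

namespace Pool.Agent.H140.LD

open Finset Matrix Polynomial

section

variable {p : ℕ} [hpf : Fact p.Prime] {m : ℕ}

/-- the residues -/
noncomputable def Rs (p : ℕ) [Fact p.Prime] : Finset (ZMod p) :=
  (univ.erase (0 : ZMod p)).filter fun c => chi p c = 1

/-- the non-residues -/
noncomputable def Ns (p : ℕ) [Fact p.Prime] : Finset (ZMod p) :=
  (univ.erase (0 : ZMod p)).filter fun c => chi p c = -1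

lemma mem_Rs {a : ZMod p} : a ∈ Rs p ↔ chi p a = 1 := by
  unfold Rs
  rw [mem_filter, mem_erase]
  constructor
  · exact fun h => h.2
  · intro h
    refine ⟨⟨?_, mem_univ _⟩, h⟩
    rintro rfl
    rw [chi_zero] at h
    exact zero_ne_one h

lemma mem_Ns {a : ZMod p} : a ∈ Ns p ↔ chi p a = -1 := by
  unfold Ns
  rw [mem_filter, mem_erase]
  constructor
  · exact fun h => h.2
  · intro h
    refine ⟨⟨?_, mem_univ _⟩, h⟩
    rintro rfl
    rw [chi_zero] at h
    norm_num at h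

lemma card_Ns (hm : p = 2 * m + 1) : (Ns p).card = m := card_nonres hm

lemma Rs_eq : Rs p = (univ.erase (0 : ZMod p)).filter fun c => ¬ chi p c = -1 := by
  unfold Rs
  apply filter_congr
  intro a ha
  rw [mem_erase] at ha
  constructor
  · intro h; rw [h]; norm_num
  · intro h; exact (chi_pm ha.1).resolve_right h

lemma card_Rs (hm : p = 2 * m + 1) : (Rs p).card = m := by
  have h1 : (Ns p).card + (Rs p).card = 2 * m := by
    rw [Rs_eq, Ns, card_filter_add_card_filter_not, card_erase_of_mem (mem_univ _), card_univ,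
      ZMod.card, hm]
    rfl
  rw [card_Ns hm] at h1
  omega

lemma prod_RN (f : ZMod p → ℂ) : ∏ a ∈ univ.erase (0 : ZMod p), f a =
    (∏ a ∈ Rs p, f a) * ∏ a ∈ Ns p, f a := by
  rw [Rs_eq, Ns, mul_comm, prod_filter_mul_prod_filter_not]

lemma sum_RN (f : ZMod p → ℂ) : ∑ a, f a = f 0 + ((∑ a ∈ Rs p, f a) + ∑ a ∈ Ns p, f a) := by
  rw [Rs_eq, Ns, add_comm (∑ a ∈ _, f a), sum_filter_add_sum_filter_not,
    add_sum_erase univ f (mem_univ 0)]

/-- multiplication by `c` -/
lemma prod_Rs_mul {c : ZMod p} (f : ZMod p → ℂ) (hc : chi p c = 1) :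
    ∏ a ∈ Rs p, f (c * a) = ∏ a ∈ Rs p, f a := by
  have hc0 : c ≠ 0 := by rintro rfl; rw [chi_zero] at hc; exact zero_ne_one hc
  have hci : chi p c⁻¹ = 1 := by
    have := map_mul (chi p) c c⁻¹
    rw [mul_inv_cancel₀ hc0, map_one, hc, one_mul] at this
    exact this.symm
  refine prod_bij' (fun a _ => c * a) (fun a _ => c⁻¹ * a) ?_ ?_ ?_ ?_ ?_
  · intro a ha
    rw [mem_Rs] at ha ⊢
    rw [map_mul, hc, ha, one_mul]
  · intro a ha
    rw [mem_Rs] at ha ⊢
    rw [map_mul, hci, ha, one_mul]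
  · intro a _; exact inv_mul_cancel_left₀ hc0 a
  · intro a _; exact mul_inv_cancel_left₀ hc0 a
  · intro a _; rfl

lemma prod_Rs_mul' {c : ZMod p} (f : ZMod p → ℂ) (hc : chi p c = -1) :
    ∏ a ∈ Rs p, f (c * a) = ∏ a ∈ Ns p, f a := by
  have hc0 : c ≠ 0 := by rintro rfl; rw [chi_zero] at hc; norm_num at hc
  have hci : chi p c⁻¹ = -1 := by
    have := map_mul (chi p) c c⁻¹
    rw [mul_inv_cancel₀ hc0, map_one, hc] at this
    linear_combination this
  refine prod_bij' (fun a _ => c * a) (fun a _ => c⁻¹ * a) ?_ ?_ ?_ ?_ ?_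
  · intro a ha
    rw [mem_Rs] at ha
    rw [mem_Ns, map_mul, hc, ha, mul_one]
  · intro a ha
    rw [mem_Ns] at ha
    rw [mem_Rs, map_mul, hci, ha]
    norm_num
  · intro a _; exact inv_mul_cancel_left₀ hc0 a
  · intro a _; exact mul_inv_cancel_left₀ hc0 a
  · intro a _; rfl

lemma prod_Ns_mul' {c : ZMod p} (f : ZMod p → ℂ) (hc : chi p c = 1) :
    ∏ a ∈ Ns p, f (c * a) = ∏ a ∈ Ns p, f a := by
  have hc0 : c ≠ 0 := by rintro rfl; rw [chi_zero] at hc; exact zero_ne_one hc
  have hci : chi p c⁻¹ = 1 := by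
    have := map_mul (chi p) c c⁻¹
    rw [mul_inv_cancel₀ hc0, map_one, hc, one_mul] at this
    exact this.symm
  refine prod_bij' (fun a _ => c * a) (fun a _ => c⁻¹ * a) ?_ ?_ ?_ ?_ ?_
  · intro a ha
    rw [mem_Ns] at ha ⊢
    rw [map_mul, hc, ha, one_mul]
  · intro a ha
    rw [mem_Ns] at ha ⊢
    rw [map_mul, hci, ha, one_mul]
  · intro a _; exact inv_mul_cancel_left₀ hc0 a
  · intro a _; exact mul_inv_cancel_left₀ hc0 a
  · intro a _; rfl

lemma chi_four (hm : p = 2 * m + 1) : chi p 4 = 1 := by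
  have : (4 : ZMod p) = 2 * 2 := by norm_num
  rw [this, map_mul, chi_sq (two_ne hm)]

lemma three_ne (h3 : p ≠ 3) : (3 : ZMod p) ≠ 0 := by
  intro h
  have h1 : ((3 : ℕ) : ZMod p) = 0 := by exact_mod_cast h
  rw [ZMod.natCast_eq_zero_iff] at h1
  exact h3 ((Nat.prime_dvd_prime_iff_eq hpf.out Nat.prime_three).1 h1)

/-- the products of the roots of unity -/
lemma prod_ps_Rs (hm : p = 2 * m + 1) (h3 : p ≠ 3) : ∏ a ∈ Rs p, ps p a = 1 := by
  have h1 := prod_Rs_mul (fun a => ps p a) (chi_four hm)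
  have h1' : ps p (∑ a ∈ Rs p, 4 * a) = ps p (∑ a ∈ Rs p, a) := by
    rw [map_sum_ps, map_sum_ps]; exact h1
  have h2 := ps_inj h1'
  rw [← map_sum_ps]
  rw [← mul_sum] at h2
  have h4 : (3 : ZMod p) * ∑ a ∈ Rs p, a = 0 := by linear_combination h2
  rw [(mul_eq_zero.1 h4).resolve_left (three_ne h3), ps_zero]

lemma prod_ps_Ns (hm : p = 2 * m + 1) (h3 : p ≠ 3) : ∏ a ∈ Ns p, ps p a = 1 := by
  have h1 := prod_ps hm
  rw [prod_RN, prod_ps_Rs hm h3, one_mul] at h1
  exact h1

/-- the product over the residues -/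
noncomputable def R1 (p : ℕ) [Fact p.Prime] : ℂ := ∏ a ∈ Rs p, (1 - ps p a)

/-- the product over the non-residues -/
noncomputable def N1 (p : ℕ) [Fact p.Prime] : ℂ := ∏ a ∈ Ns p, (1 - ps p a)

lemma R1_mul_N1 : R1 p * N1 p = p := by
  unfold R1 N1
  rw [← prod_RN, prod_one_sub]

lemma sum_res (hm : p = 2 * m + 1) : ∑ a ∈ Ns p, ps p a = -(1 + G p) / 2 := by
  have h1 := sum_RN (fun a => ps p a)
  have h2 := sum_RN (fun a => chi p a * ps p a)
  have h3 : ∑ a : ZMod p, ps p a = 0 := by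
    have := sum_ps (p := p) 1
    rw [if_neg one_ne_zero] at this
    rw [← this]
    exact sum_congr rfl fun a _ => by rw [mul_one]
  have h4 : ∑ a : ZMod p, chi p a * ps p a = G p := by
    have := sum_chi_ps (ne_two hm) 1
    rw [map_one, one_mul] at this
    rw [← this]
    exact sum_congr rfl fun a _ => by rw [mul_one]
  rw [h3] at h1
  rw [h4] at h2
  simp only [ps_zero, chi_zero, zero_mul] at h1 h2
  rw [sum_congr rfl (fun a ha => by rw [mem_Rs.1 ha, one_mul] : ∀ a ∈ Rs p, chi p a * ps p a = ps p a),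
    sum_congr rfl (fun a ha => by rw [mem_Ns.1 ha, neg_one_mul] :
      ∀ a ∈ Ns p, chi p a * ps p a = -ps p a), sum_neg_distrib] at h2
  linear_combination (-(1 : ℂ) / 2) * h1 + (1 / 2 : ℂ) * h2

/-! ### sums of values of polynomials -/

lemma sum_eval (g : ℂ[X]) (hg : g.natDegree < 2 * p) :
    ∑ a : ZMod p, g.eval (ps p a) = p * (g.coeff 0 + g.coeff p) := by
  have hp := hpf.out.pos
  have h1 : ∀ a : ZMod p, g.eval (ps p a) =
      ∑ k ∈ range (2 * p), g.coeff k * ps p (a * (k : ZMod p)) := by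
    intro a
    rw [eval_eq_sum_range' hg]
    refine sum_congr rfl fun k _ => ?_
    rw [ps_pow, mul_comm a]
  simp_rw [h1]
  rw [sum_comm]
  simp_rw [← mul_sum]
  have h2 : ∀ k ∈ range (2 * p), g.coeff k * ∑ a : ZMod p, ps p (a * (k : ZMod p)) =
      (if k = 0 then g.coeff k * p else 0) + (if k = p then g.coeff k * p else 0) := by
    intro k hk
    rw [mem_range] at hk
    rw [sum_ps]
    have h3 : ((k : ZMod p) = 0) ↔ (k = 0 ∨ k = p) := by
      rw [ZMod.natCast_eq_zero_iff]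
      constructor
      · rintro ⟨c, hc⟩
        have : c < 2 := by
          by_contra h
          push Not at h
          have : p * 2 ≤ p * c := Nat.mul_le_mul_left p h
          omega
        interval_cases c
        · left; omega
        · right; omega
      · rintro (rfl | rfl)
        · exact dvd_zero _
        · exact dvd_rfl
    by_cases hk0 : k = 0
    · rw [if_pos (h3.2 (Or.inl hk0)), if_pos hk0, if_neg (by omega), add_zero]
    · by_cases hkp : k = p
      · rw [if_pos (h3.2 (Or.inr hkp)), if_neg hk0, if_pos hkp, zero_add]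
      · rw [if_neg (fun h => (h3.1 h).elim hk0 hkp), if_neg hk0, if_neg hkp, mul_zero, add_zero]
  rw [sum_congr rfl h2, sum_add_distrib, sum_ite_eq', sum_ite_eq', if_pos (by rw [mem_range]; omega),
    if_pos (by rw [mem_range]; omega)]
  ring

/-- the polynomial of the non-residues -/
noncomputable def NP (p : ℕ) [Fact p.Prime] : ℂ[X] := PR (Ns p) (ps p)

lemma NP_monic : (NP p).Monic := PR_monic _ _

lemma NP_deg (hm : p = 2 * m + 1) : (NP p).natDegree = m := by
  rw [NP, PR_natDegree, card_Ns hm]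

lemma NP_next (hm : p = 2 * m + 1) : (NP p).nextCoeff = (1 + G p) / 2 := by
  have h := prod_X_sub_C_nextCoeff (s := Ns p) (ps p)
  unfold NP PR
  rw [h, sum_res hm]
  ring

lemma NP_zero (hm : p = 2 * m + 1) (h3 : p ≠ 3) : (NP p).coeff 0 = (-1) ^ m := by
  rw [NP, PR_coeff_zero, prod_neg, card_Ns hm, prod_ps_Ns hm h3, mul_one]

lemma NP_one : (NP p).eval 1 = N1 p := by
  rw [NP, PR, eval_prod, N1]
  refine prod_congr rfl fun a _ => ?_
  simp

lemma NP_root {a : ZMod p} (ha : a ∈ Ns p) : (NP p).eval (ps p a) = 0 := by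
  rw [NP, PR, eval_prod]
  exact prod_eq_zero ha (by simp)

/-- sums over the residues -/
lemma sum_Rs (g : ℂ[X]) (h0 : ∀ a ∈ Ns p, g.eval (ps p a) = 0) (hg : g.natDegree < 2 * p) :
    ∑ a ∈ Rs p, g.eval (ps p a) = p * (g.coeff 0 + g.coeff p) - g.eval 1 := by
  have h1 := sum_RN (fun a => g.eval (ps p a))
  rw [sum_eval g hg, sum_eq_zero h0, ps_zero] at h1
  linear_combination -h1

lemma sum_Rs_monic (hm : p = 2 * m + 1) (g : ℂ[X]) (h0 : ∀ a ∈ Ns p, g.eval (ps p a) = 0)
    (hd : g.natDegree = p + 1) :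
    ∑ a ∈ Rs p, g.eval (ps p a) = p * (g.coeff 0 + g.nextCoeff) - g.eval 1 := by
  have hp := hpf.out.two_le
  rw [sum_Rs g h0 (by omega), nextCoeff_of_natDegree_pos (by omega), hd]
  rfl

lemma X1_monic : (X - C 1 : ℂ[X]).Monic := monic_X_sub_C 1

lemma X1_deg : (X - C 1 : ℂ[X]).natDegree = 1 := natDegree_X_sub_C 1

lemma X1_next : (X - C 1 : ℂ[X]).nextCoeff = -1 := nextCoeff_X_sub_C 1

lemma X_next : (X : ℂ[X]).nextCoeff = 0 := by
  rw [nextCoeff_of_natDegree_pos (by simp)]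
  simp

/-- the three quadratic sums -/
lemma sum_aa (hm : p = 2 * m + 1) (h3 : p ≠ 3) :
    ∑ a ∈ Rs p, ((NP p).eval (ps p a) * (ps p a - 1)) ^ 2 = p * G p := by
  have h := sum_Rs_monic hm ((NP p * (X - C 1)) * (NP p * (X - C 1))) (by
    intro a ha; rw [eval_mul, eval_mul, NP_root ha]; ring) (by
    rw [(NP_monic.mul X1_monic).natDegree_mul (NP_monic.mul X1_monic), NP_monic.natDegree_mul
      X1_monic, NP_deg hm, X1_deg]
    omega)
  rw [(NP_monic.mul X1_monic).nextCoeff_mul (NP_monic.mul X1_monic),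
    NP_monic.nextCoeff_mul X1_monic, NP_next hm, X1_next, mul_coeff_zero, mul_coeff_zero,
    NP_zero hm h3] at h
  simp only [eval_mul, eval_sub, eval_X, eval_C, coeff_sub, coeff_X_zero, coeff_C_zero] at h
  have h5 : (-1 : ℂ) ^ m * (-1) ^ m = 1 := by rw [← mul_pow]; norm_num
  have h6 : ∑ a ∈ Rs p, ((NP p).eval (ps p a) * (ps p a - 1)) ^ 2 =
      ∑ a ∈ Rs p, (NP p).eval (ps p a) * (ps p a - 1) * ((NP p).eval (ps p a) * (ps p a - 1)) :=
    sum_congr rfl fun a _ => by ring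
  rw [h6, h]
  linear_combination (p : ℂ) * h5

lemma sum_bb (hm : p = 2 * m + 1) :
    ∑ a ∈ Rs p, ((NP p).eval (ps p a) * ps p a) ^ 2 = p * (1 + G p) - N1 p ^ 2 := by
  have h := sum_Rs_monic hm ((NP p * X) * (NP p * X)) (by
    intro a ha; rw [eval_mul, eval_mul, NP_root ha]; ring) (by
    rw [(NP_monic.mul monic_X).natDegree_mul (NP_monic.mul monic_X), NP_monic.natDegree_mul
      monic_X, NP_deg hm, natDegree_X]
    omega)
  rw [(NP_monic.mul monic_X).nextCoeff_mul (NP_monic.mul monic_X),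
    NP_monic.nextCoeff_mul monic_X, NP_next hm, X_next, mul_coeff_zero, mul_coeff_zero] at h
  simp only [eval_mul, eval_X, coeff_X_zero, NP_one] at h
  have h6 : ∑ a ∈ Rs p, ((NP p).eval (ps p a) * ps p a) ^ 2 =
      ∑ a ∈ Rs p, (NP p).eval (ps p a) * ps p a * ((NP p).eval (ps p a) * ps p a) :=
    sum_congr rfl fun a _ => by ring
  rw [h6, h]
  ring

lemma sum_ab (hm : p = 2 * m + 1) :
    ∑ a ∈ Rs p, ((NP p).eval (ps p a) * (ps p a - 1)) * ((NP p).eval (ps p a) * ps p a) =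
      p * G p := by
  have h := sum_Rs_monic hm ((NP p * (X - C 1)) * (NP p * X)) (by
    intro a ha; rw [eval_mul, eval_mul, NP_root ha]; ring) (by
    rw [(NP_monic.mul X1_monic).natDegree_mul (NP_monic.mul monic_X), NP_monic.natDegree_mul
      X1_monic, NP_monic.natDegree_mul monic_X, NP_deg hm, X1_deg, natDegree_X]
    omega)
  rw [(NP_monic.mul X1_monic).nextCoeff_mul (NP_monic.mul monic_X),
    NP_monic.nextCoeff_mul X1_monic, NP_monic.nextCoeff_mul monic_X, NP_next hm, X1_next, X_next,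
    mul_coeff_zero, mul_coeff_zero, mul_coeff_zero] at h
  simp only [eval_mul, eval_sub, eval_X, eval_C, coeff_X_zero, sub_self, mul_zero, zero_mul] at h
  rw [h]
  ring

/-- the linear sums -/
lemma sum_a (hm : p = 2 * m + 1) (h3 : p ≠ 3) {k : ℕ} (hk : k < m) :
    ∑ a ∈ Rs p, ps p a ^ k * ((NP p).eval (ps p a) * (ps p a - 1)) =
      if k = 0 then -(p : ℂ) * (-1) ^ m else 0 := by
  have hd : (X ^ k * (NP p * (X - C 1))).natDegree = k + (m + 1) := by
    rw [(monic_X_pow k).natDegree_mul (NP_monic.mul X1_monic), NP_monic.natDegree_mul X1_monic,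
      NP_deg hm, X1_deg, natDegree_X_pow]
  have h := sum_Rs (X ^ k * (NP p * (X - C 1))) (by
    intro a ha; rw [eval_mul, eval_mul, NP_root ha]; ring) (by rw [hd]; omega)
  rw [coeff_eq_zero_of_natDegree_lt (n := p) (by rw [hd]; omega), mul_coeff_zero,
    mul_coeff_zero, NP_zero hm h3, coeff_X_pow] at h
  simp only [eval_mul, eval_sub, eval_X, eval_C, eval_pow, coeff_sub, coeff_X_zero,
    coeff_C_zero] at h
  rw [h]
  by_cases hk0 : k = 0
  · rw [if_pos hk0.symm, if_pos hk0]; ring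
  · rw [if_neg (fun h => hk0 h.symm), if_neg hk0]; ring

lemma sum_b (hm : p = 2 * m + 1) {k : ℕ} (hk : k < m) :
    ∑ a ∈ Rs p, ps p a ^ k * ((NP p).eval (ps p a) * ps p a) = -N1 p := by
  have hd : (X ^ k * (NP p * X)).natDegree = k + (m + 1) := by
    rw [(monic_X_pow k).natDegree_mul (NP_monic.mul monic_X), NP_monic.natDegree_mul monic_X,
      NP_deg hm, natDegree_X, natDegree_X_pow]
  have h := sum_Rs (X ^ k * (NP p * X)) (by
    intro a ha; rw [eval_mul, eval_mul, NP_root ha]; ring) (by rw [hd]; omega)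
  rw [coeff_eq_zero_of_natDegree_lt (n := p) (by rw [hd]; omega), mul_coeff_zero,
    mul_coeff_zero] at h
  simp only [eval_mul, eval_X, eval_pow, coeff_X_zero, NP_one] at h
  rw [h]
  ring

/-! ### the determinant -/

/-- rank two -/
lemma det_rank_two {n : ℕ} (a b : Fin n → ℂ) (θ q : ℂ) :
    4 * ((2 : ℂ) • (1 : Matrix (Fin n) (Fin n) ℂ) + (θ • RO b b - q • RO a a)).det =
      2 ^ n * ((2 + θ * ∑ i, b i ^ 2) * (2 - q * ∑ i, a i ^ 2) +
        q * θ * (∑ i, a i * b i) ^ 2) := by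
  set A : Matrix (Fin n) (Fin 2) ℂ := Matrix.of fun i k => if k = 0 then θ / 2 * b i else -q / 2 * a i
    with hA
  set B : Matrix (Fin 2) (Fin n) ℂ := Matrix.of fun k i => if k = 0 then b i else a i with hB
  have h1 : ((2 : ℂ) • (1 : Matrix (Fin n) (Fin n) ℂ) + (θ • RO b b - q • RO a a)) =
      (2 : ℂ) • (1 + A * B) := by
    ext i j
    simp only [Matrix.add_apply, Matrix.sub_apply, Matrix.smul_apply, smul_eq_mul, RO,
      Matrix.of_apply, Matrix.mul_apply, Fin.sum_univ_two, hA, hB]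
    simp
    ring
  rw [h1, Matrix.det_smul, Fintype.card_fin, Matrix.det_one_add_mul_comm, Matrix.det_fin_two]
  simp only [Matrix.add_apply, Matrix.one_apply, Matrix.mul_apply, hA, hB, Matrix.of_apply]
  simp only [Fin.isValue, ↓reduceIte, one_ne_zero, zero_ne_one, zero_add]
  have e1 : ∑ x, b x * (θ / 2 * b x) = θ / 2 * ∑ i, b i ^ 2 := by
    rw [mul_sum]; exact sum_congr rfl fun i _ => by ring
  have e2 : ∑ x, a x * (-q / 2 * a x) = -q / 2 * ∑ i, a i ^ 2 := by
    rw [mul_sum]; exact sum_congr rfl fun i _ => by ring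
  have e3 : ∑ x, b x * (-q / 2 * a x) = -q / 2 * ∑ i, a i * b i := by
    rw [mul_sum]; exact sum_congr rfl fun i _ => by ring
  have e4 : ∑ x, a x * (θ / 2 * b x) = θ / 2 * ∑ i, a i * b i := by
    rw [mul_sum]; exact sum_congr rfl fun i _ => by ring
  rw [e1, e2, e3, e4]
  ring

/-- an enumeration of the residues -/
noncomputable def vr (hm : p = 2 * m + 1) (i : Fin m) : ZMod p :=
  ((Finset.equivFinOfCardEq (card_Rs hm)).symm i : ZMod p)

lemma sum_vr (hm : p = 2 * m + 1) (f : ZMod p → ℂ) : ∑ i, f (vr hm i) = ∑ a ∈ Rs p, f a := by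
  unfold vr
  rw [Equiv.sum_comp (Finset.equivFinOfCardEq (card_Rs hm)).symm
    (fun a : {x // x ∈ Rs p} => f (a : ZMod p)), Finset.sum_coe_sort (Rs p) f]

lemma prod_vr (hm : p = 2 * m + 1) (f : ZMod p → ℂ) : ∏ i, f (vr hm i) = ∏ a ∈ Rs p, f a := by
  unfold vr
  rw [Equiv.prod_comp (Finset.equivFinOfCardEq (card_Rs hm)).symm
    (fun a : {x // x ∈ Rs p} => f (a : ZMod p)), Finset.prod_coe_sort (Rs p) f]

lemma vr_mem (hm : p = 2 * m + 1) (i : Fin m) : vr hm i ∈ Rs p :=
  ((Finset.equivFinOfCardEq (card_Rs hm)).symm i).2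

lemma vr_inj (hm : p = 2 * m + 1) : Function.Injective (vr hm) := fun _ _ h =>
  (Finset.equivFinOfCardEq (card_Rs hm)).symm.injective (Subtype.ext h)

/-- the Vandermonde matrix of the residues -/
noncomputable def VR (hm : p = 2 * m + 1) : Matrix (Fin m) (Fin m) ℂ :=
  Matrix.vandermonde fun i => ps p (vr hm i)

/-- the Hankel matrix of the values -/
lemma hank_entry (hm : p = 2 * m + 1) (i j : Fin m) :
    G p * chi p (((i : ℕ) : ZMod p) + ((j : ℕ) : ZMod p)) =
      2 * (∑ a ∈ Rs p, ps p a ^ (i : ℕ) * ps p a ^ (j : ℕ)) + 1 -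
        if (i : ℕ) = 0 ∧ (j : ℕ) = 0 then (p : ℂ) else 0 := by
  set t : ZMod p := ((i : ℕ) : ZMod p) + ((j : ℕ) : ZMod p) with ht
  have h1 := sum_RN (fun a => ps p (a * t))
  have h2 := sum_RN (fun a => chi p a * ps p (a * t))
  rw [sum_ps] at h1
  rw [sum_chi_ps (ne_two hm)] at h2
  simp only [ps_zero, chi_zero, zero_mul] at h1 h2
  rw [sum_congr rfl (fun a ha => by rw [mem_Rs.1 ha, one_mul] :
      ∀ a ∈ Rs p, chi p a * ps p (a * t) = ps p (a * t)),
    sum_congr rfl (fun a ha => by rw [mem_Ns.1 ha, neg_one_mul] :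
      ∀ a ∈ Ns p, chi p a * ps p (a * t) = -ps p (a * t)), sum_neg_distrib] at h2
  have h3 : ∑ a ∈ Rs p, ps p a ^ (i : ℕ) * ps p a ^ (j : ℕ) = ∑ a ∈ Rs p, ps p (a * t) := by
    refine sum_congr rfl fun a _ => ?_
    rw [← pow_add, ps_pow, ht]
    push_cast
    rw [mul_comm a]
  have h4 : (t = 0) ↔ ((i : ℕ) = 0 ∧ (j : ℕ) = 0) := by
    have : t = (((i : ℕ) + (j : ℕ) : ℕ) : ZMod p) := by rw [ht]; push_cast; rfl
    rw [this, cast_eq_zero (by omega)]
    omega
  rw [h3]
  by_cases h0 : (i : ℕ) = 0 ∧ (j : ℕ) = 0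
  · rw [if_pos h0]
    rw [if_pos (h4.2 h0)] at h1
    linear_combination h2 + h1
  · rw [if_neg h0]
    rw [if_neg (fun h => h0 (h4.1 h))] at h1
    linear_combination h2 + h1

theorem hank_det (hm : p = 2 * m + 1) (h3 : p ≠ 3) (x : ℂ) :
    4 * (G p ^ m * (Matrix.of fun i j : Fin m =>
      chi p (((i : ℕ) : ZMod p) + ((j : ℕ) : ZMod p)) + x).det) =
    (VR hm).det ^ 2 * (2 ^ m * ((2 - G p) * (1 - G p * x) +
      (2 + G p) * (1 + G p * x) * (R1 p ^ 2 / p))) := by
  have hp := p_ne (p := p)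
  have hc : (-1 : ℂ) ^ m * (-1) ^ m = 1 := by rw [← mul_pow]; norm_num
  have hRN := R1_mul_N1 (p := p)
  set α : Fin m → ℂ := fun i => -((-1) ^ m) / p *
    ((NP p).eval (ps p (vr hm i)) * (ps p (vr hm i) - 1)) with hα
  set β : Fin m → ℂ := fun i => -(R1 p) / p *
    ((NP p).eval (ps p (vr hm i)) * ps p (vr hm i)) with hβ
  have hVα : ∀ k : Fin m, ∑ i, (VR hm) i k * α i = if (k : ℕ) = 0 then 1 else 0 := by
    intro k
    have h1 : ∑ i, (VR hm) i k * α i = -((-1) ^ m) / p * ∑ a ∈ Rs p,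
        ps p a ^ (k : ℕ) * ((NP p).eval (ps p a) * (ps p a - 1)) := by
      rw [← sum_vr hm (fun a => ps p a ^ (k : ℕ) * ((NP p).eval (ps p a) * (ps p a - 1))), mul_sum]
      refine sum_congr rfl fun i _ => ?_
      simp only [VR, Matrix.vandermonde_apply, hα]
      ring
    rw [h1, sum_a hm h3 k.2]
    split_ifs
    · field_simp
      linear_combination hc
    · ring
  have hVβ : ∀ k : Fin m, ∑ i, (VR hm) i k * β i = 1 := by
    intro k
    have h1 : ∑ i, (VR hm) i k * β i = -(R1 p) / p * ∑ a ∈ Rs p,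
        ps p a ^ (k : ℕ) * ((NP p).eval (ps p a) * ps p a) := by
      rw [← sum_vr hm (fun a => ps p a ^ (k : ℕ) * ((NP p).eval (ps p a) * ps p a)), mul_sum]
      refine sum_congr rfl fun i _ => ?_
      simp only [VR, Matrix.vandermonde_apply, hβ]
      ring
    rw [h1, sum_b hm k.2]
    field_simp
    linear_combination hRN
  have haa : ∑ i, α i ^ 2 = G p / p := by
    have h1 : ∑ i, α i ^ 2 = 1 / (p : ℂ) ^ 2 * ∑ a ∈ Rs p,
        ((NP p).eval (ps p a) * (ps p a - 1)) ^ 2 := by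
      rw [← sum_vr hm (fun a => ((NP p).eval (ps p a) * (ps p a - 1)) ^ 2), mul_sum]
      refine sum_congr rfl fun i _ => ?_
      simp only [hα]
      rw [mul_pow, div_pow, neg_sq, sq ((-1 : ℂ) ^ m), hc]
    rw [h1, sum_aa hm h3]
    field_simp
  have hbb : ∑ i, β i ^ 2 = R1 p ^ 2 * (1 + G p) / p - 1 := by
    have h1 : ∑ i, β i ^ 2 = R1 p ^ 2 / (p : ℂ) ^ 2 * ∑ a ∈ Rs p,
        ((NP p).eval (ps p a) * ps p a) ^ 2 := by
      rw [← sum_vr hm (fun a => ((NP p).eval (ps p a) * ps p a) ^ 2), mul_sum]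
      refine sum_congr rfl fun i _ => ?_
      simp only [hβ]
      rw [mul_pow, div_pow, neg_sq]
    rw [h1, sum_bb hm]
    field_simp
    linear_combination (-(R1 p * N1 p) - p) * hRN
  have hab : ∑ i, α i * β i = (-1) ^ m * R1 p * G p / p := by
    have h1 : ∑ i, α i * β i = (-1) ^ m * R1 p / (p : ℂ) ^ 2 * ∑ a ∈ Rs p,
        ((NP p).eval (ps p a) * (ps p a - 1)) * ((NP p).eval (ps p a) * ps p a) := by
      rw [← sum_vr hm (fun a => ((NP p).eval (ps p a) * (ps p a - 1)) *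
        ((NP p).eval (ps p a) * ps p a)), mul_sum]
      refine sum_congr rfl fun i _ => ?_
      simp only [hα, hβ]
      ring
    rw [h1, sum_ab hm]
    field_simp
  have hmat : (G p) • (Matrix.of fun i j : Fin m =>
      chi p (((i : ℕ) : ZMod p) + ((j : ℕ) : ZMod p)) + x) =
      (VR hm)ᵀ * ((2 : ℂ) • (1 : Matrix (Fin m) (Fin m) ℂ) +
        ((1 + G p * x) • RO β β - (p : ℂ) • RO α α)) * (VR hm) := by
    have e1 : (VR hm)ᵀ * (RO β β) * (VR hm) = RO 1 1 := by
      have : RO β β = Matrix.replicateCol Unit β * Matrix.replicateRow Unit β := by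
        ext i j; simp [RO, Matrix.mul_apply]
      rw [this, ← Matrix.mul_assoc, Matrix.mul_assoc]
      ext i j
      rw [Matrix.mul_apply]
      simp only [Matrix.mul_apply, Matrix.transpose_apply, Matrix.replicateCol_apply,
        Matrix.replicateRow_apply, RO, Matrix.of_apply, Pi.one_apply]
      rw [Finset.univ_unique, Finset.sum_singleton, hVβ]
      have := hVβ j
      rw [one_mul, mul_one, ← this]
      exact sum_congr rfl fun i _ => mul_comm _ _
    have e2 : (VR hm)ᵀ * (RO α α) * (VR hm) =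
        RO (fun i => if (i : ℕ) = 0 then 1 else 0) (fun i => if (i : ℕ) = 0 then 1 else 0) := by
      have : RO α α = Matrix.replicateCol Unit α * Matrix.replicateRow Unit α := by
        ext i j; simp [RO, Matrix.mul_apply]
      rw [this, ← Matrix.mul_assoc, Matrix.mul_assoc]
      ext i j
      rw [Matrix.mul_apply]
      simp only [Matrix.mul_apply, Matrix.transpose_apply, Matrix.replicateCol_apply,
        Matrix.replicateRow_apply, RO, Matrix.of_apply]
      rw [Finset.univ_unique, Finset.sum_singleton, hVα]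
      congr 1
      rw [← hVα j]
      exact sum_congr rfl fun i _ => mul_comm _ _
    rw [Matrix.mul_add, Matrix.add_mul, Matrix.mul_sub, Matrix.sub_mul, Matrix.mul_smul,
      Matrix.mul_smul, Matrix.mul_smul, Matrix.smul_mul, Matrix.smul_mul, Matrix.smul_mul, e1, e2,
      Matrix.mul_one]
    ext i j
    simp only [Matrix.smul_apply, Matrix.add_apply, Matrix.sub_apply, smul_eq_mul,
      Matrix.of_apply, RO, Pi.one_apply, Matrix.mul_apply, Matrix.transpose_apply]
    have h4 : ∑ k, (VR hm) k i * (VR hm) k j =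
        ∑ a ∈ Rs p, ps p a ^ (i : ℕ) * ps p a ^ (j : ℕ) := by
      rw [← sum_vr hm (fun a => ps p a ^ (i : ℕ) * ps p a ^ (j : ℕ))]
      rfl
    rw [h4, mul_add, hank_entry hm]
    by_cases hi : (i : ℕ) = 0
    · by_cases hj : (j : ℕ) = 0
      · rw [if_pos ⟨hi, hj⟩, if_pos hi, if_pos hj]; ring
      · rw [if_neg (fun h => hj h.2), if_pos hi, if_neg hj]; ring
    · rw [if_neg (fun h => hi h.1), if_neg hi]; ring
  have hdet := congrArg Matrix.det hmat
  rw [Matrix.det_smul, Fintype.card_fin, Matrix.det_mul, Matrix.det_mul, Matrix.det_transpose] at hdet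
  rw [hdet]
  have h2 := det_rank_two α β (1 + G p * x) p
  rw [haa, hbb, hab] at h2
  have h5 : ((2 : ℂ) + (1 + G p * x) * (R1 p ^ 2 * (1 + G p) / p - 1)) * (2 - p * (G p / p)) +
      p * (1 + G p * x) * ((-1) ^ m * R1 p * G p / p) ^ 2 =
      (2 - G p) * (1 - G p * x) + (2 + G p) * (1 + G p * x) * (R1 p ^ 2 / p) := by
    have h6 : ((-1 : ℂ) ^ m * R1 p * G p / p) ^ 2 = R1 p ^ 2 * G p ^ 2 / p ^ 2 := by
      rw [div_pow, mul_pow, mul_pow, sq ((-1 : ℂ) ^ m), hc, one_mul]
    rw [h6]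
    field_simp
    ring
  rw [h5] at h2
  linear_combination (VR hm).det ^ 2 * h2

end

end Pool.Agent.H140.LD
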