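import Pool.Agent.H140.LD.Hank

/-!
# Hankel determinants of the quadratic character, values
-/

set_option autoImplicit false

namespace Pool.Agent.H140.LD

open Finset Matrix Polynomial NumberField

section

variable {p : ℕ} [hpf : Fact p.Prime] {m : ℕ}

omit hpf in
lemma pair_sign (m : ℕ) : ∏ i : Fin m, ∏ _j ∈ Ioi i, (-1 : ℂ) = (-1) ^ (m * (m - 1) / 2) := by
  have h1 : ∀ i : Fin m, ∏ _j ∈ Ioi i, (-1 : ℂ) = (-1) ^ (m - 1 - (i : ℕ)) := by
    intro i
    rw [prod_const, Fin.card_Ioi]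
  simp_rw [h1]
  rw [prod_pow_eq_pow_sum, Fin.sum_univ_eq_sum_range (fun i => m - 1 - i) m,
    sum_range_reflect (fun i => i) m, sum_range_id]

/-- the products of the differences of the nodes -/
noncomputable def SS (hm : p = 2 * m + 1) : ℂ :=
  ∏ i : Fin m, ∏ j ∈ {i}ᶜ, (ps p (vr hm i) - ps p (vr hm j))

lemma SS_det (hm : p = 2 * m + 1) : SS hm = (-1) ^ (m * (m - 1) / 2) * (VR hm).det ^ 2 := by
  have h1 := prod_prod_Ioi_mul_eq_prod_prod_off_diag (fun j i : Fin m =>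
    ps p (vr hm i) - ps p (vr hm j))
  unfold SS
  rw [← h1, ← pair_sign, VR, Matrix.det_vandermonde, sq, ← prod_mul_distrib, ← prod_mul_distrib]
  refine prod_congr rfl fun i _ => ?_
  rw [← prod_mul_distrib, ← prod_mul_distrib]
  refine prod_congr rfl fun j _ => ?_
  ring

/-- the resultant -/
noncomputable def RN (p : ℕ) [Fact p.Prime] : ℂ := ∏ r ∈ Rs p, ∏ n ∈ Ns p, (ps p r - ps p n)

lemma prod_diff (r : ZMod p) :
    ∏ b : ZMod p, (if b = r then 1 else ps p r - ps p b) = p * ps p (-r) := by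
  have h1 := Equiv.prod_comp (Equiv.addRight r) (fun b => if b = r then (1 : ℂ) else ps p r - ps p b)
  rw [← h1]
  have h2 : ∀ c : ZMod p, (if (Equiv.addRight r) c = r then (1 : ℂ) else
      ps p r - ps p ((Equiv.addRight r) c)) =
      if c = 0 then 1 else ps p r * (1 - ps p c) := by
    intro c
    have e0 : (Equiv.addRight r) c = c + r := rfl
    rw [e0]
    by_cases hc : c = 0
    · rw [hc, zero_add, if_pos rfl, if_pos rfl]
    · rw [if_neg hc, if_neg (by simpa using hc), AddChar.map_add_eq_mul]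
      ring
  simp_rw [h2]
  rw [← mul_prod_erase univ _ (mem_univ (0 : ZMod p)), if_pos rfl, one_mul]
  have h3 : ∏ c ∈ univ.erase (0 : ZMod p), (if c = 0 then 1 else ps p r * (1 - ps p c)) =
      ∏ c ∈ univ.erase (0 : ZMod p), (ps p r * (1 - ps p c)) :=
    prod_congr rfl fun c hc => by rw [if_neg (mem_erase.1 hc).1]
  rw [h3, prod_mul_distrib, prod_one_sub, prod_const, card_erase_of_mem (mem_univ _), card_univ,
    ZMod.card, ps_pow, mul_comm]
  congr 2
  have : ((p - 1 : ℕ) : ZMod p) = -1 := by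
    rw [Nat.cast_sub hpf.out.one_lt.le]
    simp
  rw [this]
  ring

lemma SS_RN (hm : p = 2 * m + 1) (h3 : p ≠ 3) :
    SS hm * RN p * ((-1) ^ m * R1 p) = (p : ℂ) ^ m := by
  have h1 : ∀ i : Fin m, (∏ j ∈ {i}ᶜ, (ps p (vr hm i) - ps p (vr hm j))) *
      (∏ n ∈ Ns p, (ps p (vr hm i) - ps p n)) * (-1 * (1 - ps p (vr hm i))) =
      p * ps p (-(vr hm i)) := by
    intro i
    set r := vr hm i with hr
    have hr1 : chi p r = 1 := mem_Rs.1 (vr_mem hm i)
    rw [← prod_diff r, ← mul_prod_erase univ _ (mem_univ (0 : ZMod p)), prod_RN,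
      ← prod_vr hm]
    have e1 : (if (0 : ZMod p) = r then (1 : ℂ) else ps p r - ps p 0) = -1 * (1 - ps p r) := by
      rw [if_neg (by rintro h; rw [← h, chi_zero] at hr1; exact zero_ne_one hr1), ps_zero]
      ring
    have e2 : ∏ n ∈ Ns p, (if n = r then (1 : ℂ) else ps p r - ps p n) =
        ∏ n ∈ Ns p, (ps p r - ps p n) := by
      refine prod_congr rfl fun n hn => ?_
      rw [if_neg]
      rintro rfl
      rw [mem_Ns, hr1] at hn
      norm_num at hn
    have e3 : ∏ j, (if vr hm j = r then (1 : ℂ) else ps p r - ps p (vr hm j)) =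
        ∏ j ∈ {i}ᶜ, (ps p r - ps p (vr hm j)) := by
      rw [← prod_mul_prod_compl {i}, prod_singleton, if_pos hr.symm, one_mul]
      refine prod_congr rfl fun j hj => ?_
      rw [if_neg]
      intro h
      rw [mem_compl, mem_singleton] at hj
      exact hj (vr_inj hm h)
    rw [e1, e2, e3]
    ring
  have h2 := prod_congr (rfl : (univ : Finset (Fin m)) = univ) (fun i _ => h1 i)
  rw [prod_mul_distrib, prod_mul_distrib, prod_mul_distrib, prod_mul_distrib, prod_const,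
    prod_const, card_univ, Fintype.card_fin, prod_vr hm (fun r => ∏ n ∈ Ns p, (ps p r - ps p n)),
    prod_vr hm (fun r => 1 - ps p r), prod_vr hm (fun r => ps p (-r))] at h2
  have h5 : ∏ r ∈ Rs p, ps p (-r) = 1 := by
    simp_rw [ps_inv]
    rw [prod_inv_distrib, prod_ps_Rs hm h3, inv_one]
  rw [h5, mul_one] at h2
  exact h2

/-! ### consecutive residues -/

lemma prod_shift {d : ZMod p} (hd : d ≠ 0) :
    ∏ r ∈ Rs p, (1 - ps p (d * r)) = if chi p d = -1 then N1 p else R1 p := by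
  split_ifs with h
  · exact prod_Rs_mul' (fun a => 1 - ps p a) h
  · exact prod_Rs_mul (fun a => 1 - ps p a) ((chi_pm hd).resolve_right h)

lemma RN_eq (hm : p = 2 * m + 1) (h3 : p ≠ 3) :
    RN p = ∏ c ∈ Ns p, (if chi p (c - 1) = -1 then N1 p else R1 p) := by
  have h1 : ∀ r ∈ Rs p, ∏ n ∈ Ns p, (ps p r - ps p n) = ∏ c ∈ Ns p, (ps p r - ps p (r * c)) := by
    intro r hr
    exact (prod_Ns_mul' (fun a => ps p r - ps p a) (mem_Rs.1 hr)).symm
  unfold RN
  rw [prod_congr rfl h1, prod_comm]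
  refine prod_congr rfl fun c hc => ?_
  have h2 : ∀ r ∈ Rs p, ps p r - ps p (r * c) = ps p r * (1 - ps p ((c - 1) * r)) := by
    intro r _
    have : r * c = r + (c - 1) * r := by ring
    rw [this, AddChar.map_add_eq_mul]
    ring
  have hd : c - 1 ≠ 0 := by
    intro h
    have : c = 1 := sub_eq_zero.1 h
    rw [this, mem_Ns, map_one] at hc
    norm_num at hc
  rw [prod_congr rfl h2, prod_mul_distrib, prod_ps_Rs hm h3, one_mul, prod_shift hd]

lemma sum_shift (hm : p = 2 * m + 1) : ∑ c ∈ Ns p, chi p (c - 1) = (1 - sg p) / 2 := by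
  have h1 := sum_RN (fun c => chi p (c - 1))
  have h2 := sum_RN (fun c => chi p c * chi p (c - 1))
  have h3 : ∑ c : ZMod p, chi p (c - 1) = 0 := by
    have h5 := Equiv.sum_comp (Equiv.subRight (1 : ZMod p)) (fun c => chi p c)
    rw [MulChar.sum_eq_zero_of_ne_one (chi_ne_one (ne_two hm))] at h5
    exact h5
  have h4 : ∑ c : ZMod p, chi p c * chi p (c - 1) = -1 := by
    have h5 := jacobiSum_nontrivial_inv (chi_ne_one (p := p) (ne_two hm))
    rw [MulChar.IsQuadratic.inv chi_quad, jacobiSum] at h5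
    have h6 : ∀ c : ZMod p, chi p c * chi p (1 - c) = sg p * (chi p c * chi p (c - 1)) := by
      intro c
      have : 1 - c = -(c - 1) := by ring
      rw [this, chi_neg]
      ring
    simp_rw [h6] at h5
    rw [← mul_sum] at h5
    have h7 : sg p * ∑ c : ZMod p, chi p c * chi p (c - 1) = sg p * -1 := by
      rw [h5]; unfold sg; ring
    exact mul_left_cancel₀ sg_ne h7
  rw [h3] at h1
  rw [h4] at h2
  simp only [chi_zero, zero_mul, zero_sub] at h1 h2
  rw [sum_congr rfl (fun a ha => by rw [mem_Rs.1 ha, one_mul] :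
      ∀ a ∈ Rs p, chi p a * chi p (a - 1) = chi p (a - 1)),
    sum_congr rfl (fun a ha => by rw [mem_Ns.1 ha, neg_one_mul] :
      ∀ a ∈ Ns p, chi p a * chi p (a - 1) = -chi p (a - 1)), sum_neg_distrib] at h2
  have h8 : chi p (-1) = sg p := rfl
  rw [h8] at h1
  linear_combination (-(1 : ℂ) / 2) * h1 + (1 / 2 : ℂ) * h2

lemma RN_pow (hm : p = 2 * m + 1) (h3 : p ≠ 3) : ∃ A B : ℕ, A + B = m ∧
    (A : ℂ) - B = (1 - sg p) / 2 ∧ RN p = R1 p ^ A * N1 p ^ B := by
  refine ⟨((Ns p).filter fun c => ¬ chi p (c - 1) = -1).card,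
    ((Ns p).filter fun c => chi p (c - 1) = -1).card, ?_, ?_, ?_⟩
  · rw [add_comm, card_filter_add_card_filter_not, card_Ns hm]
  · rw [← sum_shift hm, ← sum_filter_add_sum_filter_not (Ns p) (fun c => chi p (c - 1) = -1)]
    have e1 : ∑ c ∈ (Ns p).filter (fun c => chi p (c - 1) = -1), chi p (c - 1) =
        -((((Ns p).filter fun c => chi p (c - 1) = -1).card : ℕ) : ℂ) := by
      rw [sum_congr rfl (fun c hc => (mem_filter.1 hc).2), sum_const, nsmul_eq_mul, mul_neg_one]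
    have e2 : ∑ c ∈ (Ns p).filter (fun c => ¬ chi p (c - 1) = -1), chi p (c - 1) =
        ((((Ns p).filter fun c => ¬ chi p (c - 1) = -1).card : ℕ) : ℂ) := by
      rw [sum_congr rfl (g := fun _ => (1 : ℂ)) (fun c hc => ?_), sum_const, nsmul_eq_mul, mul_one]
      rw [mem_filter, mem_Ns] at hc
      refine (chi_pm ?_).resolve_right hc.2
      intro h
      have : c = 1 := sub_eq_zero.1 h
      rw [this, map_one] at hc
      norm_num at hc
    rw [e1, e2]
    ring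
  · rw [RN_eq hm h3, prod_ite, prod_const, prod_const, mul_comm]

lemma R1_ne : R1 p ≠ 0 := by
  intro h
  have := R1_mul_N1 (p := p)
  rw [h, zero_mul] at this
  exact p_ne this.symm

/-- the square of the Vandermonde determinant, `p = 1` modulo `4` -/
theorem VR_one {u : ℕ} (hu : p = 4 * u + 1) (hm : p = 2 * (2 * u) + 1) :
    (VR hm).det ^ 2 * R1 p = chi p 2 * (p : ℂ) ^ u := by
  have h3 : p ≠ 3 := by omega
  obtain ⟨A, B, hAB, hAB2, hRN⟩ := RN_pow hm h3
  rw [sg_one (by omega), sub_self, zero_div, sub_eq_zero] at hAB2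
  have hAB3 : A = B := by exact_mod_cast hAB2
  have hB : B = u := by omega
  rw [hAB3, hB, ← mul_pow, R1_mul_N1] at hRN
  have h1 := SS_RN hm h3
  have e1 : 2 * u * (2 * u - 1) / 2 = u * (2 * u - 1) := by
    rw [mul_assoc, Nat.mul_div_cancel_left _ two_pos]
  have e2 : (-1 : ℂ) ^ (u * (2 * u - 1)) = (-1) ^ u := by
    rcases Nat.eq_zero_or_pos u with h | h
    · rw [h]
    · rw [mul_comm, pow_mul, Odd.neg_one_pow ⟨u - 1, by omega⟩]
  have e3 : (p : ℂ) ^ (2 * u) = (p : ℂ) ^ u * (p : ℂ) ^ u := by rw [two_mul, pow_add]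
  rw [hRN, SS_det, e1, e2, ← chi_two_one hu, pow_mul (-1 : ℂ), neg_one_sq, one_pow, one_mul,
    e3] at h1
  have hpu : (p : ℂ) ^ u ≠ 0 := pow_ne_zero _ p_ne
  apply mul_left_cancel₀ hpu
  have hc := chi_sq (two_ne hm)
  linear_combination chi p 2 * h1 - (p : ℂ) ^ u * (VR hm).det ^ 2 * R1 p * hc

lemma prod_neg_Rs (h4 : p % 4 = 3) (f : ZMod p → ℂ) :
    ∏ a ∈ Rs p, f (-a) = ∏ a ∈ Ns p, f a := by
  have := prod_Rs_mul' f (c := (-1 : ZMod p)) (sg_three h4)
  simpa using this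

lemma N1_three (h4 : p % 4 = 3) (h3 : p ≠ 3) (hm : p = 2 * m + 1) : N1 p = -R1 p := by
  unfold N1 R1
  rw [← prod_neg_Rs h4]
  have h1 : ∀ a ∈ Rs p, 1 - ps p (-a) = -1 * ((ps p a)⁻¹ * (1 - ps p a)) := by
    intro a _
    rw [ps_inv]
    have := ps_ne (p := p) a
    field_simp
    ring
  rw [prod_congr rfl h1, prod_mul_distrib, prod_mul_distrib, prod_inv_distrib, prod_ps_Rs hm h3,
    prod_const, card_Rs hm, Odd.neg_one_pow (by rw [Nat.odd_iff]; omega)]
  ring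

/-- the square of the Vandermonde determinant, `p = 3` modulo `4` -/
theorem VR_three {u : ℕ} (hu : p = 4 * u + 3) (h3 : p ≠ 3) (hm : p = 2 * (2 * u + 1) + 1) :
    (VR hm).det ^ 2 = (-1) ^ u * (p : ℂ) ^ u := by
  obtain ⟨A, B, hAB, hAB2, hRN⟩ := RN_pow hm h3
  rw [sg_three (by omega)] at hAB2
  have hAB3 : A = B + 1 := by
    have : (A : ℂ) = ((B + 1 : ℕ) : ℂ) := by push_cast; linear_combination hAB2
    exact_mod_cast this
  have hB : B = u := by omega
  have hN := N1_three (by omega) h3 hm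
  have hRN0 := R1_mul_N1 (p := p)
  rw [hAB3, hB, pow_succ, mul_right_comm, ← mul_pow, R1_mul_N1] at hRN
  have h1 := SS_RN hm h3
  have e1 : (2 * u + 1) * (2 * u + 1 - 1) / 2 = (2 * u + 1) * u := by
    rw [Nat.add_sub_cancel, ← mul_assoc, mul_comm (2 * u + 1) 2, mul_assoc,
      Nat.mul_div_cancel_left _ two_pos]
  have e2 : (-1 : ℂ) ^ ((2 * u + 1) * u) = (-1) ^ u := by
    rw [pow_mul, Odd.neg_one_pow ⟨u, rfl⟩]
  have e3 : (-1 : ℂ) ^ (2 * u + 1) = -1 := Odd.neg_one_pow ⟨u, rfl⟩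
  have e4 : (p : ℂ) ^ (2 * u + 1) = (p : ℂ) ^ u * (p : ℂ) ^ u * p := by
    rw [pow_succ, two_mul, pow_add]
  rw [hRN, SS_det, e1, e2, e3, e4] at h1
  rw [hN] at hRN0
  have hpu : (p : ℂ) ^ u ≠ 0 := pow_ne_zero _ p_ne
  have hp := p_ne (p := p)
  have hc : (-1 : ℂ) ^ u * (-1) ^ u = 1 := by rw [← mul_pow]; norm_num
  apply mul_left_cancel₀ (mul_ne_zero hpu hp)
  linear_combination (-1 : ℂ) ^ u * h1 + ((p : ℂ) ^ u * (VR hm).det ^ 2 * ((-1) ^ u * (-1) ^ u)) * (-hRN0) -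
    (p : ℂ) ^ u * (VR hm).det ^ 2 * p * hc

/-! ### the units -/

/-- the polynomial `∏ (1 - X^a)` over the non-residues -/
noncomputable def NPQ (p : ℕ) [Fact p.Prime] : ℚ[X] := ∏ a ∈ Ns p, (1 - X ^ a.val)

lemma NPQ_eval (n : ZMod p) : aeval (ps p n) (NPQ p) = ∏ a ∈ Ns p, (1 - ps p (a * n)) := by
  unfold NPQ
  rw [map_prod]
  refine prod_congr rfl fun a _ => ?_
  rw [map_sub, map_one, map_pow, aeval_X, ps_val]

lemma NPQ_one : aeval (ps p 1) (NPQ p) = N1 p := by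
  rw [NPQ_eval]
  unfold N1
  simp only [mul_one]

lemma NPQ_n {n : ZMod p} (hc : chi p n = -1) : aeval (ps p n) (NPQ p) = R1 p := by
  rw [NPQ_eval]
  unfold R1
  have hc0 : n ≠ 0 := by rintro rfl; rw [chi_zero] at hc; norm_num at hc
  have hci : chi p n⁻¹ = -1 := by
    have := map_mul (chi p) n n⁻¹
    rw [mul_inv_cancel₀ hc0, map_one, hc] at this
    linear_combination this
  refine prod_bij' (fun a _ => a * n) (fun a _ => a * n⁻¹) ?_ ?_ ?_ ?_ ?_
  · intro a ha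
    rw [mem_Ns] at ha
    rw [mem_Rs, map_mul, hc, ha]
    norm_num
  · intro a ha
    rw [mem_Rs] at ha
    rw [mem_Ns, map_mul, hci, ha, one_mul]
  · intro a _; exact mul_inv_cancel_right₀ hc0 a
  · intro a _; exact inv_mul_cancel_right₀ hc0 a
  · intro a _; rfl

lemma log_RN1 : Real.log ‖R1 p‖ - Real.log ‖N1 p‖ = LL p := by
  have h0 : ∀ a ∈ univ.erase (0 : ZMod p), ‖1 - ps p a‖ ≠ 0 := by
    intro a ha
    rw [mem_erase] at ha
    exact norm_ne_zero_iff.2 (one_sub_ne ha.1)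
  have hR : ∀ a ∈ Rs p, ‖1 - ps p a‖ ≠ 0 := fun a ha => h0 a (mem_filter.1 ha).1
  have hN : ∀ a ∈ Ns p, ‖1 - ps p a‖ ≠ 0 := fun a ha => h0 a (mem_filter.1 ha).1
  unfold R1 N1
  rw [norm_prod, norm_prod, Real.log_prod hR, Real.log_prod hN]
  unfold LL
  rw [← add_sum_erase univ _ (mem_univ (0 : ZMod p))]
  have e0 : ((quadraticChar (ZMod p) (0 : ZMod p) : ℤ) : ℝ) = 0 := by simp
  rw [e0, zero_mul, zero_add]
  have h1 : ∀ a ∈ Rs p, ((quadraticChar (ZMod p) a : ℤ) : ℝ) = 1 := by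
    intro a ha
    have := mem_Rs.1 ha
    rw [chi_apply] at this
    have h2 : quadraticChar (ZMod p) a = 1 := by exact_mod_cast this
    rw [h2]; simp
  have h2 : ∀ a ∈ Ns p, ((quadraticChar (ZMod p) a : ℤ) : ℝ) = -1 := by
    intro a ha
    have := mem_Ns.1 ha
    rw [chi_apply] at this
    have h2 : quadraticChar (ZMod p) a = -1 := by exact_mod_cast this
    rw [h2]; simp
  have h3 : ∑ a ∈ univ.erase (0 : ZMod p), ((quadraticChar (ZMod p) a : ℤ) : ℝ) *
      Real.log ‖1 - ZMod.stdAddChar a‖ = ∑ a ∈ Rs p, Real.log ‖1 - ps p a‖ -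
      ∑ a ∈ Ns p, Real.log ‖1 - ps p a‖ := by
    rw [← sum_filter_add_sum_filter_not (univ.erase (0 : ZMod p)) (fun c => chi p c = -1)]
    rw [← Rs_eq]
    change ∑ a ∈ Ns p, _ + _ = _
    have e1 : ∑ a ∈ Ns p, ((quadraticChar (ZMod p) a : ℤ) : ℝ) *
        Real.log ‖1 - ZMod.stdAddChar a‖ = -∑ a ∈ Ns p, Real.log ‖1 - ps p a‖ := by
      rw [← sum_neg_distrib]
      exact sum_congr rfl fun a ha => by rw [h2 a ha, neg_one_mul]; rfl
    have e2 : ∑ a ∈ Rs p, ((quadraticChar (ZMod p) a : ℤ) : ℝ) *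
        Real.log ‖1 - ZMod.stdAddChar a‖ = ∑ a ∈ Rs p, Real.log ‖1 - ps p a‖ :=
      sum_congr rfl fun a ha => by rw [h1 a ha, one_mul]; rfl
    rw [e1, e2]
    ring
  rw [h3]

/-- the values of the products in terms of the fundamental unit -/
theorem RN1_units {K : Type} [Field K] [NumberField K] {s : K} {σ : K →+* ℝ} {ε : (𝓞 K)ˣ}
    (h4 : p % 4 = 1) (hm : p = 2 * m + 1) (h : FundUnit p K s σ ε) {a b : ℚ}
    (hab : (((ε : 𝓞 K) : K)) ^ (classNumber K) = a + b * s) :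
    N1 p = b * p + a * (Real.sqrt p : ℝ) ∧ R1 p = b * p - a * (Real.sqrt p : ℝ) := by
  have hp : (0 : ℝ) < p := by exact_mod_cast hpf.out.pos
  have hsq : 0 < Real.sqrt p := Real.sqrt_pos.2 hp
  have hm1 : 1 ≤ m := by have := hpf.out.two_le; omega
  have hE : σ ((ε : 𝓞 K) : K) ^ (classNumber K) = a + b * Real.sqrt p := by
    rw [← map_pow, hab]
    simp only [map_add, map_mul, map_ratCast, sigma_s h]
  have hε0 : 0 < σ ((ε : 𝓞 K) : K) := by linarith [h.gt]
  have hE0 : 0 < σ ((ε : 𝓞 K) : K) ^ (classNumber K) := pow_pos hε0 _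
  have hcnf := cnf_real p h4 K h.quad s h.sq σ ε h.gt h.gen
  have hlog := log_RN1 (p := p)
  have hprod := congrArg (fun z : ℂ => ‖z‖) (R1_mul_N1 (p := p))
  simp only [norm_mul] at hprod
  rw [Complex.norm_natCast] at hprod
  have hne1 := R1_ne (p := p)
  have hne2 : N1 p ≠ 0 := by
    intro h
    have := R1_mul_N1 (p := p)
    rw [h, mul_zero] at this
    exact p_ne this.symm
  have hn1 : 0 < ‖R1 p‖ := norm_pos_iff.2 hne1
  have hn2 : 0 < ‖N1 p‖ := norm_pos_iff.2 hne2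
  have hl : Real.log ‖R1 p‖ + Real.log ‖N1 p‖ = Real.log p := by
    rw [← Real.log_mul hn1.ne' hn2.ne', hprod]
  have hl2 : Real.log ‖N1 p‖ = Real.log (Real.sqrt p * σ ((ε : 𝓞 K) : K) ^ (classNumber K)) := by
    rw [Real.log_mul hsq.ne' hE0.ne', Real.log_sqrt hp.le, Real.log_pow]
    linear_combination (1 / 2 : ℝ) * hl - (1 / 2 : ℝ) * hlog - (1 / 2 : ℝ) * hcnf
  have hl3 : ‖N1 p‖ = Real.sqrt p * σ ((ε : 𝓞 K) : K) ^ (classNumber K) :=
    Real.log_injOn_pos (Set.mem_Ioi.2 hn2) (Set.mem_Ioi.2 (mul_pos hsq hE0)) hl2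
  have hs2 : ((Real.sqrt p : ℝ) : ℂ) * ((Real.sqrt p : ℝ) : ℂ) = p := by
    rw [← Complex.ofReal_mul, Real.mul_self_sqrt hp.le]; simp
  have hreal : N1 p = (‖N1 p‖ : ℂ) := by
    have h5 : N1 p = ∏ a ∈ univ.erase (0 : ZMod p), (if chi p a = -1 then 1 - ps p a else 1) := by
      rw [prod_RN]
      have e1 : ∏ a ∈ Rs p, (if chi p a = -1 then 1 - ps p a else 1) = 1 := by
        apply prod_eq_one
        intro a ha
        rw [mem_Rs.1 ha, if_neg (by norm_num)]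
      rw [e1, one_mul]
      unfold N1
      exact prod_congr rfl fun a ha => by rw [if_pos (mem_Ns.1 ha)]
    rw [h5]
    apply prod_conj_pos hm
    intro a
    rw [chi_neg, sg_one h4, one_mul]
    split_ifs
    · rw [map_sub, map_one, ps_conj]
    · rw [map_one]
  have h1 : N1 p = b * p + a * (Real.sqrt p : ℝ) := by
    rw [hreal, hl3, hE]
    push_cast
    linear_combination (b : ℂ) * hs2
  refine ⟨h1, ?_⟩
  obtain ⟨n, hn, hc⟩ := exists_nonres hm hm1
  have h2 := conj_val hm (NPQ p) a (b * p) (by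
    rw [NPQ_one, h1, G_one h4]
    push_cast
    ring) hn hc
  rw [NPQ_n hc, G_one h4] at h2
  rw [h2]
  push_cast
  ring

/-- the determinants `det [χ(i + j) + x]` -/
noncomputable def HJ (p : ℕ) [Fact p.Prime] (n : ℕ) (x : ℂ) : ℂ :=
  (Matrix.of fun i j : Fin n => chi p (((i : ℕ) : ZMod p) + ((j : ℕ) : ZMod p)) + x).det

/-- the Hankel determinant, `p = 1` modulo `4` -/
theorem HJ_one {K : Type} [Field K] [NumberField K] {s : K} {σ : K →+* ℝ} {ε : (𝓞 K)ˣ}
    (h4 : p % 4 = 1) (hm : p = 2 * m + 1) (h : FundUnit p K s σ ε) {a b : ℚ}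
    (hab : (((ε : 𝓞 K) : K)) ^ (classNumber K) = a + b * s) (x : ℂ) :
    HJ p m x = chi p 2 * 2 ^ (m - 1) * ((2 * b - a) + (p * b - 2 * a) * x) := by
  obtain ⟨u, hu⟩ : ∃ u, p = 4 * u + 1 := ⟨p / 4, by omega⟩
  have hu1 : 1 ≤ u := by have := hpf.out.two_le; omega
  obtain rfl : m = 2 * u := by omega
  obtain ⟨h1, h2⟩ := RN1_units h4 hm h hab
  have h3 := hank_det hm (by omega) x
  have hV := VR_one hu hm
  have hRN := R1_mul_N1 (p := p)
  have hp := p_ne (p := p)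
  have hpu : (p : ℂ) ^ u ≠ 0 := pow_ne_zero _ hp
  have hGp : G p ^ (2 * u) = (p : ℂ) ^ u := by
    rw [pow_mul, G_sq (by omega), sg_one h4, one_mul]
  have h2u : (2 : ℂ) ^ (2 * u) = 2 * 2 ^ (2 * u - 1) := by
    rw [← pow_succ', Nat.sub_add_cancel (by omega)]
  have hs2 : ((Real.sqrt p : ℝ) : ℂ) * ((Real.sqrt p : ℝ) : ℂ) = p := by
    rw [← Complex.ofReal_mul, Real.mul_self_sqrt (Nat.cast_nonneg p)]; simp
  -- `p (det V)^2 = χ(2) p^u N1`
  have hV2 : p * (VR hm).det ^ 2 = chi p 2 * (p : ℂ) ^ u * N1 p := by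
    linear_combination N1 p * hV - (VR hm).det ^ 2 * hRN
  have h5 : (p : ℂ) * (p : ℂ) ^ u * (4 * HJ p (2 * u) x) =
      (p : ℂ) ^ u * chi p 2 * 2 ^ (2 * u) * ((2 - G p) * (1 - G p * x) * N1 p +
        (2 + G p) * (1 + G p * x) * R1 p) := by
    unfold HJ
    rw [hGp] at h3
    have h6 : (VR hm).det ^ 2 * (R1 p ^ 2 / p) * p = chi p 2 * (p : ℂ) ^ u * R1 p := by
      have : (VR hm).det ^ 2 * (R1 p ^ 2 / p) * p = (VR hm).det ^ 2 * R1 p ^ 2 := by
        field_simp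
      rw [this]
      linear_combination R1 p * hV
    linear_combination (p : ℂ) * h3 + 2 ^ (2 * u) * (2 - G p) * (1 - G p * x) * hV2 +
      2 ^ (2 * u) * (2 + G p) * (1 + G p * x) * h6
  rw [h1, h2, G_one h4, h2u] at h5
  set r : ℂ := ((Real.sqrt p : ℝ) : ℂ) with hr
  apply mul_left_cancel₀ (mul_ne_zero (mul_ne_zero hp hpu) (by norm_num : (4 : ℂ) ≠ 0))
  linear_combination h5 + ((p : ℂ) ^ u * chi p 2 * (2 * 2 ^ (2 * u - 1)) *
    (2 * b * p * x - 2 * a - 4 * a * x)) * hs2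

/-- the Hankel determinant, `p = 3` modulo `4` -/
theorem HJ_three (h4 : p % 4 = 3) (h3 : p ≠ 3) (hm : p = 2 * m + 1) (x : ℂ) :
    HJ p m x = -2 ^ (m - 1) * (1 + 2 * x) := by
  obtain ⟨u, hu⟩ : ∃ u, p = 4 * u + 3 := ⟨p / 4, by omega⟩
  obtain rfl : m = 2 * u + 1 := by omega
  have h5 := hank_det hm h3 x
  have hV := VR_three hu h3 hm
  have hRN := R1_mul_N1 (p := p)
  have hN := N1_three h4 h3 hm
  rw [hN] at hRN
  have hp := p_ne (p := p)
  have hpu : (p : ℂ) ^ u ≠ 0 := pow_ne_zero _ hp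
  have hG := G_ne (p := p) (ne_two hm)
  have hGp : G p ^ (2 * u + 1) = (-1) ^ u * (p : ℂ) ^ u * G p := by
    rw [pow_succ, pow_mul, G_sq (by omega), sg_three h4, mul_pow]
  have hR2 : R1 p ^ 2 / p = -1 := by
    rw [div_eq_iff hp]
    linear_combination -hRN
  rw [hV, hGp, hR2] at h5
  have hne : (-1 : ℂ) ^ u * (p : ℂ) ^ u * G p ≠ 0 :=
    mul_ne_zero (mul_ne_zero (pow_ne_zero _ (by norm_num)) hpu) hG
  rw [Nat.add_sub_cancel]
  apply mul_left_cancel₀ (mul_ne_zero (by norm_num : (4 : ℂ) ≠ 0) hne)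
  unfold HJ
  linear_combination h5

/-- the four parameter Hankel determinant -/
lemma four_H {n : ℕ} (hn : 1 ≤ n) (t τ : ℂ) (h : ∀ x, HJ p n x = t + τ * x) (x y z w : ℂ) :
    (Matrix.of fun j k : Fin n => x + ((legendreSym p (((j : ℕ) : ℤ) + ((k : ℕ) : ℤ)) : ℤ) : ℂ) +
      ((legendreSym p ((j : ℕ) : ℤ) : ℤ) : ℂ) * y + ((legendreSym p ((k : ℕ) : ℤ) : ℤ) : ℂ) * z +
      ((legendreSym p (((j : ℕ) : ℤ) * ((k : ℕ) : ℤ)) : ℤ) : ℂ) * w).det =
      t * ((1 + y) * (1 + z) - x * w) + τ * x := by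
  have h1 := bord_T (Matrix.of fun i j : Fin n =>
    chi p (((i : ℕ) : ZMod p) + ((j : ℕ) : ZMod p))) ⟨0, hn⟩ 1 t τ (by simp [chi_zero]) (by
      intro x
      rw [← h x]
      rfl) x y z w
  rw [one_mul, one_mul] at h1
  rw [← h1]
  congr 1
  ext j k
  simp only [Matrix.of_apply, leg_chi]
  push_cast
  rw [add_zero, zero_add, map_mul]
  ring

end

end Pool.Agent.H140.LD
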