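import Pool.Agent.H140.LD.Coef

/-!
# The quotient of the two Vandermonde determinants
-/

set_option autoImplicit false

namespace Pool.Agent.H140.LD

open Finset Matrix

section

variable {p : ℕ} [hpf : Fact p.Prime] {m : ℕ}

/-- the quotients of the differences -/
noncomputable def rh (p : ℕ) [Fact p.Prime] (a b : ZMod p) : ℂ :=
  (tt p b - tt p a) / (ps p b - ps p a)

lemma rh_symm (a b : ZMod p) : rh p a b = rh p b a := by
  unfold rh
  rw [← neg_sub (tt p a), ← neg_sub (ps p a), neg_div_neg_eq]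

lemma tt_neg (a : ZMod p) : tt p (-a) = sg p * (starRingEnd ℂ) (tt p a) := by
  unfold tt
  rw [chi_neg, map_mul, ps_conj, chi_apply]
  simp only [map_intCast]
  ring

lemma rh_neg (a b : ZMod p) : rh p (-b) (-a) = sg p * (starRingEnd ℂ) (rh p a b) := by
  unfold rh
  rw [tt_neg, tt_neg, map_div₀, map_sub, map_sub, ← ps_conj, ← ps_conj,
    ← neg_sub ((starRingEnd ℂ) (ps p b)), div_neg, ← mul_sub, mul_div_assoc, ← mul_neg, ← div_neg,
    neg_sub, ← neg_sub ((starRingEnd ℂ) (tt p b)), neg_div, ← div_neg, neg_sub]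

lemma tt_inj {a b : ZMod p} (ha : a ≠ 0) (hb : b ≠ 0) (hm : p = 2 * m + 1)
    (h : tt p a = tt p b) : a = b := by
  have h2 : ps p (2 * a) = ps p (2 * b) := by
    have h1 := congrArg (fun z => z ^ 2) h
    simp only [tt, mul_pow] at h1
    rw [chi_even ha even_two, chi_even hb even_two, one_mul, one_mul, ps_pow, ps_pow] at h1
    exact_mod_cast h1
  exact mul_left_cancel₀ (two_ne hm) (ps_inj h2)

lemma rh_ne {a b : ZMod p} (ha : a ≠ 0) (hb : b ≠ 0) (hab : a ≠ b) (hm : p = 2 * m + 1) :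
    rh p a b ≠ 0 := by
  unfold rh
  apply div_ne_zero
  · intro h
    exact hab (tt_inj hb ha hm (sub_eq_zero.1 h)).symm
  · intro h
    exact hab (ps_inj (sub_eq_zero.1 h)).symm

lemma Q0_eq : Q0 p m = ∏ i : Fin (2 * m), ∏ j ∈ Ioi i,
    rh p (((i : ℕ) + 1 : ℕ) : ZMod p) (((j : ℕ) + 1 : ℕ) : ZMod p) := by
  unfold Q0
  rw [Matrix.det_vandermonde, Matrix.det_vandermonde, ← prod_div_distrib]
  refine prod_congr rfl fun i _ => ?_
  rw [← prod_div_distrib]
  rfl

/-! ### The square -/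

lemma card_nonres (hm : p = 2 * m + 1) :
    ((univ.erase (0 : ZMod p)).filter fun c => chi p c = -1).card = m := by
  set A := (univ.erase (0 : ZMod p)).filter fun c => chi p c = -1 with hA
  set B := (univ.erase (0 : ZMod p)).filter fun c => ¬ chi p c = -1 with hB
  have h1 : A.card + B.card = 2 * m := by
    rw [hA, hB, card_filter_add_card_filter_not, card_erase_of_mem (mem_univ _), card_univ,
      ZMod.card, hm]
    rfl
  have h2 : (B.card : ℂ) = A.card := by
    have h3 : ∑ c : ZMod p, chi p c = 0 := MulChar.sum_eq_zero_of_ne_one (chi_ne_one (ne_two hm))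
    rw [← add_sum_erase univ (fun c => chi p c) (mem_univ 0), chi_zero, zero_add,
      ← sum_filter_add_sum_filter_not (univ.erase (0 : ZMod p)) (fun c => chi p c = -1)] at h3
    have h4 : ∑ c ∈ (univ.erase (0 : ZMod p)).filter (fun c => chi p c = -1), chi p c =
        -(A.card : ℂ) := by
      rw [sum_congr rfl (fun c hc => (mem_filter.1 hc).2), sum_const, nsmul_eq_mul, mul_neg_one]
    have h5 : ∑ c ∈ (univ.erase (0 : ZMod p)).filter (fun c => ¬ chi p c = -1), chi p c =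
        (B.card : ℂ) := by
      rw [sum_congr rfl (g := fun _ => (1 : ℂ)) (fun c hc => ?_), sum_const, nsmul_eq_mul, mul_one]
      rw [mem_filter, mem_erase] at hc
      exact (chi_pm hc.1.1).resolve_right hc.2
    rw [h4, h5] at h3
    linear_combination h3
  have h3 : B.card = A.card := by exact_mod_cast h2
  omega

lemma prod_one_add (hm : p = 2 * m + 1) : ∏ a ∈ univ.erase (0 : ZMod p), (1 + ps p a) = 1 := by
  have h1 := prod_one_sub (p := p)
  have h2 := prod_mul_left (two_ne hm) (fun a => 1 - ps p a)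
  rw [h1] at h2
  have h3 : ∀ a : ZMod p, 1 - ps p (2 * a) = (1 - ps p a) * (1 + ps p a) := by
    intro a
    have : ps p (2 * a) = ps p a ^ 2 := by rw [ps_pow]; simp
    rw [this]; ring
  simp_rw [h3] at h2
  rw [prod_mul_distrib, h1] at h2
  exact mul_left_cancel₀ p_ne (h2.trans (mul_one _).symm)

lemma prod_c (hm : p = 2 * m + 1) {c : ZMod p} (hc : c ≠ 0) (hc1 : c ≠ 1) :
    ∏ a ∈ univ.erase (0 : ZMod p), rh p a (c * a) = sg p * (if chi p c = -1 then (p : ℂ)⁻¹ else 1) := by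
  split_ifs with h
  · have h1 : ∀ a ∈ univ.erase (0 : ZMod p), rh p a (c * a) =
        chi p a * ((1 + ps p ((c - 1) * a)) / (1 - ps p ((c - 1) * a))) := by
      intro a ha
      rw [mem_erase] at ha
      unfold rh tt
      rw [map_mul, h]
      have h2 : ps p (c * a) = ps p ((c - 1) * a) * ps p a := by
        rw [← AddChar.map_add_eq_mul]; congr 1; ring
      rw [h2]
      have h3 := ps_ne (p := p) a
      have h4 : 1 - ps p ((c - 1) * a) ≠ 0 := by
        intro h5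
        have h6 : ps p ((c - 1) * a) = ps p 0 := by rw [ps_zero]; linear_combination -h5
        have h7 := ps_inj h6
        rcases mul_eq_zero.1 h7 with h8 | h8
        · exact hc1 (sub_eq_zero.1 h8)
        · exact ha.1 h8
      have h5 : ps p ((c - 1) * a) * ps p a - ps p a ≠ 0 := by
        intro h6
        apply h4
        apply mul_right_cancel₀ h3
        linear_combination -h6
      rw [mul_div_assoc', div_eq_div_iff h5 h4]
      ring
    rw [prod_congr rfl h1, prod_mul_distrib, prod_chi, prod_div_distrib,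
      prod_mul_left (sub_ne_zero.2 hc1) (fun a => 1 + ps p a),
      prod_mul_left (sub_ne_zero.2 hc1) (fun a => 1 - ps p a), prod_one_add hm, prod_one_sub, one_div]
  · have hc' := (chi_pm hc).resolve_right h
    have h1 : ∀ a ∈ univ.erase (0 : ZMod p), rh p a (c * a) = chi p a := by
      intro a ha
      rw [mem_erase] at ha
      unfold rh tt
      rw [map_mul, hc', one_mul, ← mul_sub]
      apply mul_div_cancel_right₀
      intro h6
      have h7 := ps_inj (sub_eq_zero.1 h6)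
      exact hc1 (mul_right_cancel₀ ha.1 (h7.trans (one_mul a).symm))
    rw [prod_congr rfl h1, prod_chi, mul_one]

lemma sg_pow_odd {k : ℕ} (hk : ¬ Even k) : sg p ^ k = sg p := chi_odd (by simp) hk

lemma Q0_sq (hm : p = 2 * m + 1) (hm1 : 1 ≤ m) : Q0 p m ^ 2 = sg p * ((p : ℂ) ^ m)⁻¹ := by
  have h1 : Q0 p m ^ 2 = ∏ i : Fin (2 * m), ∏ j ∈ {i}ᶜ,
      rh p (((i : ℕ) + 1 : ℕ) : ZMod p) (((j : ℕ) + 1 : ℕ) : ZMod p) := by
    have h2 := prod_prod_Ioi_mul_eq_prod_prod_off_diag (fun i j : Fin (2 * m) =>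
      rh p (((j : ℕ) + 1 : ℕ) : ZMod p) (((i : ℕ) + 1 : ℕ) : ZMod p))
    rw [← h2, sq, Q0_eq, ← prod_mul_distrib]
    refine prod_congr rfl fun i _ => ?_
    rw [← prod_mul_distrib]
    refine prod_congr rfl fun j _ => ?_
    rw [rh_symm (((j : ℕ) + 1 : ℕ) : ZMod p)]
  have h2 : ∀ i : Fin (2 * m), ∏ j ∈ {i}ᶜ,
      rh p (((i : ℕ) + 1 : ℕ) : ZMod p) (((j : ℕ) + 1 : ℕ) : ZMod p) =
      ∏ c ∈ (univ.erase (0 : ZMod p)).erase 1, rh p (((i : ℕ) + 1 : ℕ) : ZMod p)
        (c * (((i : ℕ) + 1 : ℕ) : ZMod p)) := by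
    intro i
    have hi := cast_succ_ne hm i
    refine prod_bij (fun j _ => (((j : ℕ) + 1 : ℕ) : ZMod p) * (((i : ℕ) + 1 : ℕ) : ZMod p)⁻¹)
      ?_ ?_ ?_ ?_
    · intro j hj
      rw [mem_compl, mem_singleton] at hj
      refine mem_erase.2 ⟨?_, mem_erase.2 ⟨mul_ne_zero (cast_succ_ne hm j) (inv_ne_zero hi),
        mem_univ _⟩⟩
      intro h
      rw [mul_inv_eq_one₀ hi] at h
      have h3 := (ZMod.natCast_eq_natCast_iff' _ _ _).1 h
      rw [Nat.mod_eq_of_lt (by omega), Nat.mod_eq_of_lt (by omega)] at h3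
      exact hj (Fin.ext (by omega))
    · intro j _ k _ h
      have h2 := mul_right_cancel₀ (inv_ne_zero hi) h
      have h3 := (ZMod.natCast_eq_natCast_iff' _ _ _).1 h2
      rw [Nat.mod_eq_of_lt (by omega), Nat.mod_eq_of_lt (by omega)] at h3
      exact Fin.ext (by omega)
    · intro c hc
      rw [mem_erase, mem_erase] at hc
      have hx : c * (((i : ℕ) + 1 : ℕ) : ZMod p) ≠ 0 := mul_ne_zero hc.2.1 hi
      have h0 : (c * (((i : ℕ) + 1 : ℕ) : ZMod p)).val ≠ 0 := fun h => hx ((ZMod.val_eq_zero _).1 h)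
      have hlt := ZMod.val_lt (c * (((i : ℕ) + 1 : ℕ) : ZMod p))
      have hcast : ((((c * (((i : ℕ) + 1 : ℕ) : ZMod p)).val - 1 + 1 : ℕ)) : ZMod p) =
          c * (((i : ℕ) + 1 : ℕ) : ZMod p) := by
        rw [Nat.sub_add_cancel (by omega)]
        exact ZMod.natCast_zmod_val _
      refine ⟨⟨(c * (((i : ℕ) + 1 : ℕ) : ZMod p)).val - 1, by omega⟩, ?_, ?_⟩
      · rw [mem_compl, mem_singleton]
        intro h
        have h3 := congrArg Fin.val h
        simp only at h3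
        rw [h3] at hcast
        have h4 : (c - 1) * (((i : ℕ) + 1 : ℕ) : ZMod p) = 0 := by
          rw [sub_mul, one_mul, ← hcast, sub_self]
        rcases mul_eq_zero.1 h4 with h5 | h5
        · exact hc.1 (sub_eq_zero.1 h5)
        · exact hi h5
      · simp only
        rw [hcast, mul_inv_cancel_right₀ hi]
    · intro j _
      rw [inv_mul_cancel_right₀ hi]
  rw [h1]
  simp_rw [h2]
  rw [prod_comm]
  have h3 : ∀ c ∈ (univ.erase (0 : ZMod p)).erase 1, ∏ i : Fin (2 * m),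
      rh p (((i : ℕ) + 1 : ℕ) : ZMod p) (c * (((i : ℕ) + 1 : ℕ) : ZMod p)) =
      sg p * (if chi p c = -1 then (p : ℂ)⁻¹ else 1) := by
    intro c hc
    rw [mem_erase, mem_erase] at hc
    rw [prod_tv hm (fun a => rh p a (c * a)), prod_c hm hc.2.1 hc.1]
  rw [prod_congr rfl h3, prod_mul_distrib, prod_const, card_erase_of_mem
    (mem_erase.2 ⟨one_ne_zero, mem_univ _⟩), card_erase_of_mem (mem_univ _), card_univ, ZMod.card,
    sg_pow_odd (by rw [Nat.not_even_iff_odd]; exact ⟨m - 1, by omega⟩)]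
  congr 1
  have h4 : ∏ c ∈ (univ.erase (0 : ZMod p)).erase 1, (if chi p c = -1 then (p : ℂ)⁻¹ else 1) =
      ∏ c ∈ (univ.erase (0 : ZMod p)), (if chi p c = -1 then (p : ℂ)⁻¹ else 1) := by
    rw [← mul_prod_erase (univ.erase (0 : ZMod p)) _ (mem_erase.2 ⟨one_ne_zero, mem_univ _⟩), map_one,
      if_neg (by norm_num), one_mul]
  rw [h4, prod_ite, prod_const_one, mul_one, prod_const, card_nonres hm, inv_pow]

/-! ### The sign -/

/-- the pairs `1 ≤ k < l ≤ 2 m` -/
def TT (m : ℕ) : Finset (ℕ × ℕ) := ((Icc 1 (2 * m)) ×ˢ (Icc 1 (2 * m))).filter fun x => x.1 < x.2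

/-- the pairs with `k + l ≤ 2 m` -/
def TL (m : ℕ) : Finset (ℕ × ℕ) := (TT m).filter fun x => x.1 + x.2 < 2 * m + 1

lemma mem_TT {x : ℕ × ℕ} : x ∈ TT m ↔ 1 ≤ x.1 ∧ x.1 < x.2 ∧ x.2 ≤ 2 * m := by
  unfold TT
  rw [mem_filter, mem_product, mem_Icc, mem_Icc]
  omega

lemma mem_TL {x : ℕ × ℕ} : x ∈ TL m ↔ 1 ≤ x.1 ∧ x.1 < x.2 ∧ x.2 ≤ 2 * m ∧ x.1 + x.2 < 2 * m + 1 := by
  unfold TL
  rw [mem_filter, mem_TT]
  omega

lemma prod_pairs (f : ℕ → ℕ → ℂ) : ∏ i : Fin (2 * m), ∏ j ∈ Ioi i, f ((i : ℕ) + 1) ((j : ℕ) + 1) =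
    ∏ x ∈ TT m, f x.1 x.2 := by
  rw [prod_sigma']
  refine prod_bij (fun y _ => ((y.1 : ℕ) + 1, (y.2 : ℕ) + 1)) ?_ ?_ ?_ ?_
  · rintro ⟨i, j⟩ h
    rw [mem_sigma, mem_Ioi] at h
    rw [mem_TT]
    have h2 : (i : ℕ) < j := h.2
    simp only
    omega
  · rintro ⟨i, j⟩ _ ⟨i', j'⟩ _ h
    simp only [Prod.mk.injEq] at h
    have h1 : i = i' := Fin.ext (by omega)
    have h2 : j = j' := Fin.ext (by omega)
    rw [h1, h2]
  · rintro ⟨k, l⟩ h
    rw [mem_TT] at h
    simp only at h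
    refine ⟨⟨⟨k - 1, by omega⟩, ⟨l - 1, by omega⟩⟩, ?_, ?_⟩
    · rw [mem_sigma, mem_Ioi]
      refine ⟨mem_univ _, ?_⟩
      rw [Fin.lt_def]
      simp only
      omega
    · simp only [Prod.mk.injEq]
      omega
  · intro _ _; rfl

lemma prod_split (f : ℕ → ℕ → ℂ) : ∏ x ∈ TT m, f x.1 x.2 =
    (∏ k ∈ Icc 1 m, f k (2 * m + 1 - k)) *
      ∏ x ∈ TL m, (f x.1 x.2 * f (2 * m + 1 - x.2) (2 * m + 1 - x.1)) := by
  rw [← prod_filter_mul_prod_filter_not (TT m) (fun x => x.1 + x.2 < 2 * m + 1),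
    ← prod_filter_mul_prod_filter_not ((TT m).filter fun x => ¬ x.1 + x.2 < 2 * m + 1)
      (fun x => x.1 + x.2 = 2 * m + 1), prod_mul_distrib]
  have h1 : ∏ x ∈ ((TT m).filter fun x => ¬ x.1 + x.2 < 2 * m + 1).filter
      (fun x => x.1 + x.2 = 2 * m + 1), f x.1 x.2 = ∏ k ∈ Icc 1 m, f k (2 * m + 1 - k) := by
    symm
    refine prod_bij (fun k _ => (k, 2 * m + 1 - k)) ?_ ?_ ?_ ?_
    · intro k hk
      rw [mem_Icc] at hk
      rw [mem_filter, mem_filter, mem_TT]
      simp only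
      omega
    · intro k _ l _ h
      simp only [Prod.mk.injEq] at h
      exact h.1
    · rintro ⟨k, l⟩ h
      rw [mem_filter, mem_filter, mem_TT] at h
      simp only at h
      refine ⟨k, mem_Icc.2 (by omega), ?_⟩
      show (k, 2 * m + 1 - k) = (k, l)
      congr 1
      omega
    · intro _ _; rfl
  have h2 : ∏ x ∈ ((TT m).filter fun x => ¬ x.1 + x.2 < 2 * m + 1).filter
      (fun x => ¬ x.1 + x.2 = 2 * m + 1), f x.1 x.2 =
      ∏ x ∈ TL m, f (2 * m + 1 - x.2) (2 * m + 1 - x.1) := by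
    symm
    refine prod_bij (fun x _ => (2 * m + 1 - x.2, 2 * m + 1 - x.1)) ?_ ?_ ?_ ?_
    · rintro ⟨k, l⟩ h
      rw [mem_TL] at h
      rw [mem_filter, mem_filter, mem_TT]
      simp only at h ⊢
      omega
    · rintro ⟨k, l⟩ h ⟨k', l'⟩ h' heq
      rw [mem_TL] at h h'
      simp only [Prod.mk.injEq] at h h' heq ⊢
      omega
    · rintro ⟨k, l⟩ h
      rw [mem_filter, mem_filter, mem_TT] at h
      simp only at h
      refine ⟨(2 * m + 1 - l, 2 * m + 1 - k), ?_, ?_⟩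
      · rw [mem_TL]
        simp only
        omega
      · simp only [Prod.mk.injEq]
        omega
    · intro _ _; rfl
  rw [h1, h2]
  unfold TL
  ring

lemma prod_sg : ∏ _x ∈ TL m, sg p = 1 := by
  refine prod_involution (fun x _ => (x.1, 2 * m + 1 - x.2)) ?_ ?_ ?_ ?_
  · intro _ _; exact sg_sq
  · rintro ⟨k, l⟩ h _ heq
    simp only [Prod.mk.injEq] at heq
    rw [mem_TL] at h
    simp only at h
    omega
  · rintro ⟨k, l⟩ h
    rw [mem_TL] at h ⊢
    simp only at h ⊢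
    omega
  · rintro ⟨k, l⟩ h
    rw [mem_TL] at h
    simp only at h
    show (k, 2 * m + 1 - (2 * m + 1 - l)) = (k, l)
    congr 1
    omega

lemma cast_sub (hm : p = 2 * m + 1) {k : ℕ} (hk : k ≤ 2 * m + 1) :
    ((2 * m + 1 - k : ℕ) : ZMod p) = -(k : ZMod p) := by
  rw [Nat.cast_sub hk, ← hm]
  simp

/-- the positive part -/
lemma Q0_pos (hm : p = 2 * m + 1) : ∃ R : ℝ, 0 < R ∧
    Q0 p m = (∏ k ∈ Icc 1 m, rh p (k : ZMod p) (-(k : ZMod p))) * (R : ℂ) := by
  refine ⟨∏ x ∈ TL m, Complex.normSq (rh p (x.1 : ZMod p) (x.2 : ZMod p)), ?_, ?_⟩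
  · apply prod_pos
    rintro ⟨k, l⟩ h
    rw [mem_TL] at h
    simp only at h ⊢
    apply Complex.normSq_pos.2
    apply rh_ne _ _ _ hm
    · rw [Ne, cast_eq_zero (by omega)]; omega
    · rw [Ne, cast_eq_zero (by omega)]; omega
    · intro h3
      have h3 := (ZMod.natCast_eq_natCast_iff' _ _ _).1 h3
      rw [Nat.mod_eq_of_lt (by omega), Nat.mod_eq_of_lt (by omega)] at h3
      omega
  · rw [Q0_eq, prod_pairs (fun k l => rh p (k : ZMod p) (l : ZMod p)),
      prod_split (fun k l => rh p (k : ZMod p) (l : ZMod p))]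
    congr 1
    · refine prod_congr rfl fun k hk => ?_
      rw [mem_Icc] at hk
      rw [cast_sub hm (by omega)]
    · have h1 : ∀ x ∈ TL m, rh p (x.1 : ZMod p) (x.2 : ZMod p) *
          rh p ((2 * m + 1 - x.2 : ℕ) : ZMod p) ((2 * m + 1 - x.1 : ℕ) : ZMod p) =
          sg p * (Complex.normSq (rh p (x.1 : ZMod p) (x.2 : ZMod p)) : ℂ) := by
        rintro ⟨k, l⟩ h
        rw [mem_TL] at h
        simp only at h ⊢
        rw [cast_sub hm (by omega), cast_sub hm (by omega), rh_neg, ← Complex.mul_conj]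
        ring
      rw [prod_congr rfl h1, prod_mul_distrib, prod_sg, one_mul]
      push_cast
      rfl

end

end Pool.Agent.H140.LD
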