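import Pool.Agent.H140.LD.Conv

/-!
# The determinants `det [χ(j - k + 1) ...]`
-/

set_option autoImplicit false

namespace Pool.Agent.H140.LD

open Finset Matrix Polynomial NumberField

section

variable {p : ℕ} [hpf : Fact p.Prime] {m : ℕ}

/-- a matrix with unit columns -/
lemma det_units' {n : ℕ} {κ : Type*} [Fintype κ] [DecidableEq κ] (M : Matrix (Fin n) (Fin n) ℂ)
    (P : Fin n → Prop) [DecidablePred P] (h : ∀ i j, P j → M i j = if i = j then 1 else 0)
    (g : κ → Fin n) (hg : Function.Injective g) (hP : ∀ i, ¬ P i ↔ ∃ a, g a = i) :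
    M.det = (Matrix.of fun i j : κ => M (g i) (g j)).det := by
  have h1 := Matrix.twoBlockTriangular_det M P (fun i hi j hj => by
    rw [h i j hj, if_neg]
    rintro rfl
    exact hi hj)
  have h2 : M.toSquareBlockProp P = 1 := by
    ext i j
    rw [Matrix.toSquareBlockProp_def, Matrix.of_apply, h _ _ j.2, Matrix.one_apply]
    simp [Subtype.ext_iff]
  rw [h2, Matrix.det_one, one_mul] at h1
  rw [h1]
  let f : κ ≃ {i : Fin n // ¬ P i} := Equiv.ofBijective (fun a => ⟨g a, (hP _).2 ⟨a, rfl⟩⟩) (by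
    constructor
    · intro a b hab
      exact hg (congrArg Subtype.val hab)
    · rintro ⟨i, hi⟩
      obtain ⟨a, ha⟩ := (hP i).1 hi
      exact ⟨a, Subtype.ext ha⟩)
  rw [← Matrix.det_submatrix_equiv_self f]
  rfl

/-- the exponents `0, 1, ..., 2 m - 1, 2 m + 2` -/
def eN (m : ℕ) : Fin (2 * m + 1) → ℕ :=
  Function.update (fun i => (i : ℕ)) (Fin.last (2 * m)) (2 * m + 2)

/-- the matrix of Fourier coefficients with first column `1` -/
noncomputable def PhiN (p m : ℕ) [Fact p.Prime] : Matrix (Fin (2 * m + 1)) (Fin (2 * m + 1)) ℂ :=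
  (PhiM p m 0 (eN m)).updateCol 0 (fun _ => 1)

lemma fourier_N (hm : p = 2 * m + 1) :
    FF p m * PhiN p m = (XX p m 0 (eN m)).updateCol 0 (fun r => if r = 0 then (p : ℂ) else 0) := by
  have h := fourier hm 0 (eN m)
  rw [mul_zero] at h
  ext r j
  by_cases hj : j = 0
  · subst hj
    rw [Matrix.mul_apply]
    simp only [PhiN, Matrix.updateCol_self, FF, Matrix.vandermonde_apply]
    rw [colD hm]
    by_cases hr : r = 0
    · subst hr; simp
    · rw [if_neg (fin_ne_zero hm hr), if_neg hr]
  · rw [Matrix.updateCol_ne hj, ← h, Matrix.mul_apply, Matrix.mul_apply]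
    refine sum_congr rfl fun i _ => ?_
    rw [PhiN, Matrix.updateCol_ne hj]

lemma det_XN (hm : p = 2 * m + 1) (hm1 : 1 ≤ m) :
    ((XX p m 0 (eN m)).updateCol 0 (fun r => if r = 0 then (p : ℂ) else 0)).det =
      p * (sg p * ((G p ^ 2 - 1) / 2 * (Matrix.vandermonde (tv p m)).det)) := by
  rw [Matrix.det_succ_column_zero, Finset.sum_eq_single 0]
  · rw [Matrix.updateCol_self, if_pos rfl]
    simp only [Fin.val_zero, pow_zero, one_mul]
    congr 1
    obtain ⟨k, rfl⟩ : ∃ k, m = k + 1 := ⟨m - 1, by omega⟩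
    set l : Fin (2 * (k + 1)) := ⟨2 * k + 1, by omega⟩ with hl
    have h1 : (((XX p (k + 1) 0 (eN (k + 1))).updateCol 0
        (fun r => if r = 0 then (p : ℂ) else 0)).submatrix (Fin.succAbove 0) Fin.succ) =
        Matrix.of fun r j => tv p (k + 1) r * GV (tv p (k + 1))
          (Function.update (fun i : Fin (2 * (k + 1)) => (i : ℕ)) l (2 * (k + 1) + 1)) r j := by
      ext r j
      rw [Matrix.submatrix_apply, Matrix.updateCol_ne (Fin.succ_ne_zero j)]
      simp only [Fin.zero_succAbove, XX, Matrix.of_apply, GV]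
      rw [if_neg (Fin.succ_ne_zero r), ← pow_succ']
      have h2 : tt p ((((Fin.succ r : Fin (2 * (k + 1) + 1)) : ℕ)) : ZMod p) = tv p (k + 1) r := by
        rw [tv, Fin.val_succ]
      rw [h2]
      congr 1
      by_cases hj : j = l
      · subst hj
        rw [Function.update_self]
        have h3 : (Fin.succ l : Fin (2 * (k + 1) + 1)) = Fin.last (2 * (k + 1)) :=
          Fin.ext (by simp [hl]; ring)
        rw [h3, eN, Function.update_self]
      · rw [Function.update_of_ne hj, eN, Function.update_of_ne]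
        · simp
        · intro h3
          apply hj
          have := congrArg Fin.val h3
          simp only [Fin.val_succ, Fin.val_last] at this
          exact Fin.ext (by simp only [hl]; omega)
    rw [h1, Matrix.det_mul_column, prod_tt hm, det_repl_two _ (by omega)]
    congr 2
    have e1 : (PR univ (tv p (k + 1))).coeff (2 * k + 1) = -G p := by
      rw [PR_coeff_sub_one _ _ _ (by simp; ring), sum_tt hm]
    have e2 : (PR univ (tv p (k + 1))).coeff (2 * k) = (G p ^ 2 + 1) / 2 := by
      rw [PR_coeff_sub_two _ _ _ (by simp; ring), sum_tt hm, sum_tt_sq hm]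
      ring
    simp only [hl]
    rw [coeff_X_mul, e2, show 2 * (k + 1) - 1 = 2 * k + 1 by omega, e1]
    ring
  · intro r _ hr
    rw [Matrix.updateCol_self, if_neg hr]
    ring
  · intro h; exact absurd (mem_univ _) h

lemma det_PhiN (hm : p = 2 * m + 1) (hm1 : 1 ≤ m) :
    (PhiN p m).det = sg p * ((G p ^ 2 - 1) / 2) * Q0 p m := by
  have h1 := congrArg Matrix.det (fourier_N hm)
  rw [Matrix.det_mul, det_XN hm hm1] at h1
  have h4 := det_V hm
  apply mul_left_cancel₀ (FF_ne hm)
  linear_combination h1 + (sg p * ((G p ^ 2 - 1) / 2)) * h4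

/-- the cyclic permutation of `0, 1, 2 m` -/
def cyc (m : ℕ) (hm1 : 1 ≤ m) : Equiv.Perm (Fin (2 * m + 1)) :=
  Equiv.swap 0 (i1 hm1) * Equiv.swap (i1 hm1) (Fin.last (2 * m))

lemma i1_ne_zero (hm1 : 1 ≤ m) : i1 hm1 ≠ 0 := by
  intro h
  have := congrArg Fin.val h
  simp [i1] at this

lemma i1_ne_last (hm1 : 1 ≤ m) : i1 hm1 ≠ Fin.last (2 * m) := by
  intro h
  have := congrArg Fin.val h
  simp [i1] at this
  omega

lemma last_ne_zero (hm1 : 1 ≤ m) : Fin.last (2 * m) ≠ 0 := by
  intro h
  have := congrArg Fin.val h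
  simp at this
  omega

lemma cyc_zero (hm1 : 1 ≤ m) : cyc m hm1 0 = i1 hm1 := by
  rw [cyc, Equiv.Perm.mul_apply, Equiv.swap_apply_of_ne_of_ne (i1_ne_zero hm1).symm
    (last_ne_zero hm1).symm, Equiv.swap_apply_left]

lemma cyc_one (hm1 : 1 ≤ m) : cyc m hm1 (i1 hm1) = Fin.last (2 * m) := by
  rw [cyc, Equiv.Perm.mul_apply, Equiv.swap_apply_left,
    Equiv.swap_apply_of_ne_of_ne (last_ne_zero hm1) (i1_ne_last hm1).symm]

lemma cyc_last (hm1 : 1 ≤ m) : cyc m hm1 (Fin.last (2 * m)) = 0 := by
  rw [cyc, Equiv.Perm.mul_apply, Equiv.swap_apply_right, Equiv.swap_apply_right]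

lemma cyc_of_ne (hm1 : 1 ≤ m) {j : Fin (2 * m + 1)} (h0 : j ≠ 0) (h1 : j ≠ i1 hm1)
    (h2 : j ≠ Fin.last (2 * m)) : cyc m hm1 j = j := by
  rw [cyc, Equiv.Perm.mul_apply, Equiv.swap_apply_of_ne_of_ne h1 h2,
    Equiv.swap_apply_of_ne_of_ne h0 h1]

lemma cyc_sign (hm1 : 1 ≤ m) : Equiv.Perm.sign (cyc m hm1) = 1 := by
  rw [cyc, Equiv.Perm.sign_mul, Equiv.Perm.sign_swap (i1_ne_zero hm1).symm,
    Equiv.Perm.sign_swap (i1_ne_last hm1)]
  norm_num

/-- the index map -/
def gN (m : ℕ) : Fin m ⊕ Unit → Fin (2 * m + 1) :=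
  Sum.elim (fun i => if (i : ℕ) = 0 then 0 else ⟨2 * (i : ℕ) + 1, by omega⟩)
    (fun _ => Fin.last (2 * m))

lemma gN_inl (i : Fin m) : ((gN m (Sum.inl i) : Fin (2 * m + 1)) : ℕ) =
    if (i : ℕ) = 0 then 0 else 2 * (i : ℕ) + 1 := by
  simp only [gN, Sum.elim_inl]
  split_ifs <;> rfl

lemma gN_inr (i : Unit) : gN m (Sum.inr i) = Fin.last (2 * m) := rfl

lemma gN_inj (hm1 : 1 ≤ m) : Function.Injective (gN m) := by
  intro a b h
  have h' := congrArg Fin.val h
  rcases a with a | a <;> rcases b with b | b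
  · rw [gN_inl, gN_inl] at h'
    congr 1
    apply Fin.ext
    split_ifs at h' <;> omega
  · rw [gN_inl, gN_inr, Fin.val_last] at h'
    have := a.2
    split_ifs at h' <;> omega
  · rw [gN_inl, gN_inr, Fin.val_last] at h'
    have := b.2
    split_ifs at h' <;> omega
  · rfl

lemma cyc_gN (hm1 : 1 ≤ m) (j : Fin m) : cyc m hm1 (gN m (Sum.inl j)) = g1 m j := by
  by_cases hj : (j : ℕ) = 0
  · have h : gN m (Sum.inl j) = 0 := Fin.ext (by rw [gN_inl, if_pos hj]; rfl)
    rw [h, cyc_zero]
    exact Fin.ext (by simp only [i1, g1]; omega)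
  · have h : gN m (Sum.inl j) = g1 m j := Fin.ext (by rw [gN_inl, if_neg hj]; rfl)
    rw [h, cyc_of_ne]
    · intro h'
      have := congrArg Fin.val h'
      simp [g1] at this
    · intro h'
      have := congrArg Fin.val h'
      simp only [g1, i1] at this
      omega
    · intro h'
      have := congrArg Fin.val h'
      simp only [g1, Fin.val_last] at this
      omega

lemma gN_cast (hm : p = 2 * m + 1) (i : Fin m) :
    (((gN m (Sum.inl i) : Fin (2 * m + 1)) : ℕ) : ZMod p) =
      2 * (if (i : ℕ) = 0 then (m : ZMod p) else ((i : ℕ) : ZMod p)) + 1 := by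
  rw [gN_inl]
  split_ifs with h
  · have h4 : ((2 * m + 1 : ℕ) : ZMod p) = 0 := by rw [← hm]; simp
    push_cast at h4 ⊢
    exact h4.symm
  · push_cast
    rfl

/-- `det (A' - χ(-1) 1 dᵀ)` -/
theorem det_nat (hm : p = 2 * m + 1) (hm1 : 1 ≤ m) :
    (kap p * chi p 2) ^ m * (Matrix.of fun i j : Fin m =>
      chi p ((if (i : ℕ) = 0 then (m : ZMod p) else ((i : ℕ) : ZMod p)) - (j : ℕ)) -
        sg p * chi p ((j : ℕ) + 1)).det = sg p * ((G p ^ 2 - 1) / 2) * Q0 p m := by
  rw [← det_PhiN hm hm1]
  have h0 : ((PhiN p m).submatrix id (cyc m hm1)).det = (PhiN p m).det := by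
    rw [Matrix.det_permute', cyc_sign]
    simp
  have hN0 : ∀ i, PhiN p m i 0 = 1 := fun i => by rw [PhiN, Matrix.updateCol_self]
  have hodd : ∀ i (j : Fin m), PhiN p m i (g1 m j) =
      kap p * chi p ((i : ℕ) - (2 * ((j : ℕ) : ZMod p) + 1)) := by
    intro i j
    have e1 : g1 m j ≠ 0 := by
      intro h'
      have := congrArg Fin.val h'
      simp [g1] at this
    have e2 : g1 m j ≠ Fin.last (2 * m) := by
      intro h'
      have := congrArg Fin.val h'
      simp only [g1, Fin.val_last] at this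
      omega
    rw [PhiN, Matrix.updateCol_ne e1]
    simp only [PhiM, Matrix.of_apply]
    rw [eN, Function.update_of_ne e2, if_neg ((g1_range _).2 ⟨j, rfl⟩), add_zero]
    simp only [g1]
    push_cast
    rfl
  rw [← h0, det_units' ((PhiN p m).submatrix id (cyc m hm1))
    (fun j => j = i1 hm1 ∨ (Even (j : ℕ) ∧ j ≠ 0 ∧ j ≠ Fin.last (2 * m))) ?_ (gN m) (gN_inj hm1) ?_]
  · -- the blocks
    have h2 := two_ne hm
    have h3 : (Matrix.of fun i j : Fin m ⊕ Unit =>
        ((PhiN p m).submatrix id (cyc m hm1)) (gN m i) (gN m j)) =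
        Matrix.fromBlocks ((kap p * chi p 2) • Matrix.of fun i j : Fin m =>
          chi p ((if (i : ℕ) = 0 then (m : ZMod p) else ((i : ℕ) : ZMod p)) - (j : ℕ)))
          (Matrix.replicateCol Unit 1)
          (Matrix.replicateRow Unit fun j : Fin m =>
            kap p * chi p 2 * (sg p * chi p ((j : ℕ) + 1))) 1 := by
      ext i j
      rw [Matrix.of_apply, Matrix.submatrix_apply, id]
      rcases j with j | j
      · rw [cyc_gN, hodd]
        rcases i with i | i
        · rw [Matrix.fromBlocks_apply₁₁, Matrix.smul_apply, Matrix.of_apply, gN_cast hm,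
            smul_eq_mul, mul_assoc, ← map_mul]
          congr 2
          ring
        · rw [Matrix.fromBlocks_apply₂₁, Matrix.replicateRow_apply, gN_inr, Fin.val_last,
            ← chi_neg, mul_assoc, ← map_mul]
          congr 2
          have h4 : ((2 * m + 1 : ℕ) : ZMod p) = 0 := by rw [← hm]; simp
          push_cast at h4 ⊢
          linear_combination h4
      · have : cyc m hm1 (gN m (Sum.inr j)) = 0 := by rw [gN_inr, cyc_last]
        rw [this, hN0]
        rcases i with i | i
        · rw [Matrix.fromBlocks_apply₁₂, Matrix.replicateCol_apply]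
          rfl
        · rw [Matrix.fromBlocks_apply₂₂, Matrix.one_apply, if_pos rfl]
    rw [h3, Matrix.det_fromBlocks_one₂₂]
    have h6 := Matrix.det_smul (Matrix.of fun i j : Fin m =>
      chi p ((if (i : ℕ) = 0 then (m : ZMod p) else ((i : ℕ) : ZMod p)) - (j : ℕ)) -
        sg p * chi p ((j : ℕ) + 1)) (kap p * chi p 2)
    rw [Fintype.card_fin] at h6
    rw [← h6]
    congr 1
    ext i j
    simp [Matrix.mul_apply]
    ring
  · -- unit columns
    intro i j hj
    rw [Matrix.submatrix_apply, id]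
    rcases hj with hj | ⟨hj1, hj2, hj3⟩
    · subst hj
      rw [cyc_one, PhiN, Matrix.updateCol_ne (last_ne_zero hm1)]
      simp only [PhiM, Matrix.of_apply]
      rw [eN, Function.update_self, if_pos ⟨m + 1, by ring⟩]
      have h4 : ((2 * m + 2 : ℕ) : ZMod p) = (((i1 hm1 : Fin (2 * m + 1)) : ℕ) : ZMod p) := by
        have h4 : ((2 * m + 1 : ℕ) : ZMod p) = 0 := by rw [← hm]; simp
        simp only [i1]
        push_cast at h4 ⊢
        linear_combination h4
      rw [h4]
      simp only [cast_inj hm]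
    · have hj4 : j ≠ i1 hm1 := by
        rintro rfl
        simp only [i1] at hj1
        rw [Nat.even_iff] at hj1
        omega
      rw [cyc_of_ne hm1 hj2 hj4 hj3, PhiN, Matrix.updateCol_ne hj2]
      simp only [PhiM, Matrix.of_apply]
      rw [eN, Function.update_of_ne hj3, if_pos hj1]
      simp only [cast_inj hm]
  · -- the range
    intro i
    constructor
    · intro h
      push Not at h
      obtain ⟨h1, h2⟩ := h
      by_cases hl : i = Fin.last (2 * m)
      · exact ⟨Sum.inr (), by rw [gN_inr, hl]⟩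
      by_cases h0 : i = 0
      · refine ⟨Sum.inl ⟨0, by omega⟩, Fin.ext ?_⟩
        rw [gN_inl, if_pos rfl, h0]
        rfl
      · have hodd : ¬ Even (i : ℕ) := fun he => hl (h2 he h0)
        rw [Nat.not_even_iff_odd] at hodd
        obtain ⟨k, hk⟩ := hodd
        have hk0 : k ≠ 0 := by
          rintro rfl
          exact h1 (Fin.ext (by simp only [i1]; omega))
        refine ⟨Sum.inl ⟨k, by omega⟩, Fin.ext ?_⟩
        rw [gN_inl, if_neg (by simpa using hk0)]
        exact hk.symm
    · rintro ⟨a, rfl⟩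
      rcases a with a | a
      · push Not
        have h := gN_inl (m := m) a
        constructor
        · intro h'
          have := congrArg Fin.val h'
          rw [h] at this
          simp only [i1] at this
          split_ifs at this <;> omega
        · intro he h0
          exfalso
          rw [h] at he
          split_ifs at he h with h3
          · exact h0 (Fin.ext (by rw [h]; rfl))
          · rw [Nat.even_iff] at he
            omega
      · push Not
        rw [gN_inr]
        exact ⟨(i1_ne_last hm1).symm, fun _ _ => rfl⟩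

end

end Pool.Agent.H140.LD
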