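import Pool.Agent.H140.LD.Shift
import Pool.Agent.Q263.CN.Main
import Pool.Agent.Q267.CN.One

/-!
# The determinants `det [χ(j - k + 1) ...]`, values
-/

set_option autoImplicit false

namespace Pool.Agent.H140.LD

open Finset Matrix NumberField

section

variable {p : ℕ} [hpf : Fact p.Prime] {m : ℕ}

/-- the rotated indices `m, 1, 2, ..., m - 1` -/
def cz (p : ℕ) {m : ℕ} (i : Fin m) : ZMod p := if (i : ℕ) = 0 then (m : ZMod p) else ((i : ℕ) : ZMod p)

/-- rotation of the rows -/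
lemma rot (hm1 : 1 ≤ m) (B : ZMod p → Fin m → ℂ) :
    (Matrix.of fun i j : Fin m => B (((i : ℕ) : ZMod p) + 1) j).det =
      (-1) ^ (m - 1) * (Matrix.of fun i j : Fin m => B (cz p i) j).det := by
  obtain ⟨k, rfl⟩ : ∃ k, m = k + 1 := ⟨m - 1, by omega⟩
  have h := Matrix.det_permute (finRotate (k + 1))
    (Matrix.of fun i j : Fin (k + 1) => B (cz p i) j)
  rw [sign_finRotate] at h
  have e : (Matrix.of fun i j : Fin (k + 1) => B (((i : ℕ) : ZMod p) + 1) j) =
      (Matrix.of fun i j : Fin (k + 1) => B (cz p i) j).submatrix (finRotate (k + 1)) id := by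
    ext i j
    rw [Matrix.submatrix_apply, Matrix.of_apply, Matrix.of_apply, id]
    congr 1
    have h1 := coe_finRotate i
    unfold cz
    rw [h1]
    by_cases hi : i = Fin.last k
    · rw [if_pos hi, if_pos rfl, hi]
      simp
    · rw [if_neg hi, if_neg (by omega)]
      simp
  rw [e, h]
  congr 1
  push_cast
  rfl

/-- `det [χ(c_i - j) + x]` -/
noncomputable def AR (p : ℕ) [Fact p.Prime] (m : ℕ) (x : ℂ) : ℂ :=
  (Matrix.of fun i j : Fin m => chi p (cz p i - ((j : ℕ) : ZMod p)) + x).det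

lemma AR_scale (hm : p = 2 * m + 1) (x : ℂ) :
    (Matrix.of fun i j : Fin m =>
      chi p 2 * chi p ((i : ℕ) - (if (j : ℕ) = 0 then (m : ZMod p) else ((j : ℕ) : ZMod p))) +
        x).det = (sg p * chi p 2) ^ m * AR p m (sg p * chi p 2 * x) := by
  rw [← Matrix.det_transpose]
  have h : (Matrix.of fun i j : Fin m =>
      chi p 2 * chi p ((i : ℕ) - (if (j : ℕ) = 0 then (m : ZMod p) else ((j : ℕ) : ZMod p))) +
        x)ᵀ = (sg p * chi p 2) • (Matrix.of fun i j : Fin m =>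
          chi p (cz p i - ((j : ℕ) : ZMod p)) + sg p * chi p 2 * x) := by
    ext i j
    rw [Matrix.transpose_apply, Matrix.of_apply, Matrix.smul_apply, Matrix.of_apply, smul_eq_mul]
    have h1 : chi p (((j : ℕ) : ZMod p) - cz p i) = sg p * chi p (cz p i - ((j : ℕ) : ZMod p)) := by
      rw [← chi_neg]; congr 1; ring
    change chi p 2 * chi p (((j : ℕ) : ZMod p) - cz p i) + x = _
    rw [h1]
    linear_combination -x * (chi_sq (two_ne hm)) - x * chi p 2 * chi p 2 * sg_sq (p := p)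
  rw [h, Matrix.det_smul, Fintype.card_fin]
  rfl

omit hpf in
lemma sqrt_sq' : ((Real.sqrt p : ℝ) : ℂ) * ((Real.sqrt p : ℝ) : ℂ) = p := by
  rw [← Complex.ofReal_mul, Real.mul_self_sqrt (Nat.cast_nonneg p)]; simp

theorem AR_one {K : Type} [Field K] [NumberField K] {s : K} {σ : K →+* ℝ} {ε : (𝓞 K)ˣ}
    (h4 : p % 4 = 1) (hm : p = 2 * m + 1) (h : FundUnit p K s σ ε) {a b : ℚ}
    (hab : (((ε : 𝓞 K) : K)) ^ ((2 - legendreSym p 2).toNat * classNumber K) = a + b * s) (x : ℂ) :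
    AR p m x = -(chi p 2 * (b - a)) - (p * b - a) * x := by
  obtain ⟨u, hu⟩ : ∃ u, p = 4 * u + 1 := ⟨p / 4, by omega⟩
  have hu1 : 1 ≤ u := by have := hpf.out.two_le; omega
  obtain rfl : m = 2 * u := by omega
  obtain ⟨h1, h2⟩ := Pc_units h4 hm h hab
  have h3 := shift_m hm (by omega) (chi p 2 * x)
  have hc := chi_sq (two_ne hm)
  rw [AR_scale hm, sg_one h4, one_mul, ← mul_assoc (chi p 2) (chi p 2) x, hc, one_mul,
    kap_one hu, Q0_one hu, h1, h2, G_one h4, pow_mul, sq (chi p 2), hc, one_pow, one_mul] at h3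
  have hp := p_ne (p := p)
  have hpu : (p : ℂ) ^ u ≠ 0 := pow_ne_zero _ hp
  have hs2 := sqrt_sq' (p := p)
  apply mul_left_cancel₀ hp
  apply mul_left_cancel₀ (inv_ne_zero hpu)
  set r : ℂ := ((Real.sqrt p : ℝ) : ℂ) with hr
  linear_combination h3 + (((p : ℂ) ^ u)⁻¹ * (chi p 2 * a - chi p 2 * chi p 2 * x * (p * b - a))) *
    hs2 - (((p : ℂ) ^ u)⁻¹ * p * (p * b - a) * x) * hc

theorem AR_three (h4 : p % 4 = 3) (hm : p = 2 * m + 1) (x : ℂ) : AR p m x = -chi p 2 + x := by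
  obtain ⟨u, hu⟩ : ∃ u, p = 4 * u + 3 := ⟨p / 4, by omega⟩
  obtain rfl : m = 2 * u + 1 := by omega
  have h3 := shift_m hm (by omega) (-(chi p 2) * x)
  have hc := chi_sq (two_ne hm)
  have hq := Q0_three hu
  have hp := p_ne (p := p)
  have hpu : (p : ℂ) ^ u ≠ 0 := pow_ne_zero _ hp
  have hG := G_ne (p := p) (ne_two hm)
  have hodd : ¬ Even (2 * u + 1) := by rw [Nat.not_even_iff_odd]; exact ⟨u, rfl⟩
  have hk : kap p = -G p / p := by
    unfold kap; rw [sg_three h4]; ring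
  have h2 := chi_two_three hu
  have e1 : -1 * chi p 2 * (-(chi p 2) * x) = x := by linear_combination x * hc
  have e2 : (-1 * chi p 2) ^ (2 * u + 1) = -chi p 2 := by
    rw [neg_one_mul, Odd.neg_pow ⟨u, rfl⟩, chi_odd (two_ne hm) hodd]
  rw [AR_scale hm, sg_three h4, e1, e2, pow_succ (kap p), kap_three hu, Pc_three hm h4, hk] at h3
  set Q := Q0 p (2 * u + 1) with hQ
  set P := Pc p (2 * u + 1) (-1) with hP
  set A := AR p (2 * u + 1) x with hA
  have h5 : p * (((-1) ^ u * ((p : ℂ) ^ u)⁻¹ * (-G p / p)) * (-chi p 2 * A)) =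
      -(Q * P) * (-G p + G p * chi p 2 * x) := by
    linear_combination h3
  rw [hq] at h5
  have h6 : p * (((-1) ^ u * ((p : ℂ) ^ u)⁻¹ * (-G p / p)) * (-chi p 2 * A)) =
      -((-1) ^ (u + 1) * chi p 2) * ((p : ℂ) ^ u)⁻¹ * G p * A := by
    field_simp
    ring
  rw [h6, ← h2, hc] at h5
  apply mul_left_cancel₀ (mul_ne_zero (inv_ne_zero hpu) hG)
  linear_combination -h5 + ((p : ℂ) ^ u)⁻¹ * G p * x * hc

/-- `det [χ(c_i - j) - χ(-1) χ(j + 1)]` -/
noncomputable def BR (p : ℕ) [Fact p.Prime] (m : ℕ) : ℂ :=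
  (Matrix.of fun i j : Fin m => chi p (cz p i - ((j : ℕ) : ZMod p)) -
    sg p * chi p (((j : ℕ) : ZMod p) + 1)).det

lemma det_nat' (hm : p = 2 * m + 1) (hm1 : 1 ≤ m) :
    (kap p * chi p 2) ^ m * BR p m = sg p * ((G p ^ 2 - 1) / 2) * Q0 p m :=
  det_nat hm hm1

theorem BR_one (h4 : p % 4 = 1) (hm : p = 2 * m + 1) : BR p m = chi p 2 * ((p - 1) / 2) := by
  obtain ⟨u, hu⟩ : ∃ u, p = 4 * u + 1 := ⟨p / 4, by omega⟩
  have hu1 : 1 ≤ u := by have := hpf.out.two_le; omega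
  obtain rfl : m = 2 * u := by omega
  have h3 := det_nat' hm (by omega)
  have hc := chi_sq (two_ne hm)
  rw [mul_pow, kap_one hu, pow_mul (chi p 2), sq (chi p 2), hc, one_pow, mul_one, Q0_one hu,
    G_sq (ne_two hm), sg_one h4] at h3
  have hp := p_ne (p := p)
  have hpu : (p : ℂ) ^ u ≠ 0 := pow_ne_zero _ hp
  apply mul_left_cancel₀ (inv_ne_zero hpu)
  linear_combination h3

theorem BR_three (h4 : p % 4 = 3) (hm : p = 2 * m + 1) :
    BR p m = chi p ((m.factorial : ℕ) : ZMod p) * ((p + 1) / 2) := by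
  obtain ⟨u, hu⟩ : ∃ u, p = 4 * u + 3 := ⟨p / 4, by omega⟩
  obtain rfl : m = 2 * u + 1 := by omega
  have h3 := det_nat' hm (by omega)
  have hc := chi_sq (two_ne hm)
  have hq := Q0_three hu
  have hp := p_ne (p := p)
  have hpu : (p : ℂ) ^ u ≠ 0 := pow_ne_zero _ hp
  have hG0 := G_ne (p := p) (ne_two hm)
  have hG := G_sq (p := p) (ne_two hm)
  have hodd : ¬ Even (2 * u + 1) := by rw [Nat.not_even_iff_odd]; exact ⟨u, rfl⟩
  have hk : kap p = -G p / p := by
    unfold kap; rw [sg_three h4]; ring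
  have h2 := chi_two_three hu
  have hv := Pc_val_three hu
  have hG3 := G_three h4
  have hff : chi p (((2 * u + 1).factorial : ℕ) : ZMod p) *
      chi p (((2 * u + 1).factorial : ℕ) : ZMod p) = 1 := chi_sq (fact_ne hm)
  rw [sg_three h4] at hG
  rw [mul_pow, pow_succ (kap p), kap_three hu, chi_odd (two_ne hm) hodd, hk, sg_three h4, hG] at h3
  set Q := Q0 p (2 * u + 1) with hQ
  set P := Pc p (2 * u + 1) (-1) with hP
  set B := BR p (2 * u + 1) with hB
  set f := chi p (((2 * u + 1).factorial : ℕ) : ZMod p) with hf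
  have hPG : P = f * (-1) ^ u * G p := by rw [hv, hG3]; ring
  have h5 : (-1 : ℂ) ^ u = -chi p 2 := by rw [h2, pow_succ]; ring
  rw [h5] at h3 hPG
  -- multiply by `P`
  have h6 : ((p : ℂ) ^ u)⁻¹ * G p / p * B * P = (p + 1) / 2 * (Q * P) := by
    linear_combination P * h3 - ((p : ℂ) ^ u)⁻¹ * G p / p * B * P * hc
  rw [hq, hPG] at h6
  have h7 : ((p : ℂ) ^ u)⁻¹ * G p / p * B * (f * -chi p 2 * G p) =
      ((p : ℂ) ^ u)⁻¹ * chi p 2 * (f * B) * (-(G p ^ 2) / p) := by
    field_simp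
  rw [h7, hG] at h6
  have h8 : -(-1 * (p : ℂ)) / p = 1 := by field_simp
  rw [h8] at h6
  apply mul_left_cancel₀ (mul_ne_zero (inv_ne_zero hpu) (chi_ne (two_ne hm)))
  linear_combination f * h6 - ((p : ℂ) ^ u)⁻¹ * chi p 2 * B * hff

/-! ### the four parameter determinants -/

/-- the general formula -/
lemma shift_four (hm1 : 1 ≤ m) (t τ β : ℂ) (h1 : ∀ x, AR p m x = (-1) ^ (m - 1) * (t + τ * x))
    (h2 : BR p m = (-1) ^ (m - 1) * β) (x y z w : ℂ) :
    (Matrix.of fun i j : Fin m => x + chi p (((i : ℕ) : ZMod p) + 1 - ((j : ℕ) : ZMod p)) +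
      chi p (((i : ℕ) : ZMod p) + 1) * y + chi p (((j : ℕ) : ZMod p) + 1) * z +
      chi p (((i : ℕ) : ZMod p) + 1) * chi p (((j : ℕ) : ZMod p) + 1) * w).det =
      (1 + y + w) * t + (x + x * w - y * z) * τ + (z + y * z - x * w) * (sg p * (t - β)) := by
  set A : Matrix (Fin m) (Fin m) ℂ := Matrix.of fun i j : Fin m =>
    chi p (((i : ℕ) : ZMod p) + 1 - ((j : ℕ) : ZMod p)) with hA
  have hpm : (-1 : ℂ) ^ (m - 1) * (-1) ^ (m - 1) = 1 := by rw [← mul_pow]; norm_num
  have hAx : ∀ x, (Matrix.of fun i j : Fin m =>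
      chi p (((i : ℕ) : ZMod p) + 1 - ((j : ℕ) : ZMod p)) + x).det = t + τ * x := by
    intro x
    rw [rot hm1 (fun c j => chi p (c - ((j : ℕ) : ZMod p)) + x)]
    have := h1 x
    unfold AR at this
    rw [this, ← mul_assoc, hpm, one_mul]
  have hA0 : A.det = t := by
    have := hAx 0
    rw [mul_zero, add_zero] at this
    rw [← this]
    congr 1
    ext i j
    simp [hA]
  have hA1 : (A + RO 1 1).det = A.det + τ := by
    have := hAx 1
    rw [mul_one, ← hA0] at this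
    rw [← this]
    congr 1
    ext i j
    simp [RO, hA]
  set d : Fin m → ℂ := fun j => chi p (((j : ℕ) : ZMod p) + 1) with hd
  obtain ⟨L, hL⟩ := det_rank_one A 1
  have hB : (A + RO 1 ((-sg p) • d)).det = β := by
    have := rot hm1 (fun c j => chi p (c - ((j : ℕ) : ZMod p)) -
      sg p * chi p (((j : ℕ) : ZMod p) + 1)) (p := p)
    have h3 := h2
    unfold BR at h3
    rw [h3, ← mul_assoc, hpm, one_mul] at this
    rw [← this]
    congr 1
    ext i j
    simp [RO, hA, hd]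
    ring
  have hA2 : (A + RO 1 d).det = A.det + sg p * (t - β) := by
    rw [hL, map_smul, smul_eq_mul, hA0] at hB
    rw [hL]
    congr 1
    linear_combination (-sg p) * hB + (- L d) * sg_sq (p := p)
  set i0 : Fin m := ⟨0, by omega⟩ with hi0
  have hd0 : d i0 = 1 := by simp [hd, hi0]
  have h := bord A i0 d τ (sg p * (t - β)) hA1 hA2 x y z w
  rw [hd0, hA0] at h
  have e : (1 + y + w) * t + (x + x * w - y * z) * τ + (z + y * z - x * w) * (sg p * (t - β)) =
    (1 + y + w * 1) * t + (x + 1 * (x * w - y * z)) * τ + (z + y * z - x * w) * (sg p * (t - β)) := by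
    ring
  rw [e, ← h]
  congr 1
  ext i j
  have h5 : A i i0 = chi p (((i : ℕ) : ZMod p) + 1) := by simp [hA, hi0]
  rw [Matrix.of_apply, Matrix.of_apply, h5]
  rfl

omit hpf in
lemma sum_Icc_one (f : ℕ → ℤ) (n : ℕ) : ∑ k ∈ Icc 1 n, f k = ∑ i ∈ range n, f (i + 1) := by
  induction n with
  | zero => simp
  | succ n ih => rw [Finset.sum_Icc_succ_top (by omega), ih, sum_range_succ]

omit hpf in
lemma prod_Icc_one {M : Type*} [CommMonoid M] (f : ℕ → M) (n : ℕ) :
    ∏ k ∈ Icc 1 n, f k = ∏ i ∈ range n, f (i + 1) := by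
  induction n with
  | zero => simp
  | succ n ih => rw [Finset.prod_Icc_succ_top (by omega), ih, prod_range_succ]

/-- the class number modulo `4` -/
lemma chi_fact_three (h4 : p % 4 = 3) (h3 : 3 < p) (hm : p = 2 * m + 1) {K : Type} [Field K]
    [NumberField K] (hK : Module.finrank ℚ K = 2) (s : K) (hs : s ^ 2 = -(p : K)) :
    chi p ((m.factorial : ℕ) : ZMod p) = -(-1) ^ ((classNumber K - 1) / 2) := by
  obtain ⟨u, hu⟩ : ∃ u, p = 4 * u + 3 := ⟨p / 4, by omega⟩
  obtain rfl : m = 2 * u + 1 := by omega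
  have hc := Q263.CN.class_number_formula p h4 h3 K hK s hs
  have e0 : (p - 1) / 2 = 2 * u + 1 := by omega
  rw [e0, sum_Icc_one (fun k => legendreSym p (k : ℤ))] at hc
  obtain ⟨h1, h2⟩ := Pool.Agent.Q267.CN.sign_sum (2 * u + 1)
    (fun i => legendreSym p ((i + 1 : ℕ) : ℤ)) (fun i hi =>
      Pool.Agent.Q267.CN.leg_pm _ (by positivity) (by push_cast; omega))
  have e2 : chi p (((2 * u + 1).factorial : ℕ) : ZMod p) =
      ((∏ i ∈ range (2 * u + 1), legendreSym p ((i + 1 : ℕ) : ℤ) : ℤ) : ℂ) := by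
    rw [← prod_chi_fact, prod_Icc_one, Int.cast_prod]
    refine prod_congr rfl fun i _ => ?_
    rw [leg_chi]
    push_cast
    rfl
  rw [e2]
  rw [← hc] at h2
  set P := ∏ i ∈ range (2 * u + 1), legendreSym p ((i + 1 : ℕ) : ℤ) with hP
  have h5 : legendreSym p 2 = (-1) ^ (u + 1) := by
    have h6 := chi_two_three hu
    have h7 : ((legendreSym p 2 : ℤ) : ℂ) = ((((-1) ^ (u + 1) : ℤ)) : ℂ) := by
      rw [leg_chi]
      push_cast
      rw [h6]
    exact_mod_cast h7
  set H := classNumber K with hH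
  rcases Nat.even_or_odd u with hu2 | hu2
  · have h6 : legendreSym p 2 = -1 := by rw [h5, pow_succ, hu2.neg_one_pow]; norm_num
    rw [h6] at h2
    obtain ⟨v, hv⟩ := hu2
    rcases h1 with h1 | h1
    · rw [h1] at h2 ⊢
      obtain ⟨w, hw⟩ : ∃ w, H = 4 * w + 3 := ⟨H / 4, by omega⟩
      have : (H - 1) / 2 = 2 * w + 1 := by omega
      rw [this, pow_succ, pow_mul]
      norm_num
    · rw [h1] at h2 ⊢
      obtain ⟨w, hw⟩ : ∃ w, H = 4 * w + 1 := ⟨H / 4, by omega⟩
      have : (H - 1) / 2 = 2 * w := by omega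
      rw [this, pow_mul]
      norm_num
  · have h6 : legendreSym p 2 = 1 := by rw [h5, pow_succ, hu2.neg_one_pow]; norm_num
    rw [h6] at h2
    obtain ⟨v, hv⟩ := hu2
    rcases h1 with h1 | h1
    · rw [h1] at h2 ⊢
      obtain ⟨w, hw⟩ : ∃ w, H = 4 * w + 3 := ⟨H / 4, by omega⟩
      have : (H - 1) / 2 = 2 * w + 1 := by omega
      rw [this, pow_succ, pow_mul]
      norm_num
    · rw [h1] at h2 ⊢
      obtain ⟨w, hw⟩ : ∃ w, H = 4 * w + 1 := ⟨H / 4, by omega⟩
      have : (H - 1) / 2 = 2 * w := by omega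
      rw [this, pow_mul]
      norm_num

end

end Pool.Agent.H140.LD
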