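import Pool.Agent.H140.LD.Val

/-!
# Toeplitz determinants of the quadratic character
-/

set_option autoImplicit false

namespace Pool.Agent.H140.LD

open Finset Matrix Polynomial

section

variable {p : ℕ} [hpf : Fact p.Prime] {m : ℕ}

lemma main_id (hm : p = 2 * m + 1) (x : ℂ) (e : Fin (2 * m + 1) → ℕ) (α : ℂ → ℂ)
    (hα : ∀ c, c * c = 1 → (GV (vc p m c) e).det = α c * (Matrix.vandermonde (vc p m c)).det) :
    p * (PhiM p m x e).det = Q0 p m * ((1 + sg p * G p * x) / 2 * (α 1 * Pc p m 1) +
      (1 - sg p * G p * x) / 2 * (α (-1) * Pc p m (-1))) := by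
  have h1 := congrArg Matrix.det (fourier hm x e)
  rw [Matrix.det_mul, det_XX] at h1
  have h2 := hα 1 (by norm_num)
  have h3 := hα (-1) (by norm_num)
  rw [det_vc] at h2 h3
  have h4 := det_V hm
  have h5 := FF_ne hm
  apply mul_left_cancel₀ h5
  unfold vc tv at h2 h3
  rw [h2, h3] at h1
  unfold Pc tv at *
  linear_combination (p : ℂ) * h1 + ((1 + sg p * G p * x) / 2 * (α 1 *
    ∏ r : Fin (2 * m), (tt p (((r : ℕ) + 1 : ℕ) : ZMod p) - 1)) +
      (1 - sg p * G p * x) / 2 * (α (-1) *
    ∏ r : Fin (2 * m), (tt p (((r : ℕ) + 1 : ℕ) : ZMod p) - -1))) * h4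

/-- the indices `2 i + 1` -/
def g1 (m : ℕ) (i : Fin m) : Fin (2 * m + 1) := ⟨2 * (i : ℕ) + 1, by omega⟩

lemma g1_inj : Function.Injective (g1 m) := by
  intro i j h
  have := congrArg Fin.val h
  simp only [g1] at this
  exact Fin.ext (by omega)

lemma g1_range (i : Fin (2 * m + 1)) : ¬ Even (i : ℕ) ↔ ∃ a, g1 m a = i := by
  constructor
  · intro h
    rw [Nat.not_even_iff_odd] at h
    obtain ⟨k, hk⟩ := h
    exact ⟨⟨k, by omega⟩, Fin.ext (by simp only [g1]; omega)⟩
  · rintro ⟨a, rfl⟩
    rw [Nat.not_even_iff_odd]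
    exact ⟨a, rfl⟩

lemma cast_inj (hm : p = 2 * m + 1) (i j : Fin (2 * m + 1)) :
    (((i : ℕ) : ZMod p) = ((j : ℕ) : ZMod p)) ↔ i = j := by
  constructor
  · intro h
    exact (eqv hm).injective h
  · rintro rfl; rfl

/-- order `m` -/
theorem toep_m (hm : p = 2 * m + 1) (x : ℂ) :
    p * (kap p ^ m * (Matrix.of fun i j : Fin m =>
      chi p 2 * chi p ((i : ℕ) - (j : ℕ)) + x).det) =
    Q0 p m * ((1 + sg p * G p * x) / 2 * Pc p m 1 + (1 - sg p * G p * x) / 2 * Pc p m (-1)) := by
  have h1 := main_id hm x (fun i => (i : ℕ)) (fun _ => 1) (by intro c _; rw [one_mul]; rfl)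
  rw [one_mul, one_mul] at h1
  rw [← h1]
  congr 1
  rw [det_units (PhiM p m x fun i => (i : ℕ)) (fun j => Even (j : ℕ)) ?_ (g1 m) g1_inj g1_range]
  · have h2 : (Matrix.of fun i j : Fin m => PhiM p m x (fun i => (i : ℕ)) (g1 m i) (g1 m j)) =
        kap p • (Matrix.of fun i j : Fin m => chi p 2 * chi p ((i : ℕ) - (j : ℕ)) + x) := by
      ext i j
      simp only [PhiM, Matrix.of_apply, Matrix.smul_apply, smul_eq_mul]
      rw [if_neg ((g1_range _).2 ⟨j, rfl⟩)]
      congr 2
      rw [← map_mul]
      congr 1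
      simp only [g1]
      push_cast
      ring
    rw [h2, Matrix.det_smul, Fintype.card_fin]
  · intro i j hj
    simp only [PhiM, Matrix.of_apply]
    rw [if_pos hj]
    simp only [cast_inj hm]

/-- the index `1` -/
def i1 (hm1 : 1 ≤ m) : Fin (2 * m + 1) := ⟨1, by omega⟩

/-- order `m`, with a shifted column -/
theorem shift_m (hm : p = 2 * m + 1) (hm1 : 1 ≤ m) (x : ℂ) :
    p * (kap p ^ m * (Matrix.of fun i j : Fin m =>
      chi p 2 * chi p ((i : ℕ) - (if (j : ℕ) = 0 then (m : ZMod p) else ((j : ℕ) : ZMod p))) +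
        x).det) =
    -Q0 p m * ((1 + sg p * G p * x) / 2 * ((sg p + G p) * Pc p m 1) +
      (1 - sg p * G p * x) / 2 * ((sg p - G p) * Pc p m (-1))) := by
  set e : Fin (2 * m + 1) → ℕ := Function.update (fun i => (i : ℕ)) (i1 hm1) (2 * m + 1) with he
  have h1 := main_id hm x e (fun c => -(sg p + c * G p)) (by
    intro c hc
    rw [he, det_repl_one]
    congr 2
    exact PRc_one hm hc)
  have h0 : Q0 p m * ((1 + sg p * G p * x) / 2 * (-(sg p + 1 * G p) * Pc p m 1) +
      (1 - sg p * G p * x) / 2 * (-(sg p + -1 * G p) * Pc p m (-1))) =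
    -Q0 p m * ((1 + sg p * G p * x) / 2 * ((sg p + G p) * Pc p m 1) +
      (1 - sg p * G p * x) / 2 * ((sg p - G p) * Pc p m (-1))) := by ring
  rw [← h0, ← h1]
  congr 1
  have hev : ∀ j : Fin (2 * m + 1), Even (e j) ↔ Even (j : ℕ) := by
    intro j
    by_cases hj : j = i1 hm1
    · subst hj
      rw [he, Function.update_self]
      simp only [i1]
      constructor
      · intro h; rw [Nat.even_iff] at h; omega
      · intro h; rw [Nat.even_iff] at h; omega
    · rw [he, Function.update_of_ne hj]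
  rw [det_units (PhiM p m x e) (fun j => Even (j : ℕ)) ?_ (g1 m) g1_inj g1_range]
  · have h2 : (Matrix.of fun i j : Fin m => PhiM p m x e (g1 m i) (g1 m j)) =
        kap p • (Matrix.of fun i j : Fin m => chi p 2 * chi p ((i : ℕ) -
          (if (j : ℕ) = 0 then (m : ZMod p) else ((j : ℕ) : ZMod p))) + x) := by
      ext i j
      simp only [PhiM, Matrix.of_apply, Matrix.smul_apply, smul_eq_mul]
      rw [if_neg (by rw [hev]; exact (g1_range _).2 ⟨j, rfl⟩)]
      congr 2
      rw [← map_mul]
      congr 1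
      by_cases hj : (j : ℕ) = 0
      · have h3 : g1 m j = i1 hm1 := Fin.ext (by simp only [g1, i1]; omega)
        rw [h3, he, Function.update_self, if_pos hj]
        have h4 : ((2 * m + 1 : ℕ) : ZMod p) = 0 := by rw [← hm]; simp
        have h5 : (2 : ZMod p) * m + 1 = 0 := by exact_mod_cast h4
        rw [h4]
        simp only [g1]
        push_cast
        linear_combination h5
      · have h3 : g1 m j ≠ i1 hm1 := by
          intro h
          have := congrArg Fin.val h
          simp only [g1, i1] at this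
          omega
        rw [he, Function.update_of_ne h3, if_neg hj]
        simp only [g1]
        push_cast
        ring
    rw [h2, Matrix.det_smul, Fintype.card_fin]
  · intro i j hj
    simp only [PhiM, Matrix.of_apply]
    rw [if_pos ((hev j).2 hj)]
    have h3 : e j = (j : ℕ) := by
      rw [he, Function.update_of_ne]
      rintro rfl
      simp only [i1] at hj
      rw [Nat.even_iff] at hj
      omega
    rw [h3]
    simp only [cast_inj hm]

/-- the indices `2 i + 3` -/
def g3 (m : ℕ) (i : Fin (m - 1)) : Fin (2 * m + 1) := ⟨2 * (i : ℕ) + 3, by omega⟩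

/-- order `m - 1` -/
theorem toep_m1 (hm : p = 2 * m + 1) (hm1 : 1 ≤ m) (x : ℂ) :
    p * (kap p ^ (m - 1) * (Matrix.of fun i j : Fin (m - 1) =>
      chi p 2 * chi p ((i : ℕ) - (j : ℕ)) + x).det) =
    -Q0 p m * ((1 + sg p * G p * x) / 2 * (((1 + sg p) * G p + G p ^ 2) * Pc p m 1) +
      (1 - sg p * G p * x) / 2 * (((1 + sg p) * G p - G p ^ 2) * Pc p m (-1))) := by
  set e : Fin (2 * m + 1) → ℕ := Function.update (fun i => (i : ℕ)) (i1 hm1) (2 * m + 1 + 1) with he
  have h1 := main_id hm x e (fun c => -((1 + sg p) * G p + c * G p ^ 2)) (by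
    intro c hc
    rw [he, det_repl_two _ (by omega)]
    congr 1
    simp only [i1]
    rw [coeff_X_mul, PRc_one hm hc, PRc_zero hm, Nat.add_sub_cancel, PRc_top hm]
    linear_combination -G p * hc)
  have h0 : Q0 p m * ((1 + sg p * G p * x) / 2 * (-((1 + sg p) * G p + 1 * G p ^ 2) * Pc p m 1) +
      (1 - sg p * G p * x) / 2 * (-((1 + sg p) * G p + -1 * G p ^ 2) * Pc p m (-1))) =
    -Q0 p m * ((1 + sg p * G p * x) / 2 * (((1 + sg p) * G p + G p ^ 2) * Pc p m 1) +
      (1 - sg p * G p * x) / 2 * (((1 + sg p) * G p - G p ^ 2) * Pc p m (-1))) := by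
    ring
  rw [← h0, ← h1]
  congr 1
  have hev : ∀ j : Fin (2 * m + 1), Even (e j) ↔ (Even (j : ℕ) ∨ j = i1 hm1) := by
    intro j
    by_cases hj : j = i1 hm1
    · subst hj
      rw [he, Function.update_self]
      simp only [i1, or_true, iff_true]
      rw [Nat.even_iff]; omega
    · rw [he, Function.update_of_ne hj]
      simp only [hj, or_false]
  have hrange : ∀ i : Fin (2 * m + 1), ¬ (Even (i : ℕ) ∨ i = i1 hm1) ↔ ∃ a, g3 m a = i := by
    intro i
    rw [not_or, Nat.not_even_iff_odd]
    constructor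
    · rintro ⟨⟨k, hk⟩, h2⟩
      have hk0 : k ≠ 0 := by
        rintro rfl
        exact h2 (Fin.ext (by simp only [i1]; omega))
      exact ⟨⟨k - 1, by omega⟩, Fin.ext (by simp only [g3]; omega)⟩
    · rintro ⟨a, rfl⟩
      refine ⟨⟨a + 1, by simp only [g3]; ring⟩, ?_⟩
      intro h
      have := congrArg Fin.val h
      simp only [g3, i1] at this
      omega
  rw [det_units (PhiM p m x e) (fun j => Even (j : ℕ) ∨ j = i1 hm1) ?_ (g3 m) (by
    intro i j h
    have := congrArg Fin.val h
    simp only [g3] at this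
    exact Fin.ext (by omega)) hrange]
  · have h2 : (Matrix.of fun i j : Fin (m - 1) => PhiM p m x e (g3 m i) (g3 m j)) =
        kap p • (Matrix.of fun i j : Fin (m - 1) => chi p 2 * chi p ((i : ℕ) - (j : ℕ)) + x) := by
      ext i j
      simp only [PhiM, Matrix.of_apply, Matrix.smul_apply, smul_eq_mul]
      rw [if_neg (by rw [hev]; exact (hrange _).2 ⟨j, rfl⟩)]
      congr 2
      rw [← map_mul]
      congr 1
      have h3 : g3 m j ≠ i1 hm1 := by
        intro h
        have := congrArg Fin.val h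
        simp only [g3, i1] at this
        omega
      rw [he, Function.update_of_ne h3]
      simp only [g3]
      push_cast
      ring
    rw [h2, Matrix.det_smul, Fintype.card_fin]
  · intro i j hj
    simp only [PhiM, Matrix.of_apply]
    rw [if_pos ((hev j).2 hj)]
    by_cases h3 : j = i1 hm1
    · have h4 : ((e j : ℕ) : ZMod p) = ((j : ℕ) : ZMod p) := by
        rw [h3, he, Function.update_self]
        simp only [i1]
        rw [← hm]
        push_cast
        simp
      rw [h4]
      simp only [cast_inj hm]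
    · have h4 : e j = (j : ℕ) := by
        rw [he, Function.update_of_ne h3]
      rw [h4]
      simp only [cast_inj hm]

end

end Pool.Agent.H140.LD
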