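import Pool.Agent.H140.LD.Val
import Pool.Agent.H140.LD.Real

/-!
# The products `∏ (χ(a) ζ^a ± 1)` and the fundamental unit
-/

set_option autoImplicit false

namespace Pool.Agent.H140.LD

open Finset Matrix Polynomial NumberField

section

variable {p : ℕ} [hpf : Fact p.Prime] {m : ℕ}

lemma G_one (h4 : p % 4 = 1) : G p = (Real.sqrt p : ℝ) := by
  have h := gauss_all p (by omega)
  have heps : Pool.Agent.H375R3.RZ5.eps p = 1 := by
    unfold Pool.Agent.H375R3.RZ5.eps
    rw [if_pos h4]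
  rw [heps, mul_one] at h
  exact h

lemma G_three (h4 : p % 4 = 3) : G p = (Real.sqrt p : ℝ) * Complex.I := by
  have h := gauss_all p (by omega)
  have heps : Pool.Agent.H375R3.RZ5.eps p = Complex.I := by
    unfold Pool.Agent.H375R3.RZ5.eps
    rw [if_neg (by omega)]
  rw [heps] at h
  exact h

/-- conjugation over the rational numbers -/
lemma conj_root (F : ℚ[X]) (hF : aeval (ps p 1) F = 0) {n : ZMod p} (hn : n ≠ 0) :
    aeval (ps p n) F = 0 := by
  have h1 := prim_root (p := p)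
  have h2 : IsPrimitiveRoot (ps p n) p := by
    rw [IsPrimitiveRoot.iff_def]
    constructor
    · rw [ps_pow]; simp
    · intro l hl
      rw [ps_pow, ← ps_zero (p := p)] at hl
      rcases mul_eq_zero.1 (ps_inj hl) with h | h
      · exact (ZMod.natCast_eq_zero_iff _ _).1 h
      · exact absurd h hn
  have h3 := cyclotomic_eq_minpoly_rat h1 hpf.out.pos
  have h4 := cyclotomic_eq_minpoly_rat h2 hpf.out.pos
  have h5 := minpoly.dvd ℚ _ hF
  rw [← h3, h4] at h5
  obtain ⟨c, rfl⟩ := h5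
  rw [map_mul, minpoly.aeval, zero_mul]

/-- the polynomial of the Gauss sum -/
noncomputable def gsP (p : ℕ) [Fact p.Prime] : ℚ[X] :=
  ∑ a : ZMod p, C ((quadraticChar (ZMod p) a : ℤ) : ℚ) * X ^ a.val

lemma ps_val (n a : ZMod p) : ps p n ^ a.val = ps p (a * n) := by
  rw [ps_pow, ZMod.natCast_zmod_val]

lemma gsP_eval (hm : p = 2 * m + 1) (n : ZMod p) : aeval (ps p n) (gsP p) = chi p n * G p := by
  unfold gsP
  rw [map_sum, ← sum_chi_ps (ne_two hm)]
  refine sum_congr rfl fun a _ => ?_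
  rw [map_mul, map_pow, aeval_X, aeval_C, ps_val, chi_apply]
  simp

lemma exists_nonres (hm : p = 2 * m + 1) (hm1 : 1 ≤ m) : ∃ n : ZMod p, n ≠ 0 ∧ chi p n = -1 := by
  have h := card_nonres hm
  obtain ⟨n, hn⟩ := card_pos.1 (lt_of_lt_of_eq (by omega : 0 < m) h.symm)
  rw [mem_filter, mem_erase] at hn
  exact ⟨n, hn.1.1, hn.2⟩

/-- if `g(ζ) = a √p + b p` then the conjugate is `- a √p + b p` -/
lemma conj_val (hm : p = 2 * m + 1) (g : ℚ[X]) (a b : ℚ)
    (h : aeval (ps p 1) g = a * G p + b) {n : ZMod p} (hn : n ≠ 0) (hc : chi p n = -1) :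
    aeval (ps p n) g = -a * G p + b := by
  have h1 : aeval (ps p 1) (g - C a * gsP p - C b) = 0 := by
    rw [map_sub, map_sub, map_mul, aeval_C, aeval_C, gsP_eval hm, h, map_one]
    simp
  have h2 := conj_root _ h1 hn
  rw [map_sub, map_sub, map_mul, aeval_C, aeval_C, gsP_eval hm, hc] at h2
  simp only [eq_ratCast] at h2
  linear_combination h2

/-- the polynomial `∏ (1 + χ(a) X^a)` -/
noncomputable def PcP (p : ℕ) [Fact p.Prime] : ℚ[X] :=
  ∏ a ∈ univ.erase (0 : ZMod p), (1 + C ((quadraticChar (ZMod p) a : ℤ) : ℚ) * X ^ a.val)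

lemma PcP_eval (n : ZMod p) : aeval (ps p n) (PcP p) =
    ∏ a ∈ univ.erase (0 : ZMod p), (1 + chi p a * ps p (a * n)) := by
  unfold PcP
  rw [map_prod]
  refine prod_congr rfl fun a _ => ?_
  rw [map_add, map_one, map_mul, map_pow, aeval_X, aeval_C, ps_val, chi_apply]
  simp

lemma Pc_prod (hm : p = 2 * m + 1) (c : ℂ) :
    Pc p m c = ∏ a ∈ univ.erase (0 : ZMod p), (tt p a - c) := by
  unfold Pc tv
  rw [prod_tv hm (fun a => tt p a - c)]

lemma PcP_one (hm : p = 2 * m + 1) : aeval (ps p 1) (PcP p) = Pc p m (-1) := by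
  rw [PcP_eval, Pc_prod hm]
  refine prod_congr rfl fun a _ => ?_
  rw [mul_one, tt]
  ring

lemma PcP_n (hm : p = 2 * m + 1) {n : ZMod p} (hn : n ≠ 0) (hc : chi p n = -1) :
    aeval (ps p n) (PcP p) = Pc p m 1 := by
  rw [PcP_eval, Pc_prod hm, ← prod_mul_left hn (fun a => tt p a - 1)]
  have h1 : ∀ a : ZMod p, tt p (n * a) - 1 = -(1 + chi p a * ps p (a * n)) := by
    intro a
    rw [tt, map_mul, hc, mul_comm a n]
    ring
  simp_rw [h1]
  rw [prod_neg, card_erase_of_mem (mem_univ _), card_univ, ZMod.card,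
    Even.neg_one_pow (by rw [Nat.even_iff]; omega), one_mul]

/-! ### positivity -/

lemma one_sub_ne {a : ZMod p} (ha : a ≠ 0) : 1 - ps p a ≠ 0 := by
  intro h
  apply ha
  apply ps_inj
  rw [ps_zero]
  linear_combination -h

lemma one_add_ne (hm : p = 2 * m + 1) (a : ZMod p) : 1 + ps p a ≠ 0 := by
  intro h
  by_cases ha : a = 0
  · rw [ha, ps_zero] at h
    norm_num at h
  · have h1 : 1 - ps p (2 * a) = 0 := by
      have : ps p (2 * a) = ps p a ^ 2 := by rw [ps_pow]; simp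
      rw [this]
      linear_combination (1 - ps p a) * h
    exact one_sub_ne (mul_ne_zero (two_ne hm) ha) h1

/-- a product over the nonzero residues of a function with `f (-a) = conj (f a)` is positive -/
lemma prod_conj_pos (hm : p = 2 * m + 1) (f : ZMod p → ℂ)
    (hf : ∀ a, f (-a) = (starRingEnd ℂ) (f a)) :
    ∏ a ∈ univ.erase (0 : ZMod p), f a = (‖∏ a ∈ univ.erase (0 : ZMod p), f a‖ : ℂ) := by
  have h1 : ∏ a ∈ univ.erase (0 : ZMod p), f a =
      ((∏ k ∈ Icc 1 m, Complex.normSq (f (k : ZMod p)) : ℝ) : ℂ) := by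
    rw [pair_prod hm, Complex.ofReal_prod]
    refine prod_congr rfl fun k _ => ?_
    rw [hf, Complex.mul_conj]
  rw [h1, Complex.norm_real, Real.norm_eq_abs, abs_of_nonneg]
  exact prod_nonneg fun k _ => Complex.normSq_nonneg _

lemma Pc_real (hm : p = 2 * m + 1) (h4 : p % 4 = 1) (c : ℝ) : Pc p m c = (‖Pc p m c‖ : ℂ) := by
  rw [Pc_prod hm]
  apply prod_conj_pos hm
  intro a
  rw [tt_neg, sg_one h4, one_mul, map_sub, Complex.conj_ofReal]

/-- the logarithms -/
lemma log_Pc (hm : p = 2 * m + 1) :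
    Real.log ‖Pc p m 1‖ - Real.log ‖Pc p m (-1)‖ =
      (2 - ((quadraticChar (ZMod p) 2 : ℤ) : ℝ)) * LL p := by
  have hc : ∀ c : ℂ, (c = 1 ∨ c = -1) → ∀ a ∈ univ.erase (0 : ZMod p), ‖tt p a - c‖ ≠ 0 := by
    intro c hc a ha
    rw [mem_erase] at ha
    rw [norm_ne_zero_iff]
    intro h
    have h1 : tt p a ^ 2 = 1 := by
      rw [sub_eq_zero.1 h]
      rcases hc with rfl | rfl <;> norm_num
    rw [tt, mul_pow, chi_even ha.1 even_two, one_mul, ps_pow, ← ps_zero (p := p)] at h1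
    rcases mul_eq_zero.1 (ps_inj h1) with h2 | h2
    · exact two_ne hm (by exact_mod_cast h2)
    · exact ha.1 h2
  rw [Pc_prod hm, Pc_prod hm, norm_prod, norm_prod, Real.log_prod (hc 1 (Or.inl rfl)),
    Real.log_prod (hc (-1) (Or.inr rfl)), ← sum_sub_distrib]
  have h1 : ∀ a ∈ univ.erase (0 : ZMod p), Real.log ‖tt p a - 1‖ - Real.log ‖tt p a - -1‖ =
      2 * (((quadraticChar (ZMod p) a : ℤ) : ℝ) * Real.log ‖1 - ps p a‖) -
      ((quadraticChar (ZMod p) a : ℤ) : ℝ) * Real.log ‖1 - ps p (2 * a)‖ := by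
    intro a ha
    rw [mem_erase] at ha
    have h2 : 1 - ps p (2 * a) = (1 - ps p a) * (1 + ps p a) := by
      have : ps p (2 * a) = ps p a ^ 2 := by rw [ps_pow]; simp
      rw [this]; ring
    have h3 := one_sub_ne ha.1
    have h4 := one_add_ne hm a
    rw [h2, norm_mul, Real.log_mul (norm_ne_zero_iff.2 h3) (norm_ne_zero_iff.2 h4)]
    rcases quadraticChar_dichotomy ha.1 with h5 | h5
    · have h6 : tt p a - 1 = -(1 - ps p a) := by
        rw [tt, chi_apply, h5]; push_cast; ring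
      have h7 : tt p a - -1 = 1 + ps p a := by
        rw [tt, chi_apply, h5]; push_cast; ring
      rw [h6, h7, norm_neg, h5]
      push_cast
      ring
    · have h6 : tt p a - 1 = -(1 + ps p a) := by
        rw [tt, chi_apply, h5]; push_cast; ring
      have h7 : tt p a - -1 = 1 - ps p a := by
        rw [tt, chi_apply, h5]; push_cast; ring
      rw [h6, h7, norm_neg, h5]
      push_cast
      ring
  rw [sum_congr rfl h1, sum_sub_distrib, ← mul_sum]
  have h2 : ∑ a ∈ univ.erase (0 : ZMod p), ((quadraticChar (ZMod p) a : ℤ) : ℝ) *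
      Real.log ‖1 - ps p a‖ = LL p := by
    unfold LL
    rw [← add_sum_erase univ _ (mem_univ (0 : ZMod p))]
    simp [ps]
  have h3 : ∑ a ∈ univ.erase (0 : ZMod p), ((quadraticChar (ZMod p) a : ℤ) : ℝ) *
      Real.log ‖1 - ps p (2 * a)‖ = ((quadraticChar (ZMod p) 2 : ℤ) : ℝ) * LL p := by
    rw [← h2, mul_sum]
    symm
    have h5 : ∀ a : ZMod p, (quadraticChar (ZMod p) a : ℤ) =
        (quadraticChar (ZMod p) 2 : ℤ) * (quadraticChar (ZMod p) (2 * a) : ℤ) := by
      intro a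
      rw [map_mul, ← mul_assoc]
      rcases quadraticChar_dichotomy (two_ne hm) with h | h <;> rw [h] <;> ring
    refine sum_bij' (fun a _ => 2⁻¹ * a) (fun a _ => 2 * a) ?_ ?_ ?_ ?_ ?_
    · intro a ha
      exact mem_erase.2 ⟨mul_ne_zero (inv_ne_zero (two_ne hm)) (mem_erase.1 ha).1, mem_univ _⟩
    · intro a ha
      exact mem_erase.2 ⟨mul_ne_zero (two_ne hm) (mem_erase.1 ha).1, mem_univ _⟩
    · intro a _
      exact mul_inv_cancel_left₀ (two_ne hm) a
    · intro a _
      exact inv_mul_cancel_left₀ (two_ne hm) a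
    · intro a _
      rw [h5 (2⁻¹ * a), mul_inv_cancel_left₀ (two_ne hm)]
      push_cast
      ring
  rw [h2, h3]
  ring

end

end Pool.Agent.H140.LD
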