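import Pool.Agent.H140.LD.Unit
import Pool.Agent.H140.LD.Toep
import Pool.Agent.H140.LD.Bord

/-!
# The Toeplitz determinants in terms of the fundamental unit
-/

set_option autoImplicit false

namespace Pool.Agent.H140.LD

open Finset Matrix Polynomial NumberField

/-- `K = ℚ(√p)` is a real quadratic field, `s` a square root of the prime `p` in `K`, `σ` the
embedding of `K` in the real numbers with `σ s > 0`, and `ε` the fundamental unit with
`σ ε > 1`. -/
structure FundUnit (p : ℕ) (K : Type) [Field K] [NumberField K] (s : K) (σ : K →+* ℝ)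
    (ε : (𝓞 K)ˣ) : Prop where
  /-- `K` is a quadratic field -/
  quad : Module.finrank ℚ K = 2
  /-- `s = √p` -/
  sq : s ^ 2 = (p : K)
  /-- `s` is positive -/
  pos : 0 < σ s
  /-- `ε > 1` -/
  gt : 1 < σ ((ε : 𝓞 K) : K)
  /-- `ε` generates the group of units together with `-1` -/
  gen : ∀ u : (𝓞 K)ˣ, ∃ n : ℤ, u = ε ^ n ∨ u = -ε ^ n

section

variable {p : ℕ} [hpf : Fact p.Prime] {m : ℕ} {K : Type} [Field K] [NumberField K] {s : K}
  {σ : K →+* ℝ} {ε : (𝓞 K)ˣ}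

lemma sigma_s (h : FundUnit p K s σ ε) : σ s = Real.sqrt p := by
  have h1 : σ s ^ 2 = p := by rw [← map_pow, h.sq, map_natCast]
  rw [← h1, Real.sqrt_sq h.pos.le]

lemma legendre_two : legendreSym p 2 = quadraticChar (ZMod p) 2 := by
  rw [legendreSym]; norm_num

lemma toNat_cast (hm : p = 2 * m + 1) : (((2 - legendreSym p 2).toNat : ℕ) : ℝ) =
    2 - ((quadraticChar (ZMod p) 2 : ℤ) : ℝ) := by
  rw [legendre_two]
  rcases quadraticChar_dichotomy (two_ne hm) with h | h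
  · rw [h]
    have e : ((2 : ℤ) - 1).toNat = 1 := rfl
    rw [e]; norm_num
  · rw [h]
    have e : ((2 : ℤ) - -1).toNat = 3 := rfl
    rw [e]; norm_num

/-- the values at `± 1` -/
theorem Pc_units (h4 : p % 4 = 1) (hm : p = 2 * m + 1) (h : FundUnit p K s σ ε) {a b : ℚ}
    (hab : (((ε : 𝓞 K) : K)) ^ ((2 - legendreSym p 2).toNat * classNumber K) = a + b * s) :
    Pc p m (-1) = b * p + a * (Real.sqrt p : ℝ) ∧ Pc p m 1 = b * p - a * (Real.sqrt p : ℝ) := by
  have hp : (0 : ℝ) < p := by exact_mod_cast hpf.out.pos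
  have hsq : 0 < Real.sqrt p := Real.sqrt_pos.2 hp
  have hm1 : 1 ≤ m := by have := hpf.out.two_le; omega
  set N := (2 - legendreSym p 2).toNat * classNumber K with hN
  have hE : σ ((ε : 𝓞 K) : K) ^ N = a + b * Real.sqrt p := by
    rw [← map_pow, hab]
    simp only [map_add, map_mul, map_ratCast, sigma_s h]
  have hε0 : 0 < σ ((ε : 𝓞 K) : K) := by linarith [h.gt]
  have hE0 : 0 < σ ((ε : 𝓞 K) : K) ^ N := pow_pos hε0 _
  have hcnf := cnf_real p h4 K h.quad s h.sq σ ε h.gt h.gen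
  have hlog := log_Pc hm
  have hprod := congrArg (fun z : ℂ => ‖z‖) (Pc_mul hm)
  simp only [norm_mul] at hprod
  rw [Complex.norm_natCast] at hprod
  obtain ⟨hne1, hne2⟩ := Pc_ne hm
  have hn1 : 0 < ‖Pc p m 1‖ := norm_pos_iff.2 hne1
  have hn2 : 0 < ‖Pc p m (-1)‖ := norm_pos_iff.2 hne2
  have hl : Real.log ‖Pc p m 1‖ + Real.log ‖Pc p m (-1)‖ = Real.log p := by
    rw [← Real.log_mul hn1.ne' hn2.ne', hprod]
  have hl2 : Real.log ‖Pc p m (-1)‖ = Real.log (Real.sqrt p * σ ((ε : 𝓞 K) : K) ^ N) := by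
    rw [Real.log_mul hsq.ne' hE0.ne', Real.log_sqrt hp.le, Real.log_pow, hN]
    push_cast
    rw [toNat_cast hm]
    linear_combination (1 / 2 : ℝ) * hl - (1 / 2 : ℝ) * hlog -
      ((2 - ((quadraticChar (ZMod p) 2 : ℤ) : ℝ)) / 2) * hcnf
  have hl3 : ‖Pc p m (-1)‖ = Real.sqrt p * σ ((ε : 𝓞 K) : K) ^ N :=
    Real.log_injOn_pos (Set.mem_Ioi.2 hn2) (Set.mem_Ioi.2 (mul_pos hsq hE0)) hl2
  have hs2 : ((Real.sqrt p : ℝ) : ℂ) * ((Real.sqrt p : ℝ) : ℂ) = p := by
    rw [← Complex.ofReal_mul, Real.mul_self_sqrt hp.le]; simp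
  have h1 : Pc p m (-1) = b * p + a * (Real.sqrt p : ℝ) := by
    have h5 := Pc_real hm h4 (-1)
    push_cast at h5
    rw [h5, hl3, hE]
    push_cast
    linear_combination (b : ℂ) * hs2
  refine ⟨h1, ?_⟩
  obtain ⟨n, hn, hc⟩ := exists_nonres hm hm1
  have h2 := conj_val hm (PcP p) a (b * p) (by
    rw [PcP_one hm, h1, G_one h4]
    push_cast
    ring) hn hc
  rw [PcP_n hm hn hc, G_one h4] at h2
  rw [h2]
  push_cast
  ring

/-- the determinants `det [χ(i - j) + x]` -/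
noncomputable def TJ (p : ℕ) [Fact p.Prime] (n : ℕ) (x : ℂ) : ℂ :=
  (Matrix.of fun i j : Fin n => chi p (((i : ℕ) : ZMod p) - ((j : ℕ) : ZMod p)) + x).det

lemma scale_gen (hm : p = 2 * m + 1) {n : ℕ} (M : Matrix (Fin n) (Fin n) ℂ) (x : ℂ) :
    (Matrix.of fun i j : Fin n => chi p 2 * M i j + x).det =
      chi p 2 ^ n * (Matrix.of fun i j : Fin n => M i j + chi p 2 * x).det := by
  have h : (Matrix.of fun i j : Fin n => chi p 2 * M i j + x) =
      chi p 2 • (Matrix.of fun i j : Fin n => M i j + chi p 2 * x) := by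
    ext i j
    simp only [Matrix.of_apply, Matrix.smul_apply, smul_eq_mul]
    linear_combination -x * chi_sq (two_ne hm)
  rw [h, Matrix.det_smul, Fintype.card_fin]

lemma scale_TJ (hm : p = 2 * m + 1) (n : ℕ) (x : ℂ) :
    (Matrix.of fun i j : Fin n => chi p 2 * chi p ((i : ℕ) - (j : ℕ)) + x).det =
      chi p 2 ^ n * TJ p n (chi p 2 * x) :=
  scale_gen hm (Matrix.of fun i j : Fin n => chi p ((i : ℕ) - (j : ℕ))) x

lemma kap_one {u : ℕ} (hu : p = 4 * u + 1) : kap p ^ (2 * u) = ((p : ℂ) ^ u)⁻¹ := by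
  unfold kap
  rw [sg_one (by omega), one_mul, pow_mul, div_pow, G_sq (by omega), sg_one (by omega), one_mul,
    sq, ← inv_pow]
  congr 1
  have := p_ne (p := p)
  field_simp

lemma kap_three {u : ℕ} (hu : p = 4 * u + 3) : kap p ^ (2 * u) = (-1) ^ u * ((p : ℂ) ^ u)⁻¹ := by
  unfold kap
  rw [pow_mul, div_pow, mul_pow, sq (sg p), sg_sq, G_sq (by omega), sg_three (by omega), ← inv_pow,
    ← mul_pow]
  congr 1
  have := p_ne (p := p)
  field_simp

/-- order `(p - 1) / 2`, `p = 1` modulo `4` -/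
theorem TJ_m_one (h4 : p % 4 = 1) (hm : p = 2 * m + 1) (h : FundUnit p K s σ ε) {a b : ℚ}
    (hab : (((ε : 𝓞 K) : K)) ^ ((2 - legendreSym p 2).toNat * classNumber K) = a + b * s) (x : ℂ) :
    TJ p m x = chi p 2 * b - a * x := by
  obtain ⟨u, hu⟩ : ∃ u, p = 4 * u + 1 := ⟨p / 4, by omega⟩
  obtain rfl : m = 2 * u := by omega
  obtain ⟨h1, h2⟩ := Pc_units h4 hm h hab
  have h3 := toep_m hm (chi p 2 * x)
  have hc := chi_sq (two_ne hm)
  rw [scale_TJ hm, ← mul_assoc (chi p 2) (chi p 2) x, hc, one_mul, kap_one hu, Q0_one hu, h1, h2,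
    G_one h4, sg_one h4, pow_mul, sq (chi p 2), hc, one_pow, one_mul] at h3
  have hp := p_ne (p := p)
  have hpu : (p : ℂ) ^ u ≠ 0 := pow_ne_zero _ hp
  have hs2 : ((Real.sqrt p : ℝ) : ℂ) * ((Real.sqrt p : ℝ) : ℂ) = p := by
    rw [← Complex.ofReal_mul, Real.mul_self_sqrt (Nat.cast_nonneg p)]; simp
  apply mul_left_cancel₀ hp
  apply mul_left_cancel₀ (inv_ne_zero hpu)
  linear_combination h3 - ((p : ℂ) ^ u)⁻¹ * a * x * (chi p 2 * chi p 2) * hs2 -
    ((p : ℂ) ^ u)⁻¹ * a * x * p * hc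

/-- order `(p - 3) / 2`, `p = 1` modulo `4` -/
theorem TJ_m1_one (h4 : p % 4 = 1) (hm : p = 2 * m + 1) (h : FundUnit p K s σ ε) {a b : ℚ}
    (hab : (((ε : 𝓞 K) : K)) ^ ((2 - legendreSym p 2).toNat * classNumber K) = a + b * s) (x : ℂ) :
    TJ p (m - 1) x = (a - 2 * b) + chi p 2 * (2 * a - p * b) * x := by
  obtain ⟨u, hu⟩ : ∃ u, p = 4 * u + 1 := ⟨p / 4, by omega⟩
  have hu1 : 1 ≤ u := by have := hpf.out.two_le; omega
  obtain rfl : m = 2 * u := by omega
  obtain ⟨h1, h2⟩ := Pc_units h4 hm h hab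
  have h3 := toep_m1 hm (by omega) (chi p 2 * x)
  have hc := chi_sq (two_ne hm)
  have hodd : ¬ Even (2 * u - 1) := by rw [Nat.not_even_iff_odd]; exact ⟨u - 1, by omega⟩
  have hkap : kap p * kap p ^ (2 * u - 1) = ((p : ℂ) ^ u)⁻¹ := by
    rw [← pow_succ', Nat.sub_add_cancel (by omega), kap_one hu]
  have hk : kap p = (Real.sqrt p : ℝ) / p := by
    unfold kap; rw [sg_one h4, one_mul, G_one h4]
  have hp := p_ne (p := p)
  have hpu : (p : ℂ) ^ u ≠ 0 := pow_ne_zero _ hp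
  have hs2 : ((Real.sqrt p : ℝ) : ℂ) * ((Real.sqrt p : ℝ) : ℂ) = p := by
    rw [← Complex.ofReal_mul, Real.mul_self_sqrt (Nat.cast_nonneg p)]; simp
  have hs0 : ((Real.sqrt p : ℝ) : ℂ) ≠ 0 := by
    intro h0; rw [h0, zero_mul] at hs2; exact hp hs2.symm
  have hkap2 : kap p ^ (2 * u - 1) = (Real.sqrt p : ℝ) * ((p : ℂ) ^ u)⁻¹ := by
    rw [hk, ← hk] at hkap
    rw [hk] at hkap
    have h5 : ((Real.sqrt p : ℝ) : ℂ) / p * kap p ^ (2 * u - 1) = ((p : ℂ) ^ u)⁻¹ := by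
      rw [← hk]; rw [← pow_succ', Nat.sub_add_cancel (by omega), kap_one hu]
    apply mul_left_cancel₀ (div_ne_zero hs0 hp)
    rw [h5]
    field_simp
    linear_combination -hs2
  rw [scale_TJ hm, ← mul_assoc (chi p 2) (chi p 2) x, hc, one_mul, hkap2, Q0_one hu, h1, h2,
    G_one h4, sg_one h4, chi_odd (two_ne hm) hodd] at h3
  apply mul_left_cancel₀ hp
  apply mul_left_cancel₀ (inv_ne_zero hpu)
  apply mul_left_cancel₀ (chi_ne (two_ne hm))
  apply mul_left_cancel₀ hs0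
  set r : ℂ := ((Real.sqrt p : ℝ) : ℂ) with hr
  linear_combination h3 + (r * chi p 2 * ((p : ℂ) ^ u)⁻¹ * (a + 2 * chi p 2 * x * a -
    chi p 2 * p * x * b)) * hs2

/-- order `(p - 1) / 2`, `p = 3` modulo `4` -/
theorem TJ_m_three (h4 : p % 4 = 3) (hm : p = 2 * m + 1) (x : ℂ) : TJ p m x = x := by
  obtain ⟨u, hu⟩ : ∃ u, p = 4 * u + 3 := ⟨p / 4, by omega⟩
  obtain rfl : m = 2 * u + 1 := by omega
  have h3 := toep_m hm (chi p 2 * x)
  have hc := chi_sq (two_ne hm)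
  have hq := Q0_three hu
  have hp := p_ne (p := p)
  have hpu : (p : ℂ) ^ u ≠ 0 := pow_ne_zero _ hp
  have hG := G_ne (p := p) (ne_two hm)
  have hodd : ¬ Even (2 * u + 1) := by rw [Nat.not_even_iff_odd]; exact ⟨u, rfl⟩
  have hk : kap p = -G p / p := by
    unfold kap; rw [sg_three h4]; ring
  have h2 := chi_two_three hu
  rw [scale_TJ hm, ← mul_assoc (chi p 2) (chi p 2) x, hc, one_mul, pow_succ (kap p), kap_three hu,
    Pc_three hm h4, sg_three h4, chi_odd (two_ne hm) hodd, hk] at h3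
  have h5 : p * (((-1) ^ u * ((p : ℂ) ^ u)⁻¹ * (-G p / p)) * (chi p 2 * TJ p (2 * u + 1) x)) =
      chi p 2 * ((p : ℂ) ^ u)⁻¹ * G p * (chi p 2 * x) := by
    linear_combination h3 + (G p * (chi p 2 * x)) * hq
  have h6 : p * (((-1) ^ u * ((p : ℂ) ^ u)⁻¹ * (-G p / p)) * (chi p 2 * TJ p (2 * u + 1) x)) =
      ((-1) ^ (u + 1) * chi p 2) * ((p : ℂ) ^ u)⁻¹ * G p * TJ p (2 * u + 1) x := by
    field_simp
    ring
  rw [h6, ← h2, hc, one_mul] at h5
  apply mul_left_cancel₀ (mul_ne_zero (inv_ne_zero hpu) hG)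
  linear_combination h5 + ((p : ℂ) ^ u)⁻¹ * G p * x * hc

/-- order `(p - 3) / 2`, `p = 3` modulo `4` -/
theorem TJ_m1_three (h4 : p % 4 = 3) (hm : p = 2 * m + 1) (x : ℂ) : TJ p (m - 1) x = 1 := by
  obtain ⟨u, hu⟩ : ∃ u, p = 4 * u + 3 := ⟨p / 4, by omega⟩
  obtain rfl : m = 2 * u + 1 := by omega
  have h3 := toep_m1 hm (by omega) (chi p 2 * x)
  have hc := chi_sq (two_ne hm)
  have hq := Q0_three hu
  have hp := p_ne (p := p)
  have hpu : (p : ℂ) ^ u ≠ 0 := pow_ne_zero _ hp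
  have hG := G_sq (p := p) (ne_two hm)
  have h2 := chi_two_three hu
  rw [Nat.add_sub_cancel] at h3 ⊢
  rw [scale_TJ hm, ← mul_assoc (chi p 2) (chi p 2) x, hc, one_mul, kap_three hu,
    Pc_three hm h4, hG, sg_three h4, pow_mul (chi p 2), sq (chi p 2), hc, one_pow, one_mul] at h3
  have h5 : (-1 : ℂ) ^ u * (-1) ^ u = 1 := by rw [← mul_pow]; norm_num
  have h6 : (-1 : ℂ) ^ (u + 1) = -(-1) ^ u := by rw [pow_succ]; ring
  rw [h6] at h2
  apply mul_left_cancel₀ hp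
  apply mul_left_cancel₀ (inv_ne_zero hpu)
  have h7 : (p : ℂ) * ((-1) ^ u * ((p : ℂ) ^ u)⁻¹ * TJ p (2 * u) x) =
      -(p * (chi p 2 * ((p : ℂ) ^ u)⁻¹)) := by
    linear_combination h3 - (p : ℂ) * hq
  rw [h2] at h7
  linear_combination (-1 : ℂ) ^ u * h7 - ((p : ℂ) * ((p : ℂ) ^ u)⁻¹ * TJ p (2 * u) x -
    (p : ℂ) * ((p : ℂ) ^ u)⁻¹) * h5

/-! ### the four parameter determinants -/

lemma bord_row {n : ℕ} (A : Matrix (Fin n) (Fin n) ℂ) (i0 : Fin n) (s : ℂ) :
    (A + RO 1 (fun j => s * A i0 j)).det = A.det + s * A.det := by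
  set e0 : Fin n → ℂ := Pi.single i0 1 with he0
  have h : A + RO 1 (fun j => s * A i0 j) = (1 + RO (fun _ => s) e0) * A := by
    ext i j
    rw [Matrix.add_mul, Matrix.one_mul, Matrix.add_apply, Matrix.add_apply, Matrix.mul_apply]
    congr 1
    rw [Finset.sum_eq_single i0]
    · simp [RO, he0]
    · intro k _ hk
      simp [RO, he0, hk]
    · intro h; exact absurd (Finset.mem_univ _) h
  have h5 := Matrix.det_one_add_replicateCol_mul_replicateRow (ι := Unit)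
    (fun _ : Fin n => s) e0
  have h6 : Matrix.replicateCol Unit (fun _ : Fin n => s) *
      Matrix.replicateRow Unit e0 = RO (fun _ => s) e0 := by
    ext i j
    simp [Matrix.mul_apply, RO]
  rw [h6] at h5
  rw [h, Matrix.det_mul, h5, he0]
  simp
  ring

/-- the general four parameter determinant when the column and the row belong to the matrix -/
lemma bord_T {n : ℕ} (A : Matrix (Fin n) (Fin n) ℂ) (i0 : Fin n) (s t τ : ℂ) (h0 : A i0 i0 = 0)
    (hA : ∀ x, (Matrix.of fun i j => A i j + x).det = t + τ * x) (x y z w : ℂ) :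
    (Matrix.of fun i j => x + A i j + A i i0 * y + (s * A i0 j) * z +
      A i i0 * (s * A i0 j) * w).det = t * ((1 + y) * (1 + s * z) - s * (x * w)) + τ * x := by
  have hA0 : A.det = t := by
    have := hA 0
    rw [mul_zero, add_zero] at this
    rw [← this]
    congr 1
    ext i j
    simp
  have hA1 : (A + RO 1 1).det = A.det + τ := by
    have := hA 1
    rw [mul_one, ← hA0] at this
    rw [← this]
    congr 1
    ext i j
    simp [RO]
  rw [bord A i0 (fun j => s * A i0 j) τ (s * A.det) hA1 (bord_row A i0 s), h0, hA0]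
  ring

end

end Pool.Agent.H140.LD
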