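import Pool.Agent.H140.LD.Qz

/-!
# The values of the constants
-/

set_option autoImplicit false

namespace Pool.Agent.H140.LD

open Finset Matrix

section

variable {p : ℕ} [hpf : Fact p.Prime] {m : ℕ}

lemma pair_prod {M : Type*} [CommMonoid M] (hm : p = 2 * m + 1) (f : ZMod p → M) :
    ∏ a ∈ univ.erase (0 : ZMod p), f a = ∏ k ∈ Icc 1 m, (f (k : ZMod p) * f (-(k : ZMod p))) := by
  have h0 : ∏ a ∈ univ.erase (0 : ZMod p), f a = ∏ k ∈ Icc 1 (2 * m), f (k : ZMod p) := by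
    symm
    refine prod_bij (fun k _ => (k : ZMod p)) ?_ ?_ ?_ ?_
    · intro k hk
      rw [mem_Icc] at hk
      refine mem_erase.2 ⟨?_, mem_univ _⟩
      rw [Ne, cast_eq_zero (by omega)]; omega
    · intro k hk l hl h1
      rw [mem_Icc] at hk hl
      have h2 := (ZMod.natCast_eq_natCast_iff' _ _ _).1 h1
      rwa [Nat.mod_eq_of_lt (by omega), Nat.mod_eq_of_lt (by omega)] at h2
    · intro a ha
      rw [mem_erase] at ha
      have h0 : a.val ≠ 0 := fun h => ha.1 ((ZMod.val_eq_zero a).1 h)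
      have h1 := ZMod.val_lt a
      exact ⟨a.val, mem_Icc.2 ⟨by omega, by omega⟩, ZMod.natCast_zmod_val a⟩
    · intro k _; rfl
  have h1 : Icc 1 (2 * m) = Icc 1 m ∪ (Icc 1 m).image (fun k => 2 * m + 1 - k) := by
    ext k
    rw [mem_union, mem_image, mem_Icc, mem_Icc]
    constructor
    · intro h
      by_cases hk : k ≤ m
      · left; omega
      · right
        exact ⟨2 * m + 1 - k, mem_Icc.2 (by omega), by omega⟩
    · rintro (h | ⟨a, h, rfl⟩)
      · omega
      · rw [mem_Icc] at h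
        omega
  rw [h0, h1, prod_union, prod_image, prod_mul_distrib]
  · congr 1
    refine prod_congr rfl fun k hk => ?_
    rw [mem_Icc] at hk
    rw [cast_sub hm (by omega)]
  · intro a ha b hb h
    simp only [coe_Icc, Set.mem_Icc] at ha hb
    simp only at h
    omega
  · rw [disjoint_left]
    intro a ha hb
    rw [mem_image] at hb
    obtain ⟨b, hb, rfl⟩ := hb
    rw [mem_Icc] at ha hb
    omega

lemma ringChar_ne (hm : p = 2 * m + 1) : ringChar (ZMod p) ≠ 2 := by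
  rw [ZMod.ringChar_zmod_n]; omega

lemma sg_one (h4 : p % 4 = 1) : sg p = 1 := by
  have hm : p = 2 * (p / 2) + 1 := by omega
  rw [sg, chi_apply, quadraticChar_neg_one (ringChar_ne hm), ZMod.card,
    ZMod.χ₄_nat_one_mod_four h4]
  simp

lemma sg_three (h4 : p % 4 = 3) : sg p = -1 := by
  have hm : p = 2 * (p / 2) + 1 := by omega
  rw [sg, chi_apply, quadraticChar_neg_one (ringChar_ne hm), ZMod.card,
    ZMod.χ₄_nat_three_mod_four h4]
  simp

lemma chi_two_eq (hm : p = 2 * m + 1) : chi p 2 = if p % 8 = 1 ∨ p % 8 = 7 then 1 else -1 := by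
  rw [chi_apply, quadraticChar_two (ringChar_ne hm), ZMod.card, ZMod.χ₈_nat_eq_if_mod_eight]
  rw [if_neg (by omega)]
  split_ifs <;> simp

lemma chi_two_one {u : ℕ} (hu : p = 4 * u + 1) : chi p 2 = (-1) ^ u := by
  rw [chi_two_eq (m := 2 * u) (by omega)]
  rcases Nat.even_or_odd u with h | h
  · rw [h.neg_one_pow, if_pos]
    obtain ⟨k, rfl⟩ := h
    omega
  · rw [h.neg_one_pow, if_neg]
    obtain ⟨k, rfl⟩ := h
    omega

lemma chi_two_three {u : ℕ} (hu : p = 4 * u + 3) : chi p 2 = (-1) ^ (u + 1) := by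
  rw [chi_two_eq (m := 2 * u + 1) (by omega)]
  rcases Nat.even_or_odd u with h | h
  · rw [pow_succ, h.neg_one_pow, if_neg]
    · ring
    · obtain ⟨k, rfl⟩ := h
      omega
  · rw [pow_succ, h.neg_one_pow, if_pos]
    · ring
    · obtain ⟨k, rfl⟩ := h
      omega

lemma prod_cast_fact : ∏ k ∈ Icc 1 m, ((k : ℕ) : ZMod p) = ((m.factorial : ℕ) : ZMod p) := by
  induction m with
  | zero => simp
  | succ n ih =>
    rw [Finset.prod_Icc_succ_top (by omega), ih, Nat.factorial_succ]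
    push_cast
    ring

lemma prod_chi_fact : ∏ k ∈ Icc 1 m, chi p ((k : ℕ) : ZMod p) =
    chi p ((m.factorial : ℕ) : ZMod p) := by
  rw [← prod_cast_fact, map_prod]

lemma fact_sq (hm : p = 2 * m + 1) : (-1) ^ m * (((m.factorial : ℕ) : ZMod p)) ^ 2 = -1 := by
  have h0 := prod_erase (p := p)
  rw [pair_prod hm (fun a => a)] at h0
  have h : ∀ k : ℕ, (k : ZMod p) * -(k : ZMod p) = -1 * ((k : ZMod p) * (k : ZMod p)) := by
    intro k; ring
  simp_rw [h] at h0
  rw [prod_mul_distrib, prod_mul_distrib, prod_const, prod_cast_fact, Nat.card_Icc,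
    Nat.add_sub_cancel] at h0
  rw [sq]
  exact h0

lemma fact_ne (hm : p = 2 * m + 1) : ((m.factorial : ℕ) : ZMod p) ≠ 0 := by
  rw [Ne, ZMod.natCast_eq_zero_iff, hpf.out.dvd_factorial]
  omega

/-- the quadratic character of `m!` for `p = 1` modulo `4` -/
lemma chi_fact_one {u : ℕ} (hu : p = 4 * u + 1) :
    chi p (((2 * u).factorial : ℕ) : ZMod p) = (-1) ^ u := by
  have hm : p = 2 * (2 * u) + 1 := by omega
  have h1 := fact_sq hm
  rw [(even_two_mul u).neg_one_pow, one_mul] at h1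
  have h2 := quadraticChar_eq_pow_of_char_ne_two' (ringChar_ne hm)
    (((2 * u).factorial : ℕ) : ZMod p)
  rw [ZMod.card, show p / 2 = 2 * u by omega, pow_mul, h1] at h2
  have h3 := quadraticChar_dichotomy (fact_ne hm)
  rw [chi_apply]
  have h4 : (1 : ZMod p) ≠ -1 := by
    intro h
    apply two_ne hm
    linear_combination h
  rcases Nat.even_or_odd u with h | h
  · rw [h.neg_one_pow] at h2 ⊢
    rcases h3 with h5 | h5
    · rw [h5]; simp
    · rw [h5] at h2
      push_cast at h2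
      exact absurd h2.symm h4
  · rw [h.neg_one_pow] at h2 ⊢
    rcases h3 with h5 | h5
    · rw [h5] at h2
      push_cast at h2
      exact absurd h2 h4
    · rw [h5]; simp

lemma real_eq {R a : ℝ} (hR : 0 < R) (ha : 0 < a) {z : ℂ} {e : ℂ} (he : e ^ 2 = 1)
    (hz : z = e * (R : ℂ)) (hz2 : z ^ 2 = (a : ℂ) ^ 2) : z = e * (a : ℂ) := by
  rw [hz, mul_pow, he, one_mul] at hz2
  have h1 : R ^ 2 = a ^ 2 := by exact_mod_cast hz2
  have h2 : R = a := by
    nlinarith [sq_nonneg (R - a)]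
  rw [hz, h2]

/-- the value of `Q0` for `p = 1` modulo `4` -/
theorem Q0_one {u : ℕ} (hu : p = 4 * u + 1) :
    Q0 p (2 * u) = chi p 2 * ((p : ℂ) ^ u)⁻¹ := by
  have hm : p = 2 * (2 * u) + 1 := by omega
  have hu1 : 1 ≤ u := by
    by_contra h
    have : p = 1 := by omega
    exact hpf.out.one_lt.ne' this
  obtain ⟨R, hR, h⟩ := Q0_pos hm
  have hs := sg_one (p := p) (by omega)
  have h1 : ∏ k ∈ Icc 1 (2 * u), rh p (k : ZMod p) (-(k : ZMod p)) = chi p 2 := by
    rw [chi_two_one hu, ← chi_fact_one hu, ← prod_chi_fact]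
    refine prod_congr rfl fun k hk => ?_
    rw [mem_Icc] at hk
    unfold rh tt
    rw [chi_neg, hs, one_mul, ← mul_sub]
    apply mul_div_cancel_right₀
    intro h6
    have h7 := ps_inj (sub_eq_zero.1 h6)
    have h8 : (2 : ZMod p) * (k : ZMod p) = 0 := by linear_combination -h7
    rcases mul_eq_zero.1 h8 with h9 | h9
    · exact two_ne hm h9
    · rw [cast_eq_zero (by omega)] at h9
      omega
  rw [h1] at h
  have h2 := Q0_sq hm (by omega)
  rw [hs, one_mul] at h2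
  have hp : (0 : ℝ) < p := by exact_mod_cast hpf.out.pos
  have h3 := real_eq hR (a := ((p : ℝ) ^ u)⁻¹) (by positivity)
    (by rw [sq]; exact chi_sq (two_ne hm)) h (by
      rw [h2]; push_cast; rw [← inv_pow, ← inv_pow]; ring)
  rw [h3]
  push_cast
  rfl

/-! ### `p = 3` modulo `4` -/

lemma Pc_eq (hm : p = 2 * m + 1) (c : ℂ) : Pc p m c =
    ∏ k ∈ Icc 1 m, ((tt p (k : ZMod p) - c) * (tt p (-(k : ZMod p)) - c)) := by
  unfold Pc tv
  rw [prod_tv hm (fun a => tt p a - c), pair_prod hm]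

lemma tt_mul_neg (hs : sg p = -1) {a : ZMod p} (ha : a ≠ 0) : tt p a * tt p (-a) = -1 := by
  unfold tt
  rw [chi_neg, hs, ps_inv]
  have h1 := chi_sq ha
  have h2 := ps_ne (p := p) a
  field_simp
  linear_combination -h1

lemma k_ne (hm : p = 2 * m + 1) {k : ℕ} (hk : k ∈ Icc 1 m) : (k : ZMod p) ≠ 0 := by
  rw [mem_Icc] at hk
  rw [Ne, cast_eq_zero (by omega)]
  omega

lemma Pc_three (hm : p = 2 * m + 1) (h4 : p % 4 = 3) : Pc p m 1 = -Pc p m (-1) := by
  have hs := sg_three (p := p) h4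
  rw [Pc_eq hm, Pc_eq hm]
  have h1 : ∀ k ∈ Icc 1 m, (tt p (k : ZMod p) - 1) * (tt p (-(k : ZMod p)) - 1) =
      -1 * ((tt p (k : ZMod p) - -1) * (tt p (-(k : ZMod p)) - -1)) := by
    intro k hk
    have h2 := tt_mul_neg hs (k_ne hm hk)
    linear_combination 2 * h2
  rw [prod_congr rfl h1, prod_mul_distrib, prod_const, Nat.card_Icc, Nat.add_sub_cancel,
    Odd.neg_one_pow (by rw [Nat.odd_iff]; omega)]
  ring

lemma Pc_three_sq (hm : p = 2 * m + 1) (h4 : p % 4 = 3) : Pc p m (-1) ^ 2 = -p := by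
  have h1 := Pc_mul hm
  rw [Pc_three hm h4] at h1
  linear_combination -h1

lemma ps_nat (k : ℕ) : ps p (k : ZMod p) = Complex.exp ((2 * Real.pi * k / p : ℝ) * Complex.I) := by
  have h := ZMod.stdAddChar_coe (N := p) (k : ℤ)
  rw [Int.cast_natCast] at h
  unfold ps
  rw [h]
  push_cast
  congr 1
  ring

lemma ps_add_neg (k : ℕ) : ps p (k : ZMod p) + ps p (-(k : ZMod p)) =
    ((2 * Real.cos (2 * Real.pi * k / p) : ℝ) : ℂ) := by
  rw [← ps_conj, Complex.add_conj, ps_nat, Complex.exp_ofReal_mul_I_re]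

lemma ps_sub_neg (k : ℕ) : ps p (k : ZMod p) - ps p (-(k : ZMod p)) =
    ((2 * Real.sin (2 * Real.pi * k / p) : ℝ) : ℂ) * Complex.I := by
  rw [← ps_conj, Complex.sub_conj, ps_nat, Complex.exp_ofReal_mul_I_im]

lemma Pc_neg_one_three (hm : p = 2 * m + 1) (h4 : p % 4 = 3) : Pc p m (-1) =
    ∏ k ∈ Icc 1 m, (chi p (k : ZMod p) * (ps p (k : ZMod p) - ps p (-(k : ZMod p)))) := by
  have hs := sg_three (p := p) h4
  rw [Pc_eq hm]
  refine prod_congr rfl fun k hk => ?_
  have h2 := tt_mul_neg hs (k_ne hm hk)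
  have h3 : tt p (k : ZMod p) + tt p (-(k : ZMod p)) =
      chi p (k : ZMod p) * (ps p (k : ZMod p) - ps p (-(k : ZMod p))) := by
    unfold tt
    rw [chi_neg, hs]
    ring
  linear_combination h2 + h3

lemma prod_sign (f : ℕ → ℝ) (u : ℕ) (h1 : ∀ k ∈ Icc 1 u, 0 < f k)
    (h2 : ∀ k ∈ Icc (u + 1) (2 * u + 1), f k < 0) :
    ∃ R : ℝ, 0 < R ∧ ∏ k ∈ Icc 1 (2 * u + 1), f k = (-1) ^ (u + 1) * R := by
  refine ⟨(∏ k ∈ Icc 1 u, f k) * ∏ k ∈ Icc (u + 1) (2 * u + 1), (-f k), ?_, ?_⟩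
  · exact mul_pos (prod_pos h1) (prod_pos fun k hk => neg_pos.2 (h2 k hk))
  · have h3 : Icc 1 (2 * u + 1) = Icc 1 u ∪ Icc (u + 1) (2 * u + 1) := by
      ext k; rw [mem_union, mem_Icc, mem_Icc, mem_Icc]; omega
    rw [h3, prod_union (by
      rw [disjoint_left]; intro k hk hk'; rw [mem_Icc] at hk hk'; omega), prod_neg, Nat.card_Icc,
      show 2 * u + 1 + 1 - (u + 1) = u + 1 by omega]
    have h4 : ((-1 : ℝ) ^ (u + 1)) * (-1) ^ (u + 1) = 1 := by
      rw [← mul_pow]; norm_num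
    linear_combination -((∏ k ∈ Icc 1 u, f k) * ∏ k ∈ Icc (u + 1) (2 * u + 1), f k) * h4

/-- the value of `Q0 * Pc (-1)` for `p = 3` modulo `4` -/
theorem Q0_three {u : ℕ} (hu : p = 4 * u + 3) :
    Q0 p (2 * u + 1) * Pc p (2 * u + 1) (-1) = chi p 2 * ((p : ℂ) ^ u)⁻¹ := by
  have hm : p = 2 * (2 * u + 1) + 1 := by omega
  obtain ⟨R, hR, h⟩ := Q0_pos hm
  have hs := sg_three (p := p) (by omega)
  have hp : (0 : ℝ) < p := by exact_mod_cast hpf.out.pos
  have h1 : Q0 p (2 * u + 1) * Pc p (2 * u + 1) (-1) =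
      ((∏ k ∈ Icc 1 (2 * u + 1), (2 * Real.cos (2 * Real.pi * k / p)) : ℝ) : ℂ) * (R : ℂ) := by
    rw [h, Pc_neg_one_three hm (by omega), mul_right_comm, ← prod_mul_distrib, Complex.ofReal_prod]
    congr 1
    refine prod_congr rfl fun k hk => ?_
    have hk0 := k_ne hm hk
    rw [← ps_add_neg]
    unfold rh tt
    rw [chi_neg, hs]
    have h2 : ps p (-(k : ZMod p)) - ps p (k : ZMod p) ≠ 0 := by
      intro h6
      have h7 := ps_inj (sub_eq_zero.1 h6)
      have h8 : (2 : ZMod p) * (k : ZMod p) = 0 := by linear_combination -h7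
      rcases mul_eq_zero.1 h8 with h9 | h9
      · exact two_ne hm h9
      · exact hk0 h9
    have h3 := chi_sq hk0
    rw [div_mul_eq_mul_div, div_eq_iff h2]
    linear_combination (ps p (k : ZMod p) + ps p (-(k : ZMod p))) *
      (ps p (-(k : ZMod p)) - ps p (k : ZMod p)) * h3
  obtain ⟨R', hR', h2⟩ := prod_sign (fun k => 2 * Real.cos (2 * Real.pi * k / p)) u (by
    intro k hk
    rw [mem_Icc] at hk
    apply mul_pos two_pos
    apply Real.cos_pos_of_mem_Ioo
    have hk1 : (1 : ℝ) ≤ k := by exact_mod_cast hk.1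
    have hk2 : (4 : ℝ) * k < p := by
      have : 4 * k < p := by omega
      exact_mod_cast this
    constructor
    · have : 0 < 2 * Real.pi * k / p := by positivity
      linarith [Real.pi_pos]
    · rw [div_lt_div_iff₀ hp two_pos]
      nlinarith [Real.pi_pos]) (by
    intro k hk
    rw [mem_Icc] at hk
    apply mul_neg_of_pos_of_neg two_pos
    have hk2 : (p : ℝ) < 4 * k := by
      have : p < 4 * k := by omega
      exact_mod_cast this
    have hk3 : (2 : ℝ) * k < p := by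
      have : 2 * k < p := by omega
      exact_mod_cast this
    apply Real.cos_neg_of_pi_div_two_lt_of_lt
    · rw [div_lt_div_iff₀ two_pos hp]
      nlinarith [Real.pi_pos]
    · rw [div_lt_iff₀ hp]
      nlinarith [Real.pi_pos])
  rw [h2] at h1
  have hc : (-1 : ℂ) ^ (u + 1) = chi p 2 := (chi_two_three hu).symm
  have h3 : Q0 p (2 * u + 1) * Pc p (2 * u + 1) (-1) = chi p 2 * ((R' * R : ℝ) : ℂ) := by
    rw [h1, ← hc]; push_cast; ring
  have h4 : (Q0 p (2 * u + 1) * Pc p (2 * u + 1) (-1)) ^ 2 = ((((p : ℝ) ^ u)⁻¹ : ℝ) : ℂ) ^ 2 := by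
    rw [mul_pow, Q0_sq hm (by omega), Pc_three_sq hm (by omega), hs]
    have hp0 := p_ne (p := p)
    push_cast
    field_simp
    ring
  have h5 := real_eq (mul_pos hR' hR) (a := ((p : ℝ) ^ u)⁻¹) (by positivity)
    (by rw [sq]; exact chi_sq (two_ne hm)) h3 h4
  rw [h5]
  push_cast
  rfl

/-- the value of `Pc (-1)` for `p = 3` modulo `4` -/
theorem Pc_val_three {u : ℕ} (hu : p = 4 * u + 3) :
    Pc p (2 * u + 1) (-1) = chi p (((2 * u + 1).factorial : ℕ) : ZMod p) * (-1) ^ u *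
      (Complex.I * (Real.sqrt p : ℝ)) := by
  have hm : p = 2 * (2 * u + 1) + 1 := by omega
  have hp : (0 : ℝ) < p := by exact_mod_cast hpf.out.pos
  have h1 : Pc p (2 * u + 1) (-1) = chi p (((2 * u + 1).factorial : ℕ) : ZMod p) * (-1) ^ u *
      Complex.I * ((∏ k ∈ Icc 1 (2 * u + 1), (2 * Real.sin (2 * Real.pi * k / p)) : ℝ) : ℂ) := by
    rw [Pc_neg_one_three hm (by omega), prod_mul_distrib, prod_chi_fact]
    simp_rw [ps_sub_neg]
    rw [prod_mul_distrib, prod_const, Nat.card_Icc, Nat.add_sub_cancel, Complex.ofReal_prod,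
      pow_succ Complex.I, pow_mul, Complex.I_sq]
    ring
  have hpos : 0 < ∏ k ∈ Icc 1 (2 * u + 1), (2 * Real.sin (2 * Real.pi * k / p)) := by
    apply prod_pos
    intro k hk
    rw [mem_Icc] at hk
    apply mul_pos two_pos
    have hk1 : (1 : ℝ) ≤ k := by exact_mod_cast hk.1
    have hk3 : (2 : ℝ) * k < p := by
      have : 2 * k < p := by omega
      exact_mod_cast this
    apply Real.sin_pos_of_pos_of_lt_pi
    · positivity
    · rw [div_lt_iff₀ hp]
      nlinarith [Real.pi_pos]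
  have he : (chi p (((2 * u + 1).factorial : ℕ) : ZMod p) * (-1) ^ u) ^ 2 = 1 := by
    rw [mul_pow, sq, chi_sq (fact_ne hm), ← pow_mul, mul_comm u 2, pow_mul]
    norm_num
  have h2 : Pc p (2 * u + 1) (-1) / Complex.I = chi p (((2 * u + 1).factorial : ℕ) : ZMod p) *
      (-1) ^ u * ((∏ k ∈ Icc 1 (2 * u + 1), (2 * Real.sin (2 * Real.pi * k / p)) : ℝ) : ℂ) := by
    rw [h1, div_eq_iff Complex.I_ne_zero]; ring
  have h3 := real_eq hpos (a := Real.sqrt p) (Real.sqrt_pos.2 hp) he h2 (by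
    rw [div_pow, Complex.I_sq, Pc_three_sq hm (by omega), ← Complex.ofReal_pow, Real.sq_sqrt hp.le]
    simp)
  rw [div_eq_iff Complex.I_ne_zero] at h3
  rw [h3]; ring

end

end Pool.Agent.H140.LD
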